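import Pool.Agent.Work.MP_8826fd_mp.NF.Gk

/-!
# MP_8826fd_mp, block NF, item Area: the area of the image in terms of the Taylor coefficients
-/

set_option autoImplicit false

namespace Pool.Agent.MFK.NF

open MeasureTheory Set Filter Topology

namespace IArea

theorem norm_pc {r : ℝ} (hr : 0 ≤ r) (θ : ℝ) : ‖pc r θ‖ = r := by
  unfold pc
  rw [norm_mul, Complex.norm_real, Real.norm_of_nonneg hr, mul_comm Complex.I,
    Complex.norm_exp_ofReal_mul_I, mul_one]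

theorem pc_mem {r : ℝ} (hr : r ∈ Ioo (0 : ℝ) 1) (θ : ℝ) : pc r θ ∈ Metric.ball (0 : ℂ) 1 := by
  rw [mem_ball_zero_iff, norm_pc hr.1.le]
  exact hr.2

theorem cont_pc (r : ℝ) : Continuous (fun θ => pc r θ) := by
  unfold pc
  fun_prop

theorem cont_dF {F : ℂ → ℂ} (hF : DifferentiableOn ℂ F (Metric.ball 0 1)) {r : ℝ}
    (hr : r ∈ Ioo (0 : ℝ) 1) : Continuous (fun θ => deriv F (pc r θ)) :=
  (hF.deriv Metric.isOpen_ball).continuousOn.comp_continuous (cont_pc r) (pc_mem hr)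

theorem Hr_eq (F : ℂ → ℂ) {r : ℝ} (hr : r ∈ Ioo (0 : ℝ) 1) (θ : ℝ) :
    r * ‖deriv F (pc r θ)‖ ^ 2 = (1 / r) * Hr F r θ := by
  have h0 : r ≠ 0 := hr.1.ne'
  unfold Hr
  rw [norm_mul, norm_pc hr.1.le]
  field_simp

theorem int_Hr (h2 : StF1) {F : ℂ → ℂ} {a : ℕ → ℂ} (hF : Hol F a) {r : ℝ}
    (hr : r ∈ Ioo (0 : ℝ) 1) :
    (∫ θ in (0 : ℝ)..(2 * Real.pi), Hr F r θ) =
      2 * Real.pi * ∑' k : ℕ, (k : ℝ) ^ 2 * ‖a k‖ ^ 2 * r ^ (2 * k) := by
  obtain ⟨-, h, -⟩ := h2 F a hF r hr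
  unfold fc at h
  have e1 : (∫ θ in (0 : ℝ)..(2 * Real.pi), ((Hr F r θ : ℝ) : ℂ) *
      Complex.exp (-(Complex.I * ((0 : ℤ) : ℂ) * θ))) =
      ((∫ θ in (0 : ℝ)..(2 * Real.pi), Hr F r θ : ℝ) : ℂ) := by
    rw [← intervalIntegral.integral_ofReal]
    refine intervalIntegral.integral_congr fun θ _ => ?_
    simp
  rw [e1, ← Complex.ofReal_mul] at h
  have h3 := Complex.ofReal_injective h
  have hpi : (2 * Real.pi) ≠ 0 := by positivity
  rw [← h3]
  field_simp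

theorem Aad_eq (a : ℕ → ℂ) {r : ℝ} (hr : r ∈ Ioo (0 : ℝ) 1) :
    Aad (cc a) r = (2 / r) * ∑' k : ℕ, (k : ℝ) ^ 2 * ‖a k‖ ^ 2 * r ^ (2 * k) := by
  have h0 : r ≠ 0 := hr.1.ne'
  unfold Aad cc
  rw [← tsum_mul_left]
  refine tsum_congr fun j => ?_
  rcases j with _ | j
  · simp
  · have e : 2 * (j + 1) - 1 = 2 * j + 1 := by omega
    rw [e]
    have e2 : r ^ (2 * (j + 1)) = r ^ (2 * j + 1) * r := by
      rw [← pow_succ]
      congr 1
    rw [e2]
    field_simp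

theorem Aad_summable (h2 : StF1) {F : ℂ → ℂ} {a : ℕ → ℂ} (hF : Hol F a) {r : ℝ}
    (hr : r ∈ Ioo (0 : ℝ) 1) : Summable fun j : ℕ => cc a j * (2 * j * r ^ (2 * j - 1)) := by
  obtain ⟨h, -, -⟩ := h2 F a hF r hr
  have h0 : r ≠ 0 := hr.1.ne'
  refine (h.mul_left (2 / r)).congr fun j => ?_
  unfold cc
  rcases j with _ | j
  · simp
  · have e : 2 * (j + 1) - 1 = 2 * j + 1 := by omega
    rw [e]
    have e2 : r ^ (2 * (j + 1)) = r ^ (2 * j + 1) * r := by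
      rw [← pow_succ]
      congr 1
    rw [e2]
    field_simp

theorem cc_nonneg (a : ℕ → ℂ) (j : ℕ) : 0 ≤ cc a j := by
  unfold cc
  positivity

theorem Aad_nonneg (a : ℕ → ℂ) {r : ℝ} (hr : r ∈ Ioo (0 : ℝ) 1) : 0 ≤ Aad (cc a) r := by
  unfold Aad
  refine tsum_nonneg fun j => ?_
  have h1 := cc_nonneg a j
  have h2 := hr.1
  positivity

theorem lint (h2 : StF1) {F : ℂ → ℂ} {a : ℕ → ℂ} (hF : Hol F a) {r : ℝ}
    (hr : r ∈ Ioo (0 : ℝ) 1) :
    (∫⁻ θ in Ioo (0 : ℝ) (2 * Real.pi), ENNReal.ofReal (r * ‖deriv F (pc r θ)‖ ^ 2)) =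
      ENNReal.ofReal (Real.pi * Aad (cc a) r) := by
  have hc : Continuous (fun θ => r * ‖deriv F (pc r θ)‖ ^ 2) :=
    continuous_const.mul ((cont_dF hF.Fd hr).norm.pow 2)
  have hint : Integrable (fun θ => r * ‖deriv F (pc r θ)‖ ^ 2)
      (volume.restrict (Ioo (0 : ℝ) (2 * Real.pi))) :=
    (hc.integrableOn_Icc (a := (0 : ℝ)) (b := 2 * Real.pi)).mono_set Ioo_subset_Icc_self
  rw [← ofReal_integral_eq_lintegral_ofReal hint
    (ae_of_all _ fun θ => mul_nonneg hr.1.le (sq_nonneg _))]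
  congr 1
  rw [← integral_Ioc_eq_integral_Ioo, ← intervalIntegral.integral_of_le (by positivity)]
  have e : (∫ θ in (0 : ℝ)..(2 * Real.pi), r * ‖deriv F (pc r θ)‖ ^ 2) =
      ∫ θ in (0 : ℝ)..(2 * Real.pi), (1 / r) * Hr F r θ :=
    intervalIntegral.integral_congr fun θ _ => Hr_eq F hr θ
  rw [e, intervalIntegral.integral_const_mul, int_Hr h2 hF hr, Aad_eq a hr]
  ring

theorem lint_pow (j : ℕ) (c : ℝ) (hc : 0 ≤ c) (h0 : j = 0 → c = 0) :
    (∫⁻ r in Ioo (0 : ℝ) 1, ENNReal.ofReal (c * (2 * j * r ^ (2 * j - 1)))) =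
      ENNReal.ofReal c := by
  have hcont : Continuous (fun r : ℝ => c * (2 * j * r ^ (2 * j - 1))) := by fun_prop
  have hint : Integrable (fun r : ℝ => c * (2 * j * r ^ (2 * j - 1)))
      (volume.restrict (Ioo (0 : ℝ) 1)) :=
    (hcont.integrableOn_Icc (a := (0 : ℝ)) (b := 1)).mono_set Ioo_subset_Icc_self
  rw [← ofReal_integral_eq_lintegral_ofReal hint
    ((ae_restrict_iff' measurableSet_Ioo).2 (ae_of_all _ fun r hr => by
      have := hr.1
      show (0 : ℝ) ≤ c * (2 * j * r ^ (2 * j - 1))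
      positivity))]
  congr 1
  rcases j with _ | j
  · rw [h0 rfl]
    simp
  · rw [← integral_Ioc_eq_integral_Ioo, ← intervalIntegral.integral_of_le zero_le_one,
      intervalIntegral.integral_const_mul, intervalIntegral.integral_const_mul, integral_pow]
    have e : 2 * (j + 1) - 1 = 2 * j + 1 := by omega
    rw [e]
    push_cast
    have h3 : (2 * (j : ℝ) + 1 + 1) ≠ 0 := by positivity
    have h4 : (0 : ℝ) ^ (2 * j + 1 + 1) = 0 := by simp
    rw [h4, one_pow]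
    field_simp
    ring

theorem vol (h1 : StPC) (h2 : StF1) {N : ℕ} {Ω : Set ℂ} {f F : ℂ → ℂ} {a : ℕ → ℂ}
    (h : CM N Ω f F a) :
    volume Ω = ENNReal.ofReal Real.pi * (∑' j : ℕ, ENNReal.ofReal (cc a j)) := by
  have hH : Hol F a := h.toHol
  have e0 := h1 N Ω f F a (fun _ => 1) h aemeasurable_const
  rw [setLIntegral_one] at e0
  rw [e0]
  have e1 : (∫⁻ r in Ioo (0 : ℝ) 1, ∫⁻ θ in Ioo (0 : ℝ) (2 * Real.pi),
      ENNReal.ofReal (r * ‖deriv F (pc r θ)‖ ^ 2) * 1) =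
      ∫⁻ r in Ioo (0 : ℝ) 1, ∑' j : ℕ,
        ENNReal.ofReal Real.pi * ENNReal.ofReal (cc a j * (2 * j * r ^ (2 * j - 1))) := by
    refine setLIntegral_congr_fun measurableSet_Ioo fun r hr => ?_
    simp only [mul_one]
    rw [lint h2 hH hr, ENNReal.ofReal_mul Real.pi_pos.le, ENNReal.tsum_mul_left]
    congr 1
    unfold Aad
    refine ENNReal.ofReal_tsum_of_nonneg (fun j => ?_) (Aad_summable h2 hH hr)
    have h3 := cc_nonneg a j
    have h4 := hr.1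
    positivity
  rw [e1, lintegral_tsum (fun j => by fun_prop), ← ENNReal.tsum_mul_left]
  refine tsum_congr fun j => ?_
  rw [lintegral_const_mul' _ _ ENNReal.ofReal_ne_top, lint_pow j (cc a j) (cc_nonneg a j)]
  intro hj
  subst hj
  simp [cc]

end IArea

theorem pr_Area (h1 : StPC) (h2 : StF1) : StArea := by
  intro N Ω f F a h
  exact ⟨IArea.vol h1 h2 h, fun r hr => ⟨IArea.Aad_nonneg a hr, IArea.lint h2 h.toHol hr⟩⟩

end Pool.Agent.MFK.NF
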