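import Pool.Agent.Work.MP_8826fd_mp.NF.Gk

/-!
# MP_8826fd_mp, block NF, item F1: Fourier coefficients of `|wF'(w)|²` on a circle
-/

set_option autoImplicit false

namespace Pool.Agent.MFK.NF

open MeasureTheory Set Filter Topology

namespace IF1

/-- absolute convergence of the differentiated series -/
lemma sumA {F : ℂ → ℂ} {a : ℕ → ℂ} (h : Hol F a) {ρ : ℝ} (h0 : 0 ≤ ρ) (h1 : ρ < 1) :
    Summable fun j : ℕ => (j : ℝ) * ‖a j‖ * ρ ^ j := by
  obtain ⟨σ, hs1, hs2⟩ := exists_between h1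
  have hs0 : 0 < σ := h0.trans_lt hs1
  have hmem : (σ : ℂ) ∈ Metric.ball (0 : ℂ) 1 := by
    rw [mem_ball_zero_iff, Complex.norm_real, Real.norm_eq_abs, abs_of_pos hs0]
    exact hs2
  have ht := (h.ser _ hmem).summable.tendsto_atTop_zero.norm
  obtain ⟨M, hM⟩ := ht.bddAbove_range
  have hM' : ∀ j : ℕ, ‖a j‖ * σ ^ j ≤ M := by
    intro j
    have := hM ⟨j, rfl⟩
    simpa [norm_mul, norm_pow, Complex.norm_real, abs_of_pos hs0] using this
  have hq0 : 0 ≤ ρ / σ := by positivity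
  have hq : ‖ρ / σ‖ < 1 := by
    rw [Real.norm_eq_abs, abs_of_nonneg hq0, div_lt_one hs0]
    exact hs1
  have hsum := (summable_pow_mul_geometric_of_norm_lt_one 1 hq).mul_left M
  refine Summable.of_nonneg_of_le (fun j => by positivity) (fun j => ?_) hsum
  have e : (j : ℝ) * ‖a j‖ * ρ ^ j = (‖a j‖ * σ ^ j) * ((j : ℝ) ^ 1 * (ρ / σ) ^ j) := by
    rw [div_pow]
    field_simp
  rw [e]
  exact mul_le_mul_of_nonneg_right (hM' j) (by positivity)

/-- the series of `w F'(w)` -/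
lemma serD {F : ℂ → ℂ} {a : ℕ → ℂ} (h : Hol F a) {w : ℂ} (hw : w ∈ Metric.ball (0 : ℂ) 1) :
    HasSum (fun j : ℕ => (j : ℂ) * a j * w ^ j) (w * deriv F w) := by
  have hw1 : ‖w‖ < 1 := by simpa using hw
  obtain ⟨ρ, hr1, hr2⟩ := exists_between hw1
  have hr0 : 0 < ρ := (norm_nonneg w).trans_lt hr1
  have hsum := sumA h hr0.le hr2
  have hu : Summable fun j : ℕ => (j : ℝ) * ‖a j‖ * ρ ^ (j - 1) := by
    have h2 := hsum.mul_left (1 / ρ)
    refine h2.congr fun j => ?_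
    rcases j with _ | j
    · simp
    · rw [Nat.add_sub_cancel, pow_succ]
      field_simp
  have hball : Metric.ball (0 : ℂ) ρ ⊆ Metric.ball 0 1 := Metric.ball_subset_ball hr2.le
  have hwρ : w ∈ Metric.ball (0 : ℂ) ρ := by simpa using hr1
  have hder : ∀ (n : ℕ) (y : ℂ), y ∈ Metric.ball (0 : ℂ) ρ →
      HasDerivAt (fun z => a n * z ^ n) (a n * (n * y ^ (n - 1))) y := fun n y _ =>
    (hasDerivAt_pow n y).const_mul (a n)
  have hbd : ∀ (n : ℕ) (y : ℂ), y ∈ Metric.ball (0 : ℂ) ρ →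
      ‖a n * (n * y ^ (n - 1))‖ ≤ (n : ℝ) * ‖a n‖ * ρ ^ (n - 1) := by
    intro n y hy
    have hy' : ‖y‖ ≤ ρ := by
      have : ‖y‖ < ρ := by simpa using hy
      exact this.le
    rw [norm_mul, norm_mul, norm_pow, Complex.norm_natCast]
    have : ‖y‖ ^ (n - 1) ≤ ρ ^ (n - 1) := pow_le_pow_left₀ (norm_nonneg y) hy' _
    calc ‖a n‖ * (n * ‖y‖ ^ (n - 1)) = (n : ℝ) * ‖a n‖ * ‖y‖ ^ (n - 1) := by ring
      _ ≤ _ := mul_le_mul_of_nonneg_left this (by positivity)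
  have hd := hasDerivAt_tsum_of_isPreconnected hu Metric.isOpen_ball
    (convex_ball (0 : ℂ) ρ).isPreconnected hder hbd hwρ (h.ser w hw).summable hwρ
  have hev : F =ᶠ[𝓝 w] fun z => ∑' n, a n * z ^ n := by
    filter_upwards [Metric.isOpen_ball.mem_nhds hw] with z hz
    exact (h.ser z hz).tsum_eq.symm
  have hdF : deriv F w = ∑' n : ℕ, a n * (n * w ^ (n - 1)) := (hd.congr_of_eventuallyEq hev).deriv
  have hs' : Summable fun n : ℕ => a n * (n * w ^ (n - 1)) :=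
    Summable.of_norm_bounded hu fun n => hbd n w hwρ
  have h3 := hs'.hasSum.mul_left w
  rw [← hdF] at h3
  refine h3.congr_fun fun j => ?_
  rcases j with _ | j
  · simp
  · rw [Nat.add_sub_cancel, pow_succ]
    ring

/-- orthogonality of the exponentials -/
lemma orth (m n : ℤ) (c : ℂ) :
    ((1 / (2 * Real.pi) : ℝ) : ℂ) * ∫ θ in (0 : ℝ)..(2 * Real.pi),
      c * Complex.exp (Complex.I * m * θ) * Complex.exp (-(Complex.I * n * θ)) = if m = n then c else 0 := by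
  by_cases hmn : m = n
  · rw [if_pos hmn, hmn]
    have e : ∀ θ : ℝ, c * Complex.exp (Complex.I * n * θ) * Complex.exp (-(Complex.I * n * θ)) = c := by
      intro θ
      rw [mul_assoc, ← Complex.exp_add, add_neg_cancel, Complex.exp_zero, mul_one]
    simp only [e]
    rw [intervalIntegral.integral_const, sub_zero]
    have hp : (Real.pi : ℂ) ≠ 0 := by exact_mod_cast Real.pi_ne_zero
    rw [Complex.real_smul]
    push_cast
    field_simp
  · rw [if_neg hmn]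
    have h1 := L3.fc_const (n := n - m) (sub_ne_zero.2 (Ne.symm hmn)) c
    rw [fc] at h1
    rw [← h1]
    congr 1
    refine intervalIntegral.integral_congr fun θ _ => ?_
    show c * Complex.exp (Complex.I * m * θ) * Complex.exp (-(Complex.I * n * θ)) =
      c * Complex.exp (-(Complex.I * ((n - m : ℤ) : ℂ) * θ))
    rw [mul_assoc, ← Complex.exp_add]
    congr 2
    push_cast
    ring

/-- Fourier coefficients of an absolutely convergent trigonometric series -/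
lemma fcSum {ι : Type} [Countable ι] (c : ι → ℂ) (m : ι → ℤ) (v : ℝ → ℂ) (hc : Summable fun i => ‖c i‖)
    (hv : ∀ θ : ℝ, HasSum (fun i => c i * Complex.exp (Complex.I * m i * θ)) (v θ)) (n : ℤ) :
    HasSum (fun i => if m i = n then c i else 0) (fc v n) := by
  have hne : ∀ (k : ℤ) (θ : ℝ), ‖Complex.exp (Complex.I * k * θ)‖ = 1 := by
    intro k θ
    have e : Complex.I * k * θ = ((k * θ : ℝ) : ℂ) * Complex.I := by
      push_cast
      ring
    rw [e, Complex.norm_exp_ofReal_mul_I]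
  have hne' : ∀ (k : ℤ) (θ : ℝ), ‖Complex.exp (-(Complex.I * k * θ))‖ = 1 := by
    intro k θ
    have e : -(Complex.I * k * θ) = ((-(k * θ) : ℝ) : ℂ) * Complex.I := by
      push_cast
      ring
    rw [e, Complex.norm_exp_ofReal_mul_I]
  have key := intervalIntegral.hasSum_integral_of_dominated_convergence (μ := volume) (a := 0) (b := 2 * Real.pi)
    (F := fun i (θ : ℝ) => c i * Complex.exp (Complex.I * m i * θ) * Complex.exp (-(Complex.I * n * θ)))
    (f := fun θ : ℝ => v θ * Complex.exp (-(Complex.I * n * θ))) (fun i _ => ‖c i‖)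
    (fun i => (by fun_prop : Continuous fun θ : ℝ =>
      c i * Complex.exp (Complex.I * m i * θ) * Complex.exp (-(Complex.I * n * θ))).aestronglyMeasurable)
    (fun i => Eventually.of_forall fun θ _ => by rw [norm_mul, norm_mul, hne, hne', mul_one, mul_one])
    (Eventually.of_forall fun θ _ => hc)
    intervalIntegrable_const
    (Eventually.of_forall fun θ _ => (hv θ).mul_right _)
  have key2 := key.mul_left ((1 / (2 * Real.pi) : ℝ) : ℂ)
  simp only [orth] at key2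
  exact key2

lemma neI (θ : ℝ) (k : ℕ) : ‖Complex.exp (Complex.I * k * θ)‖ = 1 := by
  have e : Complex.I * k * θ = ((k * θ : ℝ) : ℂ) * Complex.I := by
    push_cast
    ring
  rw [e, Complex.norm_exp_ofReal_mul_I]

lemma neI' (θ : ℝ) (k : ℕ) : ‖Complex.exp (-(Complex.I * k * θ))‖ = 1 := by
  have e : -(Complex.I * k * θ) = ((-(k * θ) : ℝ) : ℂ) * Complex.I := by
    push_cast
    ring
  rw [e, Complex.norm_exp_ofReal_mul_I]

lemma serC {b : ℕ → ℂ} {G : ℂ} {θ : ℝ} (hG : HasSum (fun j : ℕ => b j * Complex.exp (Complex.I * j * θ)) G) :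
    HasSum (fun j : ℕ => (starRingEnd ℂ) (b j) * Complex.exp (-(Complex.I * j * θ))) ((starRingEnd ℂ) G) := by
  refine (Complex.hasSum_conj'.2 hG).congr_fun fun j => ?_
  rw [map_mul, ← Complex.exp_conj, map_mul, map_mul, Complex.conj_I, Complex.conj_natCast,
    Complex.conj_ofReal, neg_mul, neg_mul]

lemma conjmul (G : ℂ) (v : ℝ) (hvG : v = ‖G‖ ^ 2) : (starRingEnd ℂ) G * G = ((v : ℝ) : ℂ) := by
  rw [hvG, Complex.conj_mul', Complex.ofReal_pow]

/-- product of two absolutely convergent series -/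
lemma prodS (f g : ℕ → ℂ) (s t : ℂ) (hf : HasSum f s) (hg : HasSum g t) (hf' : Summable fun j => ‖f j‖)
    (hg' : Summable fun j => ‖g j‖) : HasSum (fun i : ℕ × ℕ => f i.1 * g i.2) (s * t) :=
  hf.mul hg (summable_mul_of_summable_norm hf' hg')

lemma expI (θ : ℝ) (k l : ℕ) : Complex.exp (Complex.I * (((l : ℤ) - k : ℤ) : ℂ) * θ) =
    Complex.exp (-(Complex.I * k * θ)) * Complex.exp (Complex.I * l * θ) := by
  rw [← Complex.exp_add]
  congr 1
  push_cast
  ring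

/-- the double series of `|G|²` -/
lemma dbl0 (b : ℕ → ℂ) (G : ℂ) (v θ : ℝ) (hbs : Summable fun j => ‖b j‖)
    (hG : HasSum (fun j : ℕ => b j * Complex.exp (Complex.I * j * θ)) G) (hvG : v = ‖G‖ ^ 2) :
    HasSum (fun i : ℕ × ℕ => (starRingEnd ℂ) (b i.1) * b i.2 *
      Complex.exp (Complex.I * (((i.2 : ℤ) - i.1 : ℤ) : ℂ) * θ)) ((v : ℝ) : ℂ) := by
  have s1 : Summable fun j : ℕ => ‖(starRingEnd ℂ) (b j) * Complex.exp (-(Complex.I * j * θ))‖ := by
    simp only [norm_mul, neI', mul_one, RCLike.norm_conj]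
    exact hbs
  have s2 : Summable fun j : ℕ => ‖b j * Complex.exp (Complex.I * j * θ)‖ := by
    simp only [norm_mul, neI, mul_one]
    exact hbs
  have h1 := prodS _ _ _ _ (serC hG) hG s1 s2
  rw [conjmul G v hvG] at h1
  have h2 : (fun i : ℕ × ℕ => (starRingEnd ℂ) (b i.1) * b i.2 *
      Complex.exp (Complex.I * (((i.2 : ℤ) - i.1 : ℤ) : ℂ) * θ)) =
      fun i : ℕ × ℕ => (starRingEnd ℂ) (b i.1) * Complex.exp (-(Complex.I * i.1 * θ)) *
        (b i.2 * Complex.exp (Complex.I * i.2 * θ)) := by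
    funext i
    rw [expI]
    ring
  rw [h2]
  exact h1

/-- Fourier coefficients of `|G|²`, `G` an absolutely convergent power series in `e^{iθ}` -/
lemma dbl (b : ℕ → ℂ) (G : ℝ → ℂ) (v : ℝ → ℝ) (hbs : Summable fun j => ‖b j‖)
    (hG : ∀ θ : ℝ, HasSum (fun j : ℕ => b j * Complex.exp (Complex.I * j * θ)) (G θ))
    (hvG : ∀ θ, v θ = ‖G θ‖ ^ 2) :
    (Summable fun i : ℕ × ℕ => ‖(starRingEnd ℂ) (b i.1) * b i.2‖) ∧
    ∀ n : ℤ, HasSum (fun i : ℕ × ℕ => if (i.2 : ℤ) - i.1 = n then (starRingEnd ℂ) (b i.1) * b i.2 else 0)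
      (fc (fun θ => ((v θ : ℝ) : ℂ)) n) := by
  have hbs' : Summable fun j => ‖(starRingEnd ℂ) (b j)‖ := by
    simp only [RCLike.norm_conj]
    exact hbs
  have hc : Summable fun i : ℕ × ℕ => ‖(starRingEnd ℂ) (b i.1) * b i.2‖ :=
    Summable.mul_norm (f := fun j => (starRingEnd ℂ) (b j)) (g := b) hbs' hbs
  exact ⟨hc, fun n => fcSum (fun i : ℕ × ℕ => (starRingEnd ℂ) (b i.1) * b i.2) (fun i => (i.2 : ℤ) - i.1)
    (fun θ => ((v θ : ℝ) : ℂ)) hc (fun θ => dbl0 b (G θ) (v θ) θ hbs (hG θ) (hvG θ)) n⟩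

/-- restriction to a diagonal -/
lemma red (c : ℕ × ℕ → ℂ) (n : ℤ) (z : ℂ) (h : HasSum (fun i : ℕ × ℕ => if (i.2 : ℤ) - i.1 = n then c i else 0) z)
    (φ : ℕ → ℕ × ℕ) (hφ : Function.Injective φ)
    (hr : ∀ x : ℕ × ℕ, (x.2 : ℤ) - x.1 = n ↔ x ∈ Set.range φ) : HasSum (fun k => c (φ k)) z := by
  have h2 := (hφ.hasSum_iff (f := fun i : ℕ × ℕ => if (i.2 : ℤ) - i.1 = n then c i else 0)
    (fun x hx => if_neg fun hm => hx ((hr x).1 hm))).2 h
  refine h2.congr_fun fun k => ?_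
  show c (φ k) = if ((φ k).2 : ℤ) - (φ k).1 = n then c (φ k) else 0
  rw [if_pos ((hr _).2 ⟨k, rfl⟩)]

/-- parametrization of the diagonals -/
lemma diag (n : ℤ) : ∃ φ : ℕ → ℕ × ℕ, Function.Injective φ ∧
    (∀ x : ℕ × ℕ, (x.2 : ℤ) - x.1 = n ↔ x ∈ Set.range φ) ∧
    ((∀ k, φ k = (k, k + n.natAbs)) ∨ (∀ k, φ k = (k + n.natAbs, k))) := by
  rcases Int.natAbs_eq n with hn | hn
  · refine ⟨fun k => (k, k + n.natAbs), fun k l hkl => (Prod.ext_iff.1 hkl).1, fun x => ?_, Or.inl fun k => rfl⟩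
    constructor
    · intro hx
      refine ⟨x.1, Prod.ext rfl ?_⟩
      show x.1 + n.natAbs = x.2
      omega
    · rintro ⟨k, rfl⟩
      show (((k + n.natAbs : ℕ) : ℤ)) - k = n
      omega
  · refine ⟨fun k => (k + n.natAbs, k), fun k l hkl => (Prod.ext_iff.1 hkl).2, fun x => ?_, Or.inr fun k => rfl⟩
    constructor
    · intro hx
      refine ⟨x.2, Prod.ext ?_ rfl⟩
      show x.2 + n.natAbs = x.1
      omega
    · rintro ⟨k, rfl⟩
      show (k : ℤ) - ((k + n.natAbs : ℕ) : ℤ) = n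
      omega

end IF1

open IF1 in
theorem pr_F1 : StF1 := by
  intro F a h r hr
  have hr0 : 0 < r := hr.1
  have hr1 : r < 1 := hr.2
  have hbn : ∀ j : ℕ, ‖(j : ℂ) * a j * (r : ℂ) ^ j‖ = (j : ℝ) * ‖a j‖ * r ^ j := by
    intro j
    rw [norm_mul, norm_mul, norm_pow, Complex.norm_natCast, Complex.norm_real, Real.norm_eq_abs, abs_of_pos hr0]
  have hbs : Summable fun j : ℕ => ‖(j : ℂ) * a j * (r : ℂ) ^ j‖ := by
    simp only [hbn]
    exact sumA h hr0.le hr1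
  have hpc : ∀ θ : ℝ, pc r θ ∈ Metric.ball (0 : ℂ) 1 := by
    intro θ
    rw [mem_ball_zero_iff, pc, norm_mul, Complex.norm_real, Real.norm_eq_abs, abs_of_pos hr0,
      mul_comm Complex.I, Complex.norm_exp_ofReal_mul_I, mul_one]
    exact hr1
  have hG : ∀ θ : ℝ, HasSum (fun j : ℕ => (j : ℂ) * a j * (r : ℂ) ^ j * Complex.exp (Complex.I * j * θ))
      (pc r θ * deriv F (pc r θ)) := by
    intro θ
    refine (serD h (hpc θ)).congr_fun fun j => ?_
    rw [pc, mul_pow, ← Complex.exp_nat_mul]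
    have e : Complex.I * j * θ = j * (Complex.I * θ) := by ring
    rw [e]
    ring
  obtain ⟨hc, key⟩ := dbl (fun j : ℕ => (j : ℂ) * a j * (r : ℂ) ^ j) (fun θ => pc r θ * deriv F (pc r θ))
    (fun θ => Hr F r θ) hbs hG (fun θ => rfl)
  obtain ⟨c, hcdef⟩ : ∃ c : ℕ × ℕ → ℂ, ∀ i, c i = (starRingEnd ℂ) ((i.1 : ℂ) * a i.1 * (r : ℂ) ^ i.1) *
    ((i.2 : ℂ) * a i.2 * (r : ℂ) ^ i.2) := ⟨_, fun i => rfl⟩
  simp only [← hcdef] at hc key
  have hcn : ∀ i : ℕ × ℕ, ‖c i‖ = ((i.1 : ℝ) * ‖a i.1‖ * r ^ i.1) * ((i.2 : ℝ) * ‖a i.2‖ * r ^ i.2) := by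
    intro i
    rw [hcdef, norm_mul, RCLike.norm_conj, hbn, hbn]
  -- the coefficient of index zero
  have hzero := red c 0 _ (key 0) (fun k => (k, k)) (fun k l hkl => (Prod.ext_iff.1 hkl).1) (fun x => by
    constructor
    · intro hx
      refine ⟨x.1, Prod.ext rfl ?_⟩
      show x.1 = x.2
      omega
    · rintro ⟨k, rfl⟩
      show (k : ℤ) - k = 0
      omega)
  have hz2 : ∀ k : ℕ, c (k, k) = (((k : ℝ) ^ 2 * ‖a k‖ ^ 2 * r ^ (2 * k) : ℝ) : ℂ) := by
    intro k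
    rw [hcdef, Complex.conj_mul', hbn]
    push_cast
    ring
  have hzero' : HasSum (fun k : ℕ => (((k : ℝ) ^ 2 * ‖a k‖ ^ 2 * r ^ (2 * k) : ℝ) : ℂ))
      (fc (fun θ => ((Hr F r θ : ℝ) : ℂ)) 0) := hzero.congr_fun fun k => (hz2 k).symm
  have hs0 : Summable (fun k : ℕ => (k : ℝ) ^ 2 * ‖a k‖ ^ 2 * r ^ (2 * k)) :=
    Complex.summable_ofReal.1 hzero'.summable
  refine ⟨hs0, ?_, fun n => ?_⟩
  · rw [← hzero'.tsum_eq, Complex.ofReal_tsum]
  · obtain ⟨φ, h1, h2, h3⟩ := diag n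
    have h4 : ∀ k, ‖c (φ k)‖ =
        ((k + n.natAbs : ℕ) : ℝ) * kap (fun j => ‖a j‖) n.natAbs k * r ^ (2 * k + n.natAbs) := by
      intro k
      rw [hcn, kap]
      rcases h3 with h3 | h3
      · rw [h3]
        show ((k : ℝ) * ‖a k‖ * r ^ k) * (((k + n.natAbs : ℕ) : ℝ) * ‖a (k + n.natAbs)‖ * r ^ (k + n.natAbs)) = _
        ring
      · rw [h3]
        show (((k + n.natAbs : ℕ) : ℝ) * ‖a (k + n.natAbs)‖ * r ^ (k + n.natAbs)) * ((k : ℝ) * ‖a k‖ * r ^ k) = _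
        ring
    have hsn : Summable fun k => ‖c (φ k)‖ := hc.comp_injective h1
    refine ⟨hsn.congr h4, ?_⟩
    rw [← (red c n _ (key n) φ h1 h2).tsum_eq]
    exact (norm_tsum_le_tsum_norm hsn).trans (le_of_eq (tsum_congr h4))

end Pool.Agent.MFK.NF
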