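import Pool.Agent.Work.MP_8826fd_mp.NF.Gk

/-!
# MP_8826fd_mp, block NF, item En: energy and mass of the test function
-/

set_option autoImplicit false

namespace Pool.Agent.MFK.NF

open MeasureTheory Set Filter Topology

namespace IEn

/-- the zeroth Fourier coefficient is the mean -/
lemma mean {b : ℝ → ℝ} {A : ℝ} (h0 : fc (fun θ => ((b θ : ℝ) : ℂ)) 0 = ((A / 2 : ℝ) : ℂ)) :
    (∫ θ in (0 : ℝ)..(2 * Real.pi), b θ) = Real.pi * A := by
  unfold fc at h0
  have h1 : (fun θ : ℝ => ((b θ : ℝ) : ℂ) * Complex.exp (-(Complex.I * ((0 : ℤ) : ℂ) * θ)))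
      = fun θ : ℝ => ((b θ : ℝ) : ℂ) := by
    funext θ
    simp
  rw [h1, intervalIntegral.integral_ofReal, ← Complex.ofReal_mul] at h0
  have h2 := Complex.ofReal_injective h0
  have hp := Real.pi_pos
  field_simp at h2
  linarith

/-- integral of the angular density -/
lemma ang {b : ℝ → ℝ} {A : ℝ} (hb : Continuous b) (hm : (∫ θ in (0 : ℝ)..(2 * Real.pi), b θ) = Real.pi * A)
    (B k q d r : ℝ) (hr : 0 < r) :
    (∫ θ in (0 : ℝ)..(2 * Real.pi), r * (d ^ 2 + q ^ 2 * (k - B * b θ) ^ 2 / r ^ 2))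
      = Real.pi * (2 * r * (d ^ 2 + q ^ 2 * ((k - B * A / 2) / r) ^ 2))
        + B ^ 2 * q ^ 2 * ∫ θ in (0 : ℝ)..(2 * Real.pi), (b θ - A / 2) ^ 2 / r := by
  have h1 : (fun θ : ℝ => r * (d ^ 2 + q ^ 2 * (k - B * b θ) ^ 2 / r ^ 2))
      = fun θ : ℝ => (r * (d ^ 2 + q ^ 2 * ((k - B * A / 2) / r) ^ 2)
          + B ^ 2 * q ^ 2 * ((b θ - A / 2) ^ 2 / r))
        + (-(2 * (k - B * A / 2) * B * q ^ 2 / r)) * (b θ - A / 2) := by
    funext θ
    field_simp
    ring
  have i1 : IntervalIntegrable (fun θ : ℝ => b θ) volume 0 (2 * Real.pi) := hb.intervalIntegrable _ _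
  have i2 : IntervalIntegrable (fun θ : ℝ => (b θ - A / 2) ^ 2 / r) volume 0 (2 * Real.pi) :=
    (Continuous.intervalIntegrable (by fun_prop) _ _)
  have i3 : IntervalIntegrable (fun θ : ℝ => (-(2 * (k - B * A / 2) * B * q ^ 2 / r)) * (b θ - A / 2))
      volume 0 (2 * Real.pi) := (Continuous.intervalIntegrable (by fun_prop) _ _)
  have i4 : IntervalIntegrable (fun θ : ℝ => r * (d ^ 2 + q ^ 2 * ((k - B * A / 2) / r) ^ 2)
          + B ^ 2 * q ^ 2 * ((b θ - A / 2) ^ 2 / r)) volume 0 (2 * Real.pi) :=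
    (Continuous.intervalIntegrable (by fun_prop) _ _)
  rw [h1, intervalIntegral.integral_add i4 i3, intervalIntegral.integral_add
      (by exact intervalIntegrable_const) (i2.const_mul _)]
  simp only [intervalIntegral.integral_const_mul]
  rw [intervalIntegral.integral_sub i1 intervalIntegrable_const, hm]
  simp only [intervalIntegral.integral_const, smul_eq_mul, sub_zero]
  ring

/-- the lower integral of a continuous nonnegative function over the circle -/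
lemma lint {f : ℝ → ℝ} (hf : Continuous f) (h0 : ∀ θ, 0 ≤ f θ) :
    (∫⁻ θ in Ioo (0 : ℝ) (2 * Real.pi), ENNReal.ofReal (f θ))
      = ENNReal.ofReal (∫ θ in (0 : ℝ)..(2 * Real.pi), f θ) := by
  have hp : (0 : ℝ) ≤ 2 * Real.pi := by positivity
  have hi : IntegrableOn f (Ioo 0 (2 * Real.pi)) volume :=
    (hf.integrableOn_Icc).mono_set Ioo_subset_Icc_self
  rw [intervalIntegral.integral_of_le hp, integral_Ioc_eq_integral_Ioo,
    ofReal_integral_eq_lintegral_ofReal hi (Eventually.of_forall h0)]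

lemma meas_Aa (a : ℕ → ℂ) : Measurable (Aa (cc a)) := by
  have h : Aa (cc a) = fun r => (∑' j, ENNReal.ofReal (cc a j * r ^ (2 * j))).toReal := by
    funext r
    rw [ENNReal.tsum_toReal_eq (fun _ => ENNReal.ofReal_ne_top)]
    unfold Aa
    congr 1
    funext j
    rw [ENNReal.toReal_ofReal]
    have h1 : 0 ≤ cc a j := by unfold cc; positivity
    have h2 : 0 ≤ r ^ (2 * j) := by
      rw [pow_mul]
      positivity
    positivity
  rw [h]
  apply Measurable.ennreal_toReal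
  apply Measurable.tsum
  intro j
  fun_prop

lemma cont_radf {Ψ : ℝ → ℝ} (hΨ : ContDiff ℝ 2 Ψ) (k : ℕ) : Continuous (radf (k : ℤ) Ψ) := by
  have h := hΨ.continuous
  unfold radf
  fun_prop

lemma cont_edC {B : ℝ} {U : ℂ → ℂ} {Ω : Set ℂ} (ho : IsOpen Ω) (hU : ContDiffOn ℝ 1 U Ω) :
    ContinuousOn (fun z => edC B U z) Ω := by
  have h1 : ContinuousOn (fun z => fderiv ℝ U z) Ω := hU.continuousOn_fderiv_of_isOpen ho le_rfl
  have h2 : ContinuousOn U Ω := hU.continuousOn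
  have h3 : ∀ h : ℂ, ContinuousOn (fun z => fderiv ℝ U z h) Ω := fun h => h1.clm_apply continuousOn_const
  have h4 : ∀ h : ℂ, Continuous (fun z => ((B * AA z h : ℝ) : ℂ)) := by
    intro h
    unfold AA
    fun_prop
  unfold edC
  have h5 : ∀ h : ℂ, ContinuousOn (fun z => ‖fderiv ℝ U z h - Complex.I * ((B * AA z h : ℝ) : ℂ) * U z‖ ^ 2) Ω := by
    intro h
    exact (((h3 h).sub ((continuousOn_const.mul (h4 h).continuousOn).mul h2)).norm).pow 2
  exact (h5 1).add (h5 Complex.I)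

end IEn

theorem pr_En (h1 : StDen) (h2 : StPC) (h3 : StArea) (h4 : StF2) (h5 : StVar) : StEn := by
  intro N Ω f F a φ B P k Ψ hCM hG hΨ hs hP
  obtain ⟨hU, hD⟩ := h1 N Ω f F a φ B k Ψ hCM hG hΨ
  have hF : ContinuousOn F (Metric.ball 0 1) := hCM.Fd.continuousOn
  have hball : MeasurableSet (Metric.ball (0 : ℂ) 1) := Metric.isOpen_ball.measurableSet
  have hA := (h3 N Ω f F a hCM).2
  constructor
  · have hm : AEMeasurable (fun w => ENNReal.ofReal (edC B (UT B k Ψ φ f) (F w)))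
        (volume.restrict (Metric.ball (0 : ℂ) 1)) := by
      have hc : ContinuousOn (fun w => edC B (UT B k Ψ φ f) (F w)) (Metric.ball (0 : ℂ) 1) :=
        (IEn.cont_edC hCM.opn hU).comp hF hCM.Fm
      exact (hc.aemeasurable hball).ennreal_ofReal
    rw [h2 N Ω f F a (fun z => ENNReal.ofReal (edC B (UT B k Ψ φ f) z)) hCM hm]
    have hle : ∀ r ∈ Ioo (0 : ℝ) 1, (∫⁻ θ in Ioo (0 : ℝ) (2 * Real.pi),
        ENNReal.ofReal (r * ‖deriv F (pc r θ)‖ ^ 2) * ENNReal.ofReal (edC B (UT B k Ψ φ f) (F (pc r θ))))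
        ≤ ENNReal.ofReal (Real.pi * (2 * r * (deriv (radf (k : ℤ) Ψ) r ^ 2
          + radf (k : ℤ) Ψ r ^ 2 * ((k - B * Aa (cc a) r / 2) / r) ^ 2)))
          + ENNReal.ofReal (B ^ 2 * P) * ∫⁻ θ in Ioo (0 : ℝ) (2 * Real.pi),
              ENNReal.ofReal ((bb F r θ - Aa (cc a) r / 2) ^ 2 / r) := by
      intro r hr
      obtain ⟨hb, hb0, -⟩ := h4 F a hCM.toHol r hr
      have e1 : ∀ θ : ℝ, ENNReal.ofReal (r * ‖deriv F (pc r θ)‖ ^ 2)
          * ENNReal.ofReal (edC B (UT B k Ψ φ f) (F (pc r θ)))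
          = ENNReal.ofReal (r * (deriv (radf (k : ℤ) Ψ) r ^ 2
            + radf (k : ℤ) Ψ r ^ 2 * (k - B * bb F r θ) ^ 2 / r ^ 2)) := by
        intro θ
        have h := hr.1
        rw [← ENNReal.ofReal_mul (by positivity), mul_assoc, (hD r hr θ).1]
      simp_rw [e1]
      have hc1 : Continuous (fun θ : ℝ => r * (deriv (radf (k : ℤ) Ψ) r ^ 2
            + radf (k : ℤ) Ψ r ^ 2 * (k - B * bb F r θ) ^ 2 / r ^ 2)) := by fun_prop
      have hc2 : Continuous (fun θ : ℝ => (bb F r θ - Aa (cc a) r / 2) ^ 2 / r) := by fun_prop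
      have hr0 := hr.1
      rw [IEn.lint hc1 (fun θ => by positivity), IEn.lint hc2 (fun θ => by positivity),
        IEn.ang hb (IEn.mean hb0) B k (radf (k : ℤ) Ψ r) (deriv (radf (k : ℤ) Ψ) r) r hr0,
        ENNReal.ofReal_add (by positivity) (by
          have : 0 ≤ ∫ θ in (0 : ℝ)..(2 * Real.pi), (bb F r θ - Aa (cc a) r / 2) ^ 2 / r :=
            intervalIntegral.integral_nonneg (by positivity) (fun θ _ => by positivity)
          positivity)]
      gcongr
      have hP0 := hP r ⟨hr.1.le, hr.2.le⟩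
      have hPn : 0 ≤ P := le_trans (sq_nonneg _) hP0
      rw [ENNReal.ofReal_mul (by positivity)]
      gcongr
    calc (∫⁻ r in Ioo (0 : ℝ) 1, ∫⁻ θ in Ioo (0 : ℝ) (2 * Real.pi),
        ENNReal.ofReal (r * ‖deriv F (pc r θ)‖ ^ 2) * ENNReal.ofReal (edC B (UT B k Ψ φ f) (F (pc r θ))))
        ≤ ∫⁻ r in Ioo (0 : ℝ) 1, (ENNReal.ofReal (Real.pi * (2 * r * (deriv (radf (k : ℤ) Ψ) r ^ 2
          + radf (k : ℤ) Ψ r ^ 2 * ((k - B * Aa (cc a) r / 2) / r) ^ 2)))
          + ENNReal.ofReal (B ^ 2 * P) * ∫⁻ θ in Ioo (0 : ℝ) (2 * Real.pi),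
              ENNReal.ofReal ((bb F r θ - Aa (cc a) r / 2) ^ 2 / r)) :=
          setLIntegral_mono' measurableSet_Ioo hle
      _ = (∫⁻ r in Ioo (0 : ℝ) 1, ENNReal.ofReal (Real.pi * (2 * r * (deriv (radf (k : ℤ) Ψ) r ^ 2
          + radf (k : ℤ) Ψ r ^ 2 * ((k - B * Aa (cc a) r / 2) / r) ^ 2))))
          + ENNReal.ofReal (B ^ 2 * P) * ∫⁻ r in Ioo (0 : ℝ) 1, ∫⁻ θ in Ioo (0 : ℝ) (2 * Real.pi),
              ENNReal.ofReal ((bb F r θ - Aa (cc a) r / 2) ^ 2 / r) := by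
          rw [lintegral_add_left, lintegral_const_mul' _ _ ENNReal.ofReal_ne_top]
          have m1 := IEn.meas_Aa a
          have m2 : Measurable (radf (k : ℤ) Ψ) := (IEn.cont_radf hΨ k).measurable
          have m3 : Measurable (deriv (radf (k : ℤ) Ψ)) := measurable_deriv _
          fun_prop
      _ ≤ _ := by
          gcongr
          exact h5 F a N hCM.toHol hCM.hN hCM.gap hs
  · have hm : AEMeasurable (fun w => ENNReal.ofReal (‖UT B k Ψ φ f (F w)‖ ^ 2))
        (volume.restrict (Metric.ball (0 : ℂ) 1)) := by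
      have hc : ContinuousOn (fun w => ‖UT B k Ψ φ f (F w)‖ ^ 2) (Metric.ball (0 : ℂ) 1) :=
        ((hU.continuousOn.comp hF hCM.Fm).norm).pow 2
      exact (hc.aemeasurable hball).ennreal_ofReal
    rw [h2 N Ω f F a (fun z => ENNReal.ofReal (‖UT B k Ψ φ f z‖ ^ 2)) hCM hm]
    refine setLIntegral_congr_fun measurableSet_Ioo (fun r hr => ?_)
    have e1 : ∀ θ : ℝ, ‖UT B k Ψ φ f (F (pc r θ))‖ ^ 2 = radf (k : ℤ) Ψ r ^ 2 := fun θ => (hD r hr θ).2
    simp_rw [e1]
    rw [lintegral_mul_const' _ _ ENNReal.ofReal_ne_top, (hA r hr).2,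
      ← ENNReal.ofReal_mul (mul_nonneg Real.pi_pos.le (hA r hr).1)]
    congr 1
    ring

end Pool.Agent.MFK.NF
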