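import Pool.Agent.Work.MP_8826fd_mp.NF.I_F1

/-!
# MP_8826fd_mp, block NF, item F2: Fourier coefficients of `b(r,·)`
-/

set_option autoImplicit false

namespace Pool.Agent.MFK.NF

open MeasureTheory Set Filter Topology

namespace IF2

lemma term (c e : ℂ) (n : ℕ) (hc : n = 0 → c = 0) :
    ∫ σ in (0 : ℝ)..1, c * ((σ ^ (n - 1) : ℝ) : ℂ) * e = c / (n : ℂ) * e := by
  rcases n with _ | n
  · rw [hc rfl]; simp
  · rw [intervalIntegral.integral_mul_const, intervalIntegral.integral_const_mul, intervalIntegral.integral_ofReal,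
      Nat.add_sub_cancel, integral_pow]
    push_cast
    simp
    left
    ring

lemma bn (a : ℕ → ℂ) {r : ℝ} (hr0 : 0 < r) (j : ℕ) : ‖(j : ℂ) * a j * (r : ℂ) ^ j‖ = (j : ℝ) * ‖a j‖ * r ^ j := by
  rw [norm_mul, norm_mul, norm_pow, Complex.norm_natCast, Complex.norm_real, Real.norm_eq_abs, abs_of_pos hr0]

/-- coefficient -/
noncomputable def cf (a : ℕ → ℂ) (r : ℝ) (i : ℕ × ℕ) : ℂ :=
  (starRingEnd ℂ) ((i.1 : ℂ) * a i.1 * (r : ℂ) ^ i.1) * ((i.2 : ℂ) * a i.2 * (r : ℂ) ^ i.2)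

lemma cf0 (a : ℕ → ℂ) (r : ℝ) (i : ℕ × ℕ) (hi : i.1 + i.2 = 0) : cf a r i = 0 := by
  have h1 : i.1 = 0 := by omega
  rw [cf, h1]; simp

lemma cfn (a : ℕ → ℂ) {r : ℝ} (hr0 : 0 < r) (i : ℕ × ℕ) :
    ‖cf a r i‖ = ((i.1 : ℝ) * ‖a i.1‖ * r ^ i.1) * ((i.2 : ℝ) * ‖a i.2‖ * r ^ i.2) := by
  rw [cf, norm_mul, RCLike.norm_conj, bn a hr0, bn a hr0]

lemma cfs {F : ℂ → ℂ} {a : ℕ → ℂ} (h : Hol F a) {r : ℝ} (hr0 : 0 < r) (hr1 : r < 1) :
    Summable fun i : ℕ × ℕ => ‖cf a r i‖ := by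
  have hbs : Summable fun j : ℕ => ‖(j : ℂ) * a j * (r : ℂ) ^ j‖ := by
    simp only [bn a hr0]
    exact IF1.sumA h hr0.le hr1
  have hbs' : Summable fun j : ℕ => ‖(starRingEnd ℂ) ((j : ℂ) * a j * (r : ℂ) ^ j)‖ := by
    simp only [RCLike.norm_conj]
    exact hbs
  exact Summable.mul_norm (f := fun j : ℕ => (starRingEnd ℂ) ((j : ℂ) * a j * (r : ℂ) ^ j))
    (g := fun j : ℕ => (j : ℂ) * a j * (r : ℂ) ^ j) hbs' hbs

/-- the integrand as a double series -/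
lemma ser0 {F : ℂ → ℂ} {a : ℕ → ℂ} (h : Hol F a) {r : ℝ} (hr0 : 0 < r) (hr1 : r < 1) (θ : ℝ) {σ : ℝ} (hs0 : 0 < σ) (hs1 : σ ≤ 1) :
    HasSum (fun i : ℕ × ℕ => cf a r i * ((σ ^ (i.1 + i.2 - 1) : ℝ) : ℂ) *
      Complex.exp (Complex.I * (((i.2 : ℤ) - i.1 : ℤ) : ℂ) * θ))
      ((r ^ 2 * (σ * ‖deriv F ((σ : ℂ) * pc r θ)‖ ^ 2) : ℝ) : ℂ) := by
  have hsr0 : 0 < σ * r := by positivity
  have hsr1 : σ * r < 1 := by nlinarith
  have hbs : Summable fun j : ℕ => ‖(j : ℂ) * a j * ((σ * r : ℝ) : ℂ) ^ j‖ := by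
    simp only [bn a hsr0]
    exact IF1.sumA h hsr0.le hsr1
  have hpcs : (σ : ℂ) * pc r θ = pc (σ * r) θ := by
    rw [pc, pc]; push_cast; ring
  have hn : ‖pc (σ * r) θ‖ = σ * r := by
    rw [pc, norm_mul, Complex.norm_real, Real.norm_eq_abs, abs_of_pos hsr0,
      mul_comm Complex.I, Complex.norm_exp_ofReal_mul_I, mul_one]
  have hball : pc (σ * r) θ ∈ Metric.ball (0 : ℂ) 1 := by
    rw [mem_ball_zero_iff, hn]; exact hsr1
  have hG : HasSum (fun j : ℕ => (j : ℂ) * a j * ((σ * r : ℝ) : ℂ) ^ j * Complex.exp (Complex.I * j * θ))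
      (pc (σ * r) θ * deriv F (pc (σ * r) θ)) := by
    refine (IF1.serD h hball).congr_fun fun j => ?_
    rw [pc, mul_pow, ← Complex.exp_nat_mul]
    have e : Complex.I * j * θ = j * (Complex.I * θ) := by ring
    rw [e]
    ring
  have key := (IF1.dbl0 _ _ _ θ hbs hG rfl).mul_left (((1 / σ : ℝ)) : ℂ)
  rw [hpcs]
  have e1 : ((1 / σ : ℝ) : ℂ) * ((‖pc (σ * r) θ * deriv F (pc (σ * r) θ)‖ ^ 2 : ℝ) : ℂ) =
      ((r ^ 2 * (σ * ‖deriv F (pc (σ * r) θ)‖ ^ 2) : ℝ) : ℂ) := by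
    rw [← Complex.ofReal_mul, norm_mul, hn]
    congr 1
    field_simp
  rw [e1] at key
  refine key.congr_fun fun i => ?_
  rcases Nat.eq_zero_or_pos (i.1 + i.2) with hi | hi
  · rw [cf0 a r i hi]
    have h1 : i.1 = 0 := by omega
    rw [h1]; simp
  · obtain ⟨n, hn'⟩ : ∃ n, i.1 + i.2 = n + 1 := ⟨i.1 + i.2 - 1, by omega⟩
    have hσ : (σ : ℂ) ≠ 0 := by exact_mod_cast hs0.ne'
    have e2 : ((σ : ℂ)) ^ i.1 * (σ : ℂ) ^ i.2 = (σ : ℂ) * (σ : ℂ) ^ (i.1 + i.2 - 1) := by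
      rw [← pow_add, hn', Nat.add_sub_cancel, pow_succ, mul_comm]
    rw [cf]
    simp only [map_mul, map_pow, Complex.conj_ofReal, Complex.ofReal_mul, Complex.ofReal_pow, Complex.ofReal_div,
      Complex.ofReal_one, mul_pow, map_natCast]
    have e3 : (1 / (σ : ℂ)) * (((i.1 : ℂ) * (starRingEnd ℂ) (a i.1) * ((σ : ℂ) ^ i.1 * (r : ℂ) ^ i.1)) *
        ((i.2 : ℂ) * a i.2 * ((σ : ℂ) ^ i.2 * (r : ℂ) ^ i.2)) *
        Complex.exp (Complex.I * (((i.2 : ℤ) - i.1 : ℤ) : ℂ) * θ)) =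
        (1 / (σ : ℂ)) * ((σ : ℂ) ^ i.1 * (σ : ℂ) ^ i.2) * (((i.1 : ℂ) * (starRingEnd ℂ) (a i.1) * ((r : ℂ) ^ i.1)) *
        ((i.2 : ℂ) * a i.2 * ((r : ℂ) ^ i.2)) * Complex.exp (Complex.I * (((i.2 : ℤ) - i.1 : ℤ) : ℂ) * θ)) := by
      ring
    rw [e3, e2, ← mul_assoc (1 / (σ : ℂ)), one_div, inv_mul_cancel₀ hσ, one_mul]
    ring

/-- `b(r,θ)` as a double series -/
lemma ser {F : ℂ → ℂ} {a : ℕ → ℂ} (h : Hol F a) {r : ℝ} (hr0 : 0 < r) (hr1 : r < 1) (θ : ℝ) :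
    HasSum (fun i : ℕ × ℕ => cf a r i / ((i.1 + i.2 : ℕ) : ℂ) *
      Complex.exp (Complex.I * (((i.2 : ℤ) - i.1 : ℤ) : ℂ) * θ)) ((bb F r θ : ℝ) : ℂ) := by
  have hne : ∀ (k : ℤ), ‖Complex.exp (Complex.I * (k : ℂ) * θ)‖ = 1 := by
    intro k
    have e : Complex.I * k * θ = ((k * θ : ℝ) : ℂ) * Complex.I := by
      push_cast
      ring
    rw [e, Complex.norm_exp_ofReal_mul_I]
  have key := intervalIntegral.hasSum_integral_of_dominated_convergence (μ := volume) (a := (0 : ℝ)) (b := 1)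
    (F := fun (i : ℕ × ℕ) (σ : ℝ) => cf a r i * ((σ ^ (i.1 + i.2 - 1) : ℝ) : ℂ) *
      Complex.exp (Complex.I * (((i.2 : ℤ) - i.1 : ℤ) : ℂ) * θ))
    (f := fun σ : ℝ => ((r ^ 2 * (σ * ‖deriv F ((σ : ℂ) * pc r θ)‖ ^ 2) : ℝ) : ℂ)) (fun i _ => ‖cf a r i‖)
    (fun i => (by fun_prop : Continuous fun σ : ℝ => cf a r i * ((σ ^ (i.1 + i.2 - 1) : ℝ) : ℂ) *
      Complex.exp (Complex.I * (((i.2 : ℤ) - i.1 : ℤ) : ℂ) * θ)).aestronglyMeasurable)
    (fun i => Eventually.of_forall fun σ hσ => by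
      rw [uIoc_of_le zero_le_one] at hσ
      rw [norm_mul, norm_mul, hne, mul_one, Complex.norm_real, Real.norm_eq_abs, abs_of_nonneg (pow_nonneg hσ.1.le _)]
      exact mul_le_of_le_one_right (norm_nonneg _) (pow_le_one₀ hσ.1.le hσ.2))
    (Eventually.of_forall fun σ _ => cfs h hr0 hr1)
    intervalIntegrable_const
    (Eventually.of_forall fun σ hσ => by
      rw [uIoc_of_le zero_le_one] at hσ
      exact ser0 h hr0 hr1 θ hσ.1 hσ.2)
  simp only [term _ _ _ (fun hi => cf0 a r _ hi)] at key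
  rw [intervalIntegral.integral_ofReal, intervalIntegral.integral_const_mul] at key
  exact key

end IF2

open IF2 in
theorem pr_F2 (h1 : StF1) : StF2 := by
  intro F a h r hr
  have hr0 : 0 < r := hr.1
  have hr1 : r < 1 := hr.2
  obtain ⟨c, hcdef⟩ : ∃ c : ℕ × ℕ → ℂ, ∀ i, c i = cf a r i / ((i.1 + i.2 : ℕ) : ℂ) := ⟨_, fun i => rfl⟩
  have hcn : ∀ i : ℕ × ℕ, ‖c i‖ ≤ ‖cf a r i‖ := by
    intro i
    rw [hcdef, norm_div, Complex.norm_natCast]
    rcases Nat.eq_zero_or_pos (i.1 + i.2) with hi | hi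
    · rw [cf0 a r i hi]; simp
    · exact div_le_self (norm_nonneg _) (by exact_mod_cast hi)
  have hcs : Summable fun i : ℕ × ℕ => ‖c i‖ :=
    Summable.of_nonneg_of_le (fun i => norm_nonneg _) hcn (cfs h hr0 hr1)
  have hser : ∀ θ : ℝ, HasSum (fun i : ℕ × ℕ => c i * Complex.exp (Complex.I * (((i.2 : ℤ) - i.1 : ℤ) : ℂ) * θ))
      ((bb F r θ : ℝ) : ℂ) := by
    intro θ
    simp only [hcdef]
    exact ser h hr0 hr1 θ
  have hne : ∀ (k : ℤ) (θ : ℝ), ‖Complex.exp (Complex.I * (k : ℂ) * θ)‖ = 1 := by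
    intro k θ
    have e : Complex.I * k * θ = ((k * θ : ℝ) : ℂ) * Complex.I := by
      push_cast
      ring
    rw [e, Complex.norm_exp_ofReal_mul_I]
  have key : ∀ n : ℤ, HasSum (fun i : ℕ × ℕ => if (i.2 : ℤ) - i.1 = n then c i else 0)
      (fc (fun θ => ((bb F r θ : ℝ) : ℂ)) n) := fun n =>
    IF1.fcSum c (fun i => (i.2 : ℤ) - i.1) (fun θ => ((bb F r θ : ℝ) : ℂ)) hcs hser n
  refine ⟨?_, ?_, fun n => ?_⟩
  · have h2 : Continuous fun θ : ℝ => ∑' i : ℕ × ℕ, c i * Complex.exp (Complex.I * (((i.2 : ℤ) - i.1 : ℤ) : ℂ) * θ) := by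
      refine continuous_tsum (fun i => by fun_prop) hcs fun i θ => ?_
      rw [norm_mul, hne, mul_one]
    have h3 := Complex.continuous_re.comp h2
    refine h3.congr fun θ => ?_
    show (∑' i : ℕ × ℕ, c i * Complex.exp (Complex.I * (((i.2 : ℤ) - i.1 : ℤ) : ℂ) * θ)).re = bb F r θ
    rw [(hser θ).tsum_eq, Complex.ofReal_re]
  · have hzero := IF1.red c 0 _ (key 0) (fun k => (k, k)) (fun k l hkl => (Prod.ext_iff.1 hkl).1) (fun x => by
      constructor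
      · intro hx
        refine ⟨x.1, Prod.ext rfl ?_⟩
        show x.1 = x.2
        omega
      · rintro ⟨k, rfl⟩
        show (k : ℤ) - k = 0
        omega)
    have hz2 : ∀ k : ℕ, c (k, k) = ((cc a k * r ^ (2 * k) / 2 : ℝ) : ℂ) := by
      intro k
      rw [hcdef, cf, Complex.conj_mul', bn a hr0, cc]
      rcases Nat.eq_zero_or_pos k with hk | hk
      · rw [hk]; simp
      · have hk' : (k : ℂ) ≠ 0 := by exact_mod_cast hk.ne'
        push_cast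
        field_simp
        ring
    have h3 : HasSum (fun k : ℕ => ((cc a k * r ^ (2 * k) / 2 : ℝ) : ℂ)) (fc (fun θ => ((bb F r θ : ℝ) : ℂ)) 0) :=
      hzero.congr_fun fun k => (hz2 k).symm
    rw [← h3.tsum_eq, ← Complex.ofReal_tsum, tsum_div_const]
    rfl
  · obtain ⟨φ, g1, g2, g3⟩ := IF1.diag n
    have hsF := ((h1 F a h r hr).2.2 n).1
    have hnn : ∀ k, 0 ≤ kap (fun j => ‖a j‖) n.natAbs k * r ^ (2 * k + n.natAbs) := by
      intro k; rw [kap]; positivity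
    have hs : Summable fun k : ℕ => kap (fun j => ‖a j‖) n.natAbs k * r ^ (2 * k + n.natAbs) := by
      refine Summable.of_nonneg_of_le hnn (fun k => ?_) hsF
      rcases Nat.eq_zero_or_pos (k + n.natAbs) with hk | hk
      · have hk0 : k = 0 := by omega
        rw [hk0, kap]; simp
      · have h5 : (1 : ℝ) ≤ ((k + n.natAbs : ℕ) : ℝ) := by exact_mod_cast hk
        rw [mul_assoc]
        exact le_mul_of_one_le_left (hnn k) h5
    refine ⟨hs, ?_⟩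
    have h4 : ∀ k, ‖c (φ k)‖ ≤ kap (fun j => ‖a j‖) n.natAbs k * r ^ (2 * k + n.natAbs) := by
      intro k
      rw [hcdef, norm_div, Complex.norm_natCast, cfn a hr0]
      have e1 : ((φ k).1 + (φ k).2 : ℕ) = 2 * k + n.natAbs := by
        rcases g3 with g3 | g3
        · rw [g3]; show k + (k + n.natAbs) = _; omega
        · rw [g3]; show (k + n.natAbs) + k = _; omega
      have e2 : ((((φ k).1 : ℕ) : ℝ) * ‖a (φ k).1‖ * r ^ (φ k).1) * ((((φ k).2 : ℕ) : ℝ) * ‖a (φ k).2‖ * r ^ (φ k).2) =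
          ((k + n.natAbs : ℕ) : ℝ) * (kap (fun j => ‖a j‖) n.natAbs k * r ^ (2 * k + n.natAbs)) := by
        rw [kap]
        rcases g3 with g3 | g3
        · rw [g3]
          show ((k : ℝ) * ‖a k‖ * r ^ k) * (((k + n.natAbs : ℕ) : ℝ) * ‖a (k + n.natAbs)‖ * r ^ (k + n.natAbs)) = _
          ring
        · rw [g3]
          show (((k + n.natAbs : ℕ) : ℝ) * ‖a (k + n.natAbs)‖ * r ^ (k + n.natAbs)) * ((k : ℝ) * ‖a k‖ * r ^ k) = _
          ring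
      rw [e1, e2]
      rcases Nat.eq_zero_or_pos (2 * k + n.natAbs) with hk | hk
      · rw [hk]; simp only [Nat.cast_zero, div_zero]; exact hk ▸ hnn k
      · have hk' : (0 : ℝ) < ((2 * k + n.natAbs : ℕ) : ℝ) := by exact_mod_cast hk
        rw [div_le_iff₀ hk', mul_comm]
        exact mul_le_mul_of_nonneg_left (by exact_mod_cast (by omega : k + n.natAbs ≤ 2 * k + n.natAbs)) (hnn k)
    have hsn : Summable fun k => ‖c (φ k)‖ := hcs.comp_injective g1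
    rw [← (IF1.red c n _ (key n) φ g1 g2).tsum_eq]
    exact (norm_tsum_le_tsum_norm hsn).trans (hsn.tsum_le_tsum h4 hs)

end Pool.Agent.MFK.NF
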