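import Pool.Agent.Work.MP_8826fd_mp.NF.Gk

/-!
# MP_8826fd_mp, block NF, item Gau: existence of the gauge function
-/

set_option autoImplicit false

namespace Pool.Agent.MFK.NF

open MeasureTheory Set Filter Topology

namespace IGau

/-- the real linear form `h ↦ Im (c h)` -/
noncomputable def Lf : ℂ →L[ℝ] ℂ →L[ℝ] ℝ :=
  (ContinuousLinearMap.compL ℝ ℂ ℂ ℝ Complex.imCLM).comp (ContinuousLinearMap.mul ℝ ℂ)

theorem Lf_apply (c h : ℂ) : Lf c h = (c * h).im := rfl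

/-- the complex number representing the derivative of `‖F'‖²` -/
noncomputable def cF (F : ℂ → ℂ) (z : ℂ) : ℂ :=
  2 * Complex.I * (starRingEnd ℂ) (deriv F z) * deriv (deriv F) z

variable {F : ℂ → ℂ}

theorem seg_mem {w : ℂ} {ρ : ℝ} (hw : ‖w‖ < ρ) {σ : ℝ} (h0 : 0 ≤ σ) (h1 : σ ≤ 1) :
    ‖(σ : ℂ) * w‖ < ρ := by
  rw [norm_mul, Complex.norm_real, Real.norm_eq_abs, abs_of_nonneg h0]
  have h2 : σ * ‖w‖ ≤ 1 * ‖w‖ := mul_le_mul_of_nonneg_right h1 (norm_nonneg w)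
  linarith

theorem seg_ball {w : ℂ} (hw : w ∈ Metric.ball (0 : ℂ) 1) {σ : ℝ} (h0 : 0 ≤ σ) (h1 : σ ≤ 1) :
    (σ : ℂ) * w ∈ Metric.ball (0 : ℂ) 1 := by
  rw [mem_ball_zero_iff] at hw ⊢
  exact seg_mem hw h0 h1

theorem seg_cont (w : ℂ) : Continuous (fun σ : ℝ => (σ : ℂ) * w) := by fun_prop

theorem d1 (hF : DifferentiableOn ℂ F (Metric.ball 0 1)) :
    DifferentiableOn ℂ (deriv F) (Metric.ball 0 1) := hF.deriv Metric.isOpen_ball

theorem d2 (hF : DifferentiableOn ℂ F (Metric.ball 0 1)) :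
    DifferentiableOn ℂ (deriv (deriv F)) (Metric.ball 0 1) := (d1 hF).deriv Metric.isOpen_ball

theorem cF_cont (hF : DifferentiableOn ℂ F (Metric.ball 0 1)) :
    ContinuousOn (cF F) (Metric.ball 0 1) := by
  unfold cF
  exact (continuousOn_const.mul (Complex.continuous_conj.comp_continuousOn
    (d1 hF).continuousOn)).mul (d2 hF).continuousOn

/-- complex derivative as a real one -/
theorem real_fd {f : ℂ → ℂ} (hf : DifferentiableOn ℂ f (Metric.ball 0 1)) {z : ℂ}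
    (hz : z ∈ Metric.ball (0 : ℂ) 1) :
    HasFDerivAt f (ContinuousLinearMap.mul ℝ ℂ (deriv f z)) z := by
  have h := (hf.differentiableAt (Metric.isOpen_ball.mem_nhds hz)).hasDerivAt.hasFDerivAt
  have h2 := h.restrictScalars ℝ
  refine h2.congr_fderiv ?_
  refine ContinuousLinearMap.ext fun v => ?_
  simp [mul_comm]

theorem hG (hF : DifferentiableOn ℂ F (Metric.ball 0 1)) {z : ℂ}
    (hz : z ∈ Metric.ball (0 : ℂ) 1) :
    HasFDerivAt (fun z => ‖deriv F z‖ ^ 2) (Lf (cF F z)) z := by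
  have h := (real_fd (d1 hF) hz).norm_sq
  refine h.congr_fderiv ?_
  refine ContinuousLinearMap.ext fun v => ?_
  rw [Lf_apply]
  unfold cF
  simp only [smul_apply, ContinuousLinearMap.comp_apply, innerSL_apply_apply,
    ContinuousLinearMap.mul_apply', Complex.inner, nsmul_eq_mul]
  simp only [Complex.mul_re, Complex.mul_im, Complex.conj_re, Complex.conj_im, Complex.I_re,
    Complex.I_im, Complex.re_ofNat, Complex.im_ofNat]
  push_cast
  ring

theorem hGs (hF : DifferentiableOn ℂ F (Metric.ball 0 1)) {w : ℂ}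
    (hw : w ∈ Metric.ball (0 : ℂ) 1) {σ : ℝ} (h0 : 0 ≤ σ) (h1 : σ ≤ 1) :
    HasFDerivAt (fun w => σ * ‖deriv F ((σ : ℂ) * w)‖ ^ 2)
      (Lf ((σ : ℂ) ^ 2 * cF F ((σ : ℂ) * w))) w := by
  have e1 : HasFDerivAt (fun w : ℂ => (σ : ℂ) * w) (ContinuousLinearMap.mul ℝ ℂ (σ : ℂ)) w :=
    (ContinuousLinearMap.mul ℝ ℂ (σ : ℂ)).hasFDerivAt
  have e2 := ((hG hF (seg_ball hw h0 h1)).comp w e1).const_mul σ
  refine e2.congr_fderiv ?_
  refine ContinuousLinearMap.ext fun v => ?_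
  simp only [smul_apply, ContinuousLinearMap.comp_apply, Lf_apply,
    ContinuousLinearMap.mul_apply', smul_eq_mul]
  have e3 : (σ : ℂ) ^ 2 * cF F ((σ : ℂ) * w) * v
      = (σ : ℂ) * (cF F ((σ : ℂ) * w) * ((σ : ℂ) * v)) := by ring
  rw [e3, Complex.im_ofReal_mul]

theorem meas_F (hF : DifferentiableOn ℂ F (Metric.ball 0 1)) {w : ℂ}
    (hw : w ∈ Metric.ball (0 : ℂ) 1) :
    ContinuousOn (fun σ : ℝ => σ * ‖deriv F ((σ : ℂ) * w)‖ ^ 2) (Icc 0 1) := by
  have h1 : ContinuousOn (fun σ : ℝ => deriv F ((σ : ℂ) * w)) (Icc 0 1) :=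
    (d1 hF).continuousOn.comp (seg_cont w).continuousOn fun σ hσ => seg_ball hw hσ.1 hσ.2
  exact continuousOn_id.mul (h1.norm.pow 2)

theorem meas_c (hF : DifferentiableOn ℂ F (Metric.ball 0 1)) {w : ℂ}
    (hw : w ∈ Metric.ball (0 : ℂ) 1) :
    ContinuousOn (fun σ : ℝ => (σ : ℂ) ^ 2 * cF F ((σ : ℂ) * w)) (Icc 0 1) := by
  have h1 : ContinuousOn (fun σ : ℝ => cF F ((σ : ℂ) * w)) (Icc 0 1) :=
    (cF_cont hF).comp (seg_cont w).continuousOn fun σ hσ => seg_ball hw hσ.1 hσ.2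
  exact (by fun_prop : Continuous (fun σ : ℝ => (σ : ℂ) ^ 2)).continuousOn.mul h1

/-- the number representing the derivative of `gg` -/
noncomputable def CC (F : ℂ → ℂ) (w : ℂ) : ℂ :=
  ∫ σ in (0 : ℝ)..1, (σ : ℂ) ^ 2 * cF F ((σ : ℂ) * w)

theorem int_c (hF : DifferentiableOn ℂ F (Metric.ball 0 1)) {w : ℂ}
    (hw : w ∈ Metric.ball (0 : ℂ) 1) :
    IntervalIntegrable (fun σ : ℝ => (σ : ℂ) ^ 2 * cF F ((σ : ℂ) * w)) volume 0 1 := by
  have h := meas_c hF hw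
  rw [← uIcc_of_le (zero_le_one (α := ℝ))] at h
  exact h.intervalIntegrable

theorem int_F (hF : DifferentiableOn ℂ F (Metric.ball 0 1)) {w : ℂ}
    (hw : w ∈ Metric.ball (0 : ℂ) 1) :
    IntervalIntegrable (fun σ : ℝ => σ * ‖deriv F ((σ : ℂ) * w)‖ ^ 2) volume 0 1 := by
  have h := meas_F hF hw
  rw [← uIcc_of_le (zero_le_one (α := ℝ))] at h
  exact h.intervalIntegrable

theorem hgg (hF : DifferentiableOn ℂ F (Metric.ball 0 1)) {w : ℂ}
    (hw : w ∈ Metric.ball (0 : ℂ) 1) : HasFDerivAt (gg F) (Lf (CC F w)) w := by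
  have hw1 : ‖w‖ < 1 := by rwa [mem_ball_zero_iff] at hw
  obtain ⟨ρ, hρ⟩ : ∃ ρ : ℝ, ρ = (1 + ‖w‖) / 2 := ⟨_, rfl⟩
  have hρ1 : ρ < 1 := by rw [hρ]; linarith
  have hsub : Metric.closedBall (0 : ℂ) ρ ⊆ Metric.ball 0 1 :=
    Metric.closedBall_subset_ball hρ1
  obtain ⟨C, hC⟩ := (isCompact_closedBall (0 : ℂ) ρ).exists_bound_of_continuousOn
    ((cF_cont hF).mono hsub)
  have hs : Metric.ball (0 : ℂ) ρ ∈ 𝓝 w :=
    Metric.isOpen_ball.mem_nhds (by rw [mem_ball_zero_iff, hρ]; linarith)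
  have key := intervalIntegral.hasFDerivAt_integral_of_dominated_of_fderiv_le (𝕜 := ℝ)
    (μ := volume) (a := 0) (b := 1) (s := Metric.ball (0 : ℂ) ρ)
    (F := fun (w : ℂ) (σ : ℝ) => σ * ‖deriv F ((σ : ℂ) * w)‖ ^ 2)
    (F' := fun (w : ℂ) (σ : ℝ) => Lf ((σ : ℂ) ^ 2 * cF F ((σ : ℂ) * w)))
    (bound := fun _ => ‖Lf‖ * C) (x₀ := w) hs ?_ (int_F hF hw) ?_ ?_ ?_ ?_
  · have e := Lf.intervalIntegral_comp_comm (int_c hF hw)
    rw [e] at key
    exact key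
  · filter_upwards [Metric.isOpen_ball.mem_nhds hw] with x hx
    rw [uIoc_of_le zero_le_one]
    exact ((meas_F hF hx).mono Ioc_subset_Icc_self).aestronglyMeasurable measurableSet_Ioc
  · rw [uIoc_of_le zero_le_one]
    exact Lf.continuous.comp_aestronglyMeasurable
      (((meas_c hF hw).mono Ioc_subset_Icc_self).aestronglyMeasurable measurableSet_Ioc)
  · refine Filter.Eventually.of_forall fun σ hσ x hx => ?_
    rw [uIoc_of_le zero_le_one] at hσ
    rw [mem_ball_zero_iff] at hx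
    have h1 : ‖cF F ((σ : ℂ) * x)‖ ≤ C := hC _ (by
      rw [mem_closedBall_zero_iff]
      exact (seg_mem hx hσ.1.le hσ.2).le)
    have h2 : ‖(σ : ℂ) ^ 2 * cF F ((σ : ℂ) * x)‖ ≤ C := by
      rw [norm_mul, norm_pow, Complex.norm_real, Real.norm_eq_abs, abs_of_nonneg hσ.1.le]
      have h3 : σ ^ 2 ≤ 1 := pow_le_one₀ hσ.1.le hσ.2
      calc σ ^ 2 * ‖cF F ((σ : ℂ) * x)‖ ≤ 1 * ‖cF F ((σ : ℂ) * x)‖ :=
            mul_le_mul_of_nonneg_right h3 (norm_nonneg _)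
        _ ≤ C := by rw [one_mul]; exact h1
    exact (Lf.le_opNorm _).trans (mul_le_mul_of_nonneg_left h2 (norm_nonneg _))
  · exact intervalIntegrable_const
  · refine Filter.Eventually.of_forall fun σ hσ x hx => ?_
    rw [uIoc_of_le zero_le_one] at hσ
    exact hGs hF (Metric.ball_subset_ball hρ1.le hx) hσ.1.le hσ.2

/-- `Dg(w)(w) = G(w) - 2 g(w)` -/
theorem CC_w (hF : DifferentiableOn ℂ F (Metric.ball 0 1)) {w : ℂ}
    (hw : w ∈ Metric.ball (0 : ℂ) 1) :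
    (CC F w * w).im = ‖deriv F w‖ ^ 2 - 2 * gg F w := by
  have h1 : ∀ σ ∈ uIcc (0 : ℝ) 1, HasDerivAt (fun σ : ℝ => σ ^ 2 * ‖deriv F ((σ : ℂ) * w)‖ ^ 2)
      (2 * (σ * ‖deriv F ((σ : ℂ) * w)‖ ^ 2)
        + Lf.flip w ((σ : ℂ) ^ 2 * cF F ((σ : ℂ) * w))) σ := by
    intro σ hσ
    rw [uIcc_of_le zero_le_one] at hσ
    have a1 : HasDerivAt (fun σ : ℝ => (σ : ℂ) * w) w σ := by
      have := (Complex.ofRealCLM.hasDerivAt (x := σ)).mul_const w
      simpa using this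
    have a2 := (hG hF (seg_ball hw hσ.1 hσ.2)).comp_hasDerivAt σ a1
    have a3 := (hasDerivAt_pow 2 σ).mul a2
    refine a3.congr_deriv ?_
    rw [ContinuousLinearMap.flip_apply, Lf_apply, Lf_apply]
    have e : (σ : ℂ) ^ 2 * cF F ((σ : ℂ) * w) * w = ((σ ^ 2 : ℝ) : ℂ) * (cF F ((σ : ℂ) * w) * w) := by
      push_cast
      ring
    rw [e, Complex.im_ofReal_mul]
    simp only [Function.comp_apply]
    push_cast
    ring
  have i1 : IntervalIntegrable (fun σ : ℝ => 2 * (σ * ‖deriv F ((σ : ℂ) * w)‖ ^ 2)) volume 0 1 :=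
    (int_F hF hw).const_mul 2
  have i2 : IntervalIntegrable (fun σ : ℝ => Lf.flip w ((σ : ℂ) ^ 2 * cF F ((σ : ℂ) * w)))
      volume 0 1 := by
    have h := (Lf.flip w).continuous.comp_continuousOn (meas_c hF hw)
    rw [← uIcc_of_le (zero_le_one (α := ℝ))] at h
    exact h.intervalIntegrable
  have h2 := intervalIntegral.integral_eq_sub_of_hasDerivAt h1 (i1.add i2)
  rw [intervalIntegral.integral_add i1 i2, intervalIntegral.integral_const_mul,
    (Lf.flip w).intervalIntegral_comp_comm (int_c hF hw)] at h2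
  have h3 : Lf.flip w (∫ σ in (0 : ℝ)..1, (σ : ℂ) ^ 2 * cF F ((σ : ℂ) * w)) = (CC F w * w).im := rfl
  have h4 : (∫ σ in (0 : ℝ)..1, σ * ‖deriv F ((σ : ℂ) * w)‖ ^ 2) = gg F w := rfl
  rw [h3, h4] at h2
  simp only [Complex.ofReal_one, one_mul, one_pow] at h2
  linarith [h2]

/-- the form -/
noncomputable def om (F : ℂ → ℂ) (w : ℂ) : ℂ →L[ℝ] ℝ :=
  (1 / 2 : ℝ) • Lf ((starRingEnd ℂ) (F w) * deriv F w) - gg F w • Lf ((starRingEnd ℂ) w)

theorem om_apply (w h : ℂ) : om F w h = AA (F w) (deriv F w * h)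
    - gg F w * ((starRingEnd ℂ) w * h).im := by
  unfold om AA
  rw [sub_apply, smul_apply, smul_apply, Lf_apply, Lf_apply, smul_eq_mul, smul_eq_mul, mul_assoc]
  ring

theorem om_fd (hF : DifferentiableOn ℂ F (Metric.ball 0 1)) {w : ℂ}
    (hw : w ∈ Metric.ball (0 : ℂ) 1) :
    ∃ D : ℂ →L[ℝ] ℂ →L[ℝ] ℝ, HasFDerivAt (om F) D w ∧ ∀ a b : ℂ, D a b =
      (((starRingEnd ℂ) (F w) * (deriv (deriv F) w * a)
        + deriv F w * (starRingEnd ℂ) (deriv F w * a)) * b).im / 2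
      - (gg F w * ((starRingEnd ℂ) a * b).im + (CC F w * a).im * ((starRingEnd ℂ) w * b).im) := by
  have c1 : HasFDerivAt (fun z => (starRingEnd ℂ) (F z))
      ((Complex.conjCLE : ℂ →L[ℝ] ℂ).comp (ContinuousLinearMap.mul ℝ ℂ (deriv F w))) w :=
    (Complex.conjCLE : ℂ →L[ℝ] ℂ).hasFDerivAt.comp w (real_fd hF hw)
  have c2 := c1.mul (real_fd (d1 hF) hw)
  have c3 := (Lf.hasFDerivAt.comp w c2).const_smul (1 / 2 : ℝ)
  have c4 : HasFDerivAt (fun z => (starRingEnd ℂ) z) (Complex.conjCLE : ℂ →L[ℝ] ℂ) w :=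
    (Complex.conjCLE : ℂ →L[ℝ] ℂ).hasFDerivAt
  have c5 := (hgg hF hw).smul (Lf.hasFDerivAt.comp w c4)
  refine ⟨_, c3.sub c5, fun a b => ?_⟩
  simp only [sub_apply, smul_apply, add_apply, ContinuousLinearMap.comp_apply,
    ContinuousLinearMap.smulRight_apply, ContinuousLinearMap.mul_apply', Lf_apply,
    ContinuousLinearEquiv.coe_coe, Complex.conjCLE_apply, smul_eq_mul, Function.comp_apply]
  ring

theorem om_symm (hF : DifferentiableOn ℂ F (Metric.ball 0 1)) {w : ℂ}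
    (hw : w ∈ Metric.ball (0 : ℂ) 1) (a b : ℂ) :
    fderiv ℝ (om F) w a b = fderiv ℝ (om F) w b a := by
  obtain ⟨D, hD, hf⟩ := om_fd hF hw
  rw [hD.fderiv, hf a b, hf b a]
  have h := CC_w hF hw
  have h2 : ‖deriv F w‖ ^ 2 = (deriv F w).re * (deriv F w).re + (deriv F w).im * (deriv F w).im := by
    rw [← Complex.normSq_eq_norm_sq, Complex.normSq_apply]
  rw [h2] at h
  generalize gg F w = g at h ⊢
  generalize CC F w = c at h ⊢
  generalize deriv (deriv F) w = e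
  generalize deriv F w = d at h ⊢
  generalize F w = f
  simp only [Complex.mul_re, Complex.mul_im, Complex.conj_re, Complex.conj_im,
    Complex.add_re, Complex.add_im] at h ⊢
  linear_combination (-(a.re * b.im - a.im * b.re)) * h

end IGau

open IGau in
theorem pr_Gau : StGau := by
  intro F hF
  have hdiff : DifferentiableOn ℝ (om F) (Metric.ball 0 1) := by
    intro w hw
    obtain ⟨D, hD, _⟩ := om_fd hF hw
    exact hD.differentiableAt.differentiableWithinAt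
  obtain ⟨φ, hφ⟩ := (convex_ball (0 : ℂ) 1).exists_forall_hasFDerivAt_of_fderiv_symmetric
    Metric.isOpen_ball hdiff (fun w hw a b => om_symm hF hw a b)
  refine ⟨φ, ?_, fun w hw h => ?_⟩
  · have h1 : ContinuousOn (fderiv ℝ φ) (Metric.ball 0 1) :=
      hdiff.continuousOn.congr fun w hw => (hφ w hw).fderiv
    have h2 := (contDiffOn_succ_iff_fderiv_of_isOpen (𝕜 := ℝ) (n := 0) (f := φ)
      (Metric.isOpen_ball (x := (0 : ℂ)) (ε := 1))).2
      ⟨fun w hw => (hφ w hw).differentiableAt.differentiableWithinAt,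
        fun h => absurd h (by simp), contDiffOn_zero.2 h1⟩
    rw [zero_add] at h2
    exact h2
  · rw [(hφ w hw).fderiv, om_apply]

end Pool.Agent.MFK.NF
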