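import Pool.Agent.Work.MP_8826fd_mp.NF.Gk

/-!
# MP_8826fd_mp, block NF, item Var: the variance of `b`
-/

set_option autoImplicit false

namespace Pool.Agent.MFK.NF

open MeasureTheory Set Filter Topology

namespace IVar

lemma kap_nonneg {x : ℕ → ℝ} (hx : ∀ j, 0 ≤ x j) (n k : ℕ) : 0 ≤ kap x n k := by
  unfold kap
  exact mul_nonneg (mul_nonneg (Nat.cast_nonneg k) (hx k)) (hx _)

/-- the integral of a power -/
lemma lint_pow (C : ℝ) (hC : 0 ≤ C) (p : ℕ) :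
    (∫⁻ r in Ioo (0 : ℝ) 1, ENNReal.ofReal (C * r ^ p)) = ENNReal.ofReal (C / (p + 1)) := by
  have hi : Integrable (fun r : ℝ => C * r ^ p) (volume.restrict (Ioo (0 : ℝ) 1)) :=
    ((continuous_const.mul (continuous_id.pow p)).integrableOn_Icc (a := (0 : ℝ)) (b := 1)).mono_set
      Ioo_subset_Icc_self
  have hn : 0 ≤ᵐ[volume.restrict (Ioo (0 : ℝ) 1)] fun r : ℝ => C * r ^ p := by
    refine (ae_restrict_iff' measurableSet_Ioo).2 (Eventually.of_forall fun r hr => ?_)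
    exact mul_nonneg hC (pow_nonneg hr.1.le p)
  rw [← ofReal_integral_eq_lintegral_ofReal hi hn]
  congr 1
  rw [← integral_Ioc_eq_integral_Ioo, ← intervalIntegral.integral_of_le zero_le_one,
    intervalIntegral.integral_const_mul, integral_pow]
  simp
  ring

/-- sum over `ℤ` of a function bounded by an even function that vanishes at `0` -/
lemma int_sum (f : ℤ → ENNReal) (g : ℕ → ENNReal) (h0 : f 0 = 0)
    (h : ∀ n : ℤ, n ≠ 0 → f n ≤ g n.natAbs) :
    (∑' n : ℤ, f n) ≤ 2 * ∑' n : ℕ, g (n + 1) := by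
  have h1 : HasSum (fun n : ℕ => f n) (∑' n : ℕ, f n) := ENNReal.summable.hasSum
  have h2 : HasSum (fun n : ℕ => f (-(n + 1))) (∑' n : ℕ, f (-(n + 1))) := ENNReal.summable.hasSum
  rw [(h1.of_nat_of_neg_add_one h2).tsum_eq]
  have e1 : (∑' n : ℕ, f n) ≤ ∑' n : ℕ, g (n + 1) := by
    rw [tsum_eq_zero_add' ENNReal.summable]
    have : f ((0 : ℕ) : ℤ) = 0 := by simpa using h0
    rw [this, zero_add]
    refine ENNReal.tsum_le_tsum fun n => ?_
    have h4 := h ((n + 1 : ℕ) : ℤ) (by positivity)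
    rw [Int.natAbs_natCast] at h4
    exact h4
  have e2 : (∑' n : ℕ, f (-(n + 1))) ≤ ∑' n : ℕ, g (n + 1) := by
    refine ENNReal.tsum_le_tsum fun n => ?_
    have h3 := h (-((n + 1 : ℕ) : ℤ)) (by
      simp only [ne_eq, neg_eq_zero]
      positivity)
    have e : (-((n + 1 : ℕ) : ℤ)).natAbs = n + 1 := by
      rw [Int.natAbs_neg, Int.natAbs_natCast]
    rw [e] at h3
    have e' : (-((n : ℤ) + 1)) = (-((n + 1 : ℕ) : ℤ)) := by push_cast; ring
    rw [e']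
    exact h3
  calc (∑' n : ℕ, f n) + ∑' n : ℕ, f (-(n + 1))
      ≤ (∑' n : ℕ, g (n + 1)) + ∑' n : ℕ, g (n + 1) := add_le_add e1 e2
    _ = 2 * ∑' n : ℕ, g (n + 1) := by rw [two_mul]

lemma fc_const0 (c : ℂ) : fc (fun _ => c) 0 = c := by
  have hp : (Real.pi : ℂ) ≠ 0 := Complex.ofReal_ne_zero.2 Real.pi_ne_zero
  rw [fc]
  simp
  field_simp

/-- square of a series in `ENNReal` -/
lemma sq_sum (t : ℕ → ℝ) (ht : ∀ k, 0 ≤ t k) (hs : Summable t) (c : ℝ) (hc : 0 ≤ c) :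
    ENNReal.ofReal (c * (∑' k, t k) ^ 2) = ∑' k : ℕ, ∑' l : ℕ, ENNReal.ofReal (c * (t k * t l)) := by
  rw [ENNReal.ofReal_mul hc, ENNReal.ofReal_pow (tsum_nonneg ht), ENNReal.ofReal_tsum_of_nonneg ht hs, sq,
    ← ENNReal.tsum_mul_right, ← ENNReal.tsum_mul_left]
  refine tsum_congr fun k => ?_
  rw [← ENNReal.tsum_mul_left, ← ENNReal.tsum_mul_left]
  refine tsum_congr fun l => ?_
  rw [ENNReal.ofReal_mul hc, ENNReal.ofReal_mul (ht k)]

/-- the integral over the circle -/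
lemma circle (h1 : StF2) (F : ℂ → ℂ) (a : ℕ → ℂ) (hF : Hol F a) (r : ℝ) (hr : r ∈ Ioo (0 : ℝ) 1) :
    (∫⁻ θ in Ioo (0 : ℝ) (2 * Real.pi), ENNReal.ofReal ((bb F r θ - Aa (cc a) r / 2) ^ 2 / r))
      ≤ ∑' n : ℕ, ∑' k : ℕ, ∑' l : ℕ, ENNReal.ofReal
        (4 * Real.pi * (kap (fun j => ‖a j‖) (n + 1) k * kap (fun j => ‖a j‖) (n + 1) l)
          * r ^ (2 * (k + l + n) + 1)) := by
  obtain ⟨hc, h0, hn⟩ := h1 F a hF r hr
  have hr0 : 0 < r := hr.1
  set A : ℝ := Aa (cc a) r / 2 with hA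
  set v : ℝ → ℂ := fun θ => ((bb F r θ - A : ℝ) : ℂ) with hv
  have hbc : Continuous (fun θ => ((bb F r θ : ℝ) : ℂ)) := Complex.continuous_ofReal.comp hc
  have hvc : Continuous v := by
    rw [hv]
    exact Complex.continuous_ofReal.comp (hc.sub continuous_const)
  have hveq : (fun θ => ((bb F r θ : ℝ) : ℂ) - ((A : ℝ) : ℂ)) = v := by
    rw [hv]
    funext θ
    push_cast
    ring
  have hfc : ∀ n : ℤ, fc (fun θ => ((bb F r θ : ℝ) : ℂ)) n = fc v n + fc (fun _ => ((A : ℝ) : ℂ)) n := by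
    intro n
    rw [L3.fc_sub hbc n ((A : ℝ) : ℂ), hveq]
  have hv0 : fc v 0 = 0 := by
    have := hfc 0
    rw [h0, fc_const0] at this
    exact (left_eq_add.1 (by rw [add_comm] at this; exact this))
  have hvn : ∀ n : ℤ, n ≠ 0 → fc v n = fc (fun θ => ((bb F r θ : ℝ) : ℂ)) n := by
    intro n hn0
    rw [hfc n, L3.fc_const hn0, add_zero]
  have hP := L1.hs v hvc
  -- the left side
  have hcont2 : Continuous (fun θ => (bb F r θ - A) ^ 2 / r) := by fun_prop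
  have hL : (∫⁻ θ in Ioo (0 : ℝ) (2 * Real.pi), ENNReal.ofReal ((bb F r θ - A) ^ 2 / r))
      = ENNReal.ofReal ((1 / r) * ∫ θ in (0 : ℝ)..(2 * Real.pi), ‖v θ‖ ^ 2) := by
    have hi : Integrable (fun θ => (bb F r θ - A) ^ 2 / r)
        (volume.restrict (Ioo (0 : ℝ) (2 * Real.pi))) :=
      (hcont2.integrableOn_Icc (a := (0 : ℝ)) (b := 2 * Real.pi)).mono_set Ioo_subset_Icc_self
    rw [← ofReal_integral_eq_lintegral_ofReal hi (Eventually.of_forall fun θ => by positivity)]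
    congr 1
    rw [← integral_Ioc_eq_integral_Ioo, ← intervalIntegral.integral_of_le (by positivity),
      ← intervalIntegral.integral_const_mul]
    refine intervalIntegral.integral_congr fun θ _ => ?_
    simp only [hv]
    rw [Complex.norm_real, Real.norm_eq_abs, sq_abs]
    ring
  rw [hL]
  have hS : ENNReal.ofReal ((1 / r) * ∫ θ in (0 : ℝ)..(2 * Real.pi), ‖v θ‖ ^ 2)
      = ∑' n : ℤ, ENNReal.ofReal ((1 / r) * (2 * Real.pi * ‖fc v n‖ ^ 2)) := by
    rw [← (hP.mul_left (1 / r)).tsum_eq]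
    exact ENNReal.ofReal_tsum_of_nonneg (fun n => by positivity) (hP.mul_left (1 / r)).summable
  rw [hS]
  have hb := int_sum (fun n : ℤ => ENNReal.ofReal ((1 / r) * (2 * Real.pi * ‖fc v n‖ ^ 2)))
    (fun n : ℕ => ENNReal.ofReal ((1 / r) * (2 * Real.pi *
      (∑' k : ℕ, kap (fun j => ‖a j‖) n k * r ^ (2 * k + n)) ^ 2)))
    (by simp [hv0])
    (by
      intro n hn0
      refine ENNReal.ofReal_le_ofReal ?_
      have hle := (hn n).2
      rw [← hvn n hn0] at hle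
      gcongr)
  refine hb.trans ?_
  rw [← ENNReal.tsum_mul_left]
  refine ENNReal.tsum_le_tsum fun n => ?_
  have hs := (hn ((n + 1 : ℕ) : ℤ)).1
  rw [Int.natAbs_natCast] at hs
  have ht : ∀ k : ℕ, 0 ≤ kap (fun j => ‖a j‖) (n + 1) k * r ^ (2 * k + (n + 1)) := fun k =>
    mul_nonneg (kap_nonneg (fun j => norm_nonneg _) _ _) (pow_nonneg hr0.le _)
  have e2 : (2 : ENNReal) = ENNReal.ofReal 2 := by simp
  rw [e2, ← ENNReal.ofReal_mul (by norm_num)]
  have e3 : 2 * (1 / r * (2 * Real.pi * (∑' k : ℕ, kap (fun j => ‖a j‖) (n + 1) k * r ^ (2 * k + (n + 1))) ^ 2))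
      = (4 * Real.pi / r) * (∑' k : ℕ, kap (fun j => ‖a j‖) (n + 1) k * r ^ (2 * k + (n + 1))) ^ 2 := by
    ring
  rw [e3, sq_sum _ ht hs _ (by positivity)]
  refine le_of_eq (tsum_congr fun k => tsum_congr fun l => ?_)
  congr 1
  have e4 : r ^ (2 * k + (n + 1)) * r ^ (2 * l + (n + 1)) = r * r ^ (2 * (k + l + n) + 1) := by
    rw [← pow_add, ← pow_succ']
    congr 1
    ring
  calc 4 * Real.pi / r * (kap (fun j => ‖a j‖) (n + 1) k * r ^ (2 * k + (n + 1))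
        * (kap (fun j => ‖a j‖) (n + 1) l * r ^ (2 * l + (n + 1))))
      = 4 * Real.pi / r * (kap (fun j => ‖a j‖) (n + 1) k * kap (fun j => ‖a j‖) (n + 1) l)
        * (r ^ (2 * k + (n + 1)) * r ^ (2 * l + (n + 1))) := by ring
    _ = _ := by
      rw [e4]
      field_simp

end IVar

open IVar in
theorem pr_Var (h1 : StF2) (h2 : StQ) : StVar := by
  intro F a N hF hN hg hsum
  have hx : ∀ j, 0 ≤ (fun j => ‖a j‖) j := fun j => norm_nonneg _
  have hq := h2 N (fun j => ‖a j‖) hN hx (fun j hj => hg j (by simpa using hj)) hsum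
  have hstep : (∫⁻ r in Ioo (0 : ℝ) 1, ∫⁻ θ in Ioo (0 : ℝ) (2 * Real.pi),
      ENNReal.ofReal ((bb F r θ - Aa (cc a) r / 2) ^ 2 / r))
      ≤ ∫⁻ r in Ioo (0 : ℝ) 1, ∑' n : ℕ, ∑' k : ℕ, ∑' l : ℕ, ENNReal.ofReal
        (4 * Real.pi * (kap (fun j => ‖a j‖) (n + 1) k * kap (fun j => ‖a j‖) (n + 1) l)
          * r ^ (2 * (k + l + n) + 1)) :=
    setLIntegral_mono' measurableSet_Ioo fun r hr => circle h1 F a hF r hr
  refine hstep.trans ?_
  have hm : ∀ n k l : ℕ, Measurable (fun r : ℝ => ENNReal.ofReal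
        (4 * Real.pi * (kap (fun j => ‖a j‖) (n + 1) k * kap (fun j => ‖a j‖) (n + 1) l)
          * r ^ (2 * (k + l + n) + 1))) := fun n k l => by fun_prop
  have hm2 : ∀ n k : ℕ, Measurable (fun r : ℝ => ∑' l : ℕ, ENNReal.ofReal
        (4 * Real.pi * (kap (fun j => ‖a j‖) (n + 1) k * kap (fun j => ‖a j‖) (n + 1) l)
          * r ^ (2 * (k + l + n) + 1))) := fun n k => Measurable.tsum (hm n k)
  have hm3 : ∀ n : ℕ, Measurable (fun r : ℝ => ∑' k : ℕ, ∑' l : ℕ, ENNReal.ofReal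
        (4 * Real.pi * (kap (fun j => ‖a j‖) (n + 1) k * kap (fun j => ‖a j‖) (n + 1) l)
          * r ^ (2 * (k + l + n) + 1))) := fun n => Measurable.tsum (hm2 n)
  rw [lintegral_tsum fun n => (hm3 n).aemeasurable]
  have hin : ∀ n : ℕ, (∫⁻ r in Ioo (0 : ℝ) 1, ∑' k : ℕ, ∑' l : ℕ, ENNReal.ofReal
        (4 * Real.pi * (kap (fun j => ‖a j‖) (n + 1) k * kap (fun j => ‖a j‖) (n + 1) l)
          * r ^ (2 * (k + l + n) + 1)))
      = ENNReal.ofReal (2 * Real.pi) * ∑' k : ℕ, ∑' l : ℕ, ENNReal.ofReal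
        (kap (fun j => ‖a j‖) (n + 1) k * kap (fun j => ‖a j‖) (n + 1) l / (k + l + (n + 1))) := by
    intro n
    rw [lintegral_tsum fun k => (hm2 n k).aemeasurable, ← ENNReal.tsum_mul_left]
    refine tsum_congr fun k => ?_
    rw [lintegral_tsum fun l => (hm n k l).aemeasurable, ← ENNReal.tsum_mul_left]
    refine tsum_congr fun l => ?_
    have hk : 0 ≤ kap (fun j => ‖a j‖) (n + 1) k * kap (fun j => ‖a j‖) (n + 1) l :=
      mul_nonneg (kap_nonneg hx _ _) (kap_nonneg hx _ _)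
    rw [lint_pow _ (by positivity), ← ENNReal.ofReal_mul (by positivity)]
    congr 1
    have h5 : ((2 * (k + l + n) + 1 : ℕ) : ℝ) + 1 = 2 * ((k : ℝ) + l + (n + 1)) := by
      push_cast
      ring
    rw [h5]
    have h6 : ((k : ℝ) + l + (n + 1)) ≠ 0 := by positivity
    field_simp
    ring
  rw [tsum_congr hin, ENNReal.tsum_mul_left]
  calc ENNReal.ofReal (2 * Real.pi) * (∑' n : ℕ, ∑' k : ℕ, ∑' l : ℕ, ENNReal.ofReal
        (kap (fun j => ‖a j‖) (n + 1) k * kap (fun j => ‖a j‖) (n + 1) l / (k + l + (n + 1))))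
      ≤ ENNReal.ofReal (2 * Real.pi) * (ENNReal.ofReal (1 / N) *
          ∑' j : ℕ, ENNReal.ofReal ((j + 2 : ℕ) * ‖a (j + 2)‖ ^ 2)) := by
        gcongr
    _ = ENNReal.ofReal (2 * Real.pi / N) * ∑' j : ℕ, ENNReal.ofReal (cc a (j + 2)) := by
        rw [← mul_assoc, ← ENNReal.ofReal_mul (by positivity), mul_one_div]
        rfl

end Pool.Agent.MFK.NF
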