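import Pool.Agent.Work.MP_8826fd_mp.NF.Gk

namespace Pool.Agent.MFK.NF

open MeasureTheory Set Filter Topology

namespace IC2

/-- Taylor coefficients of a holomorphic function on the unit disc. -/
lemma taylor {F : ℂ → ℂ} (hF : DifferentiableOn ℂ F (Metric.ball 0 1)) :
    ∀ w ∈ Metric.ball (0 : ℂ) 1,
      HasSum (fun j : ℕ => ((j.factorial : ℂ)⁻¹ * iteratedDeriv j F 0) * w ^ j) (F w) := by
  intro w hw
  have h := Complex.hasSum_taylorSeries_on_ball (c := (0 : ℂ)) (r := 1) (z := w) hF hw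
  refine h.congr_fun ?_
  intro j
  simp only [sub_zero, smul_eq_mul]
  ring

/-- Rotational symmetry of a holomorphic function gives relations for its derivatives. -/
lemma coef {F : ℂ → ℂ} (hF : DifferentiableOn ℂ F (Metric.ball 0 1)) (z : ℂ) (hz : ‖z‖ = 1)
    (h : ∀ w ∈ Metric.ball (0 : ℂ) 1, F (z * w) = z * F w) (j : ℕ) :
    z ^ j * iteratedDeriv j F 0 = z * iteratedDeriv j F 0 := by
  have hmem : (0 : ℂ) ∈ Metric.ball (0 : ℂ) 1 := by simp
  have hmaps : Set.MapsTo (z * ·) (Metric.ball (0 : ℂ) 1) (Metric.ball (0 : ℂ) 1) := by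
    intro w hw
    simp only [Metric.mem_ball, dist_zero_right, norm_mul, hz, one_mul] at hw ⊢
    exact hw
  have hcd : ContDiffOn ℂ j F (Metric.ball (0 : ℂ) 1) := hF.contDiffOn Metric.isOpen_ball
  have h1 := iteratedDerivWithin_comp_const_smul (n := j) hmem
    Metric.isOpen_ball.uniqueDiffOn hcd z hmaps
  have h2 : iteratedDerivWithin j (fun x => F (z * x)) (Metric.ball (0 : ℂ) 1) 0
      = iteratedDerivWithin j (fun x => z * F x) (Metric.ball (0 : ℂ) 1) 0 :=
    iteratedDerivWithin_congr (fun w hw => h w hw) hmem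
  rw [h2, mul_zero, smul_eq_mul, iteratedDerivWithin_of_isOpen Metric.isOpen_ball hmem,
    iteratedDerivWithin_of_isOpen Metric.isOpen_ball hmem, iteratedDeriv_const_mul_field] at h1
  exact h1.symm

/-- The symmetric Riemann map commutes with the rotation. -/
lemma sym {Ω : Set ℂ} {f F : ℂ → ℂ} (hΩ : IsOpen Ω) (hf : DifferentiableOn ℂ f Ω)
    (hF : DifferentiableOn ℂ F (Metric.ball 0 1)) (fm : MapsTo f Ω (Metric.ball 0 1))
    (Fm : MapsTo F (Metric.ball 0 1) Ω) (fF : ∀ w ∈ Metric.ball (0 : ℂ) 1, f (F w) = w)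
    (Ff : ∀ z ∈ Ω, F (f z) = z) (h0 : (0 : ℂ) ∈ Ω) (f0 : f 0 = 0) (z : ℂ) (hz : ‖z‖ = 1)
    (hinv : ∀ x ∈ Ω, z * x ∈ Ω) : ∀ w ∈ Metric.ball (0 : ℂ) 1, F (z * w) = z * F w := by
  have hmem : (0 : ℂ) ∈ Metric.ball (0 : ℂ) 1 := by simp
  have F0 : F 0 = 0 := by
    have := Ff 0 h0
    rwa [f0] at this
  have hmul : DifferentiableOn ℂ (fun w => z * F w) (Metric.ball 0 1) := hF.const_mul z
  have hmulm : MapsTo (fun w => z * F w) (Metric.ball 0 1) Ω := fun w hw => hinv _ (Fm hw)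
  have hψ : DifferentiableOn ℂ (fun w => f (z * F w)) (Metric.ball 0 1) := hf.comp hmul hmulm
  have hψm : MapsTo (fun w => f (z * F w)) (Metric.ball 0 1)
      (Metric.closedBall ((fun w => f (z * F w)) 0) 1) := by
    intro w hw
    have h1 := fm (hmulm hw)
    simp only [F0, mul_zero, f0]
    exact Metric.ball_subset_closedBall h1
  have dF : DifferentiableAt ℂ F 0 := hF.differentiableAt (Metric.isOpen_ball.mem_nhds hmem)
  have df : DifferentiableAt ℂ f 0 := hf.differentiableAt (hΩ.mem_nhds h0)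
  have hd1 : HasDerivAt (fun w => f (F w)) (deriv f 0 * deriv F 0) 0 := by
    have hf' : HasDerivAt f (deriv f 0) (F 0) := by rw [F0]; exact df.hasDerivAt
    exact hf'.comp 0 dF.hasDerivAt
  have hd2 : deriv f 0 * deriv F 0 = 1 := by
    have h1 : (fun w => f (F w)) =ᶠ[𝓝 0] fun w => w := by
      filter_upwards [Metric.isOpen_ball.mem_nhds hmem] with w hw
      exact fF w hw
    have h2 : HasDerivAt (fun w : ℂ => w) (deriv f 0 * deriv F 0) 0 := hd1.congr_of_eventuallyEq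
      h1.symm
    exact h2.unique (hasDerivAt_id 0)
  have hd3 : HasDerivAt (fun w => f (z * F w)) (deriv f 0 * (z * deriv F 0)) 0 := by
    have hf' : HasDerivAt f (deriv f 0) (z * F 0) := by
      rw [F0, mul_zero]
      exact df.hasDerivAt
    exact hf'.comp 0 (dF.hasDerivAt.const_mul z)
  have hd4 : deriv (fun w => f (z * F w)) 0 = z := by
    rw [hd3.deriv]
    linear_combination z * hd2
  have hds : dslope (fun w => f (z * F w)) 0 0 = z := by
    rw [dslope_same, hd4]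
  have key := Complex.affine_of_mapsTo_ball_of_norm_dslope_eq_div hψ hψm hmem
    (by rw [hds, hz]; norm_num)
  intro w hw
  have h1 := key hw
  simp only [F0, mul_zero, f0, hds, sub_zero, zero_add, smul_eq_mul] at h1
  have h2 := Ff _ (hmulm hw)
  simp only at h2
  rw [h1] at h2
  rw [mul_comm z w]
  exact h2

end IC2

theorem pr_C2 (h1 : StC0) (h2 : StC1) : StC2 := by
  intro N Ω hN hΩ hsc hne hinv
  have h0 := h1 N Ω hN hΩ hsc hinv
  obtain ⟨f, F, fd, Fd, fm, Fm, fF, Ff, f0⟩ := h2 Ω hΩ hsc hne h0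
  have hN0 : N ≠ 0 := by omega
  have hprim := Complex.isPrimitiveRoot_exp N hN0
  have hnorm : ‖Complex.exp (2 * Real.pi * Complex.I / N)‖ = 1 := hprim.norm'_eq_one hN0
  have hsym := IC2.sym hΩ fd Fd fm Fm fF Ff h0 f0 _ hnorm hinv
  refine ⟨f, F, fun j => (j.factorial : ℂ)⁻¹ * iteratedDeriv j F 0,
    ⟨⟨Fd, IC2.taylor Fd⟩, hN, hΩ, fd, fm, Fm, fF, Ff, ?_⟩⟩
  intro j hj
  have hj' : iteratedDeriv j F 0 ≠ 0 := right_ne_zero_of_mul hj
  have h3 := IC2.coef Fd _ hnorm hsym j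
  have h4 : Complex.exp (2 * Real.pi * Complex.I / N) ^ j
      = Complex.exp (2 * Real.pi * Complex.I / N) ^ 1 := by
    rw [pow_one]
    exact mul_right_cancel₀ hj' h3
  rw [pow_eq_pow_mod j hprim.pow_eq_one] at h4
  exact hprim.pow_inj (Nat.mod_lt _ (by omega)) (by omega) h4

end Pool.Agent.MFK.NF
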