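import Pool.Agent.Work.MP_8826fd_mp.NF.Gk
import Pool.Agent.Work.MP_8826fd_mp.F3

/-! # [8826fd NF] item Fin: scaling and translation of the theorem -/

set_option autoImplicit false

namespace Pool.Agent.MFK.NF

open MeasureTheory Set Filter Topology

namespace IFin

/-- the affine homeomorphism `z ↦ p + R (re z, im z)` -/
noncomputable def hom (p : ℝ × ℝ) {R : ℝ} (hR : 0 < R) : ℂ ≃ₜ ℝ × ℝ where
  toFun z := (p.1 + R * z.re, p.2 + R * z.im)
  invFun x := ⟨R⁻¹ * (x.1 - p.1), R⁻¹ * (x.2 - p.2)⟩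
  left_inv z := by
    apply Complex.ext
    · show R⁻¹ * (p.1 + R * z.re - p.1) = z.re
      rw [add_sub_cancel_left, inv_mul_cancel_left₀ hR.ne']
    · show R⁻¹ * (p.2 + R * z.im - p.2) = z.im
      rw [add_sub_cancel_left, inv_mul_cancel_left₀ hR.ne']
  right_inv x := by
    apply Prod.ext
    · show p.1 + R * (R⁻¹ * (x.1 - p.1)) = x.1
      rw [mul_inv_cancel_left₀ hR.ne', add_sub_cancel]
    · show p.2 + R * (R⁻¹ * (x.2 - p.2)) = x.2
      rw [mul_inv_cancel_left₀ hR.ne', add_sub_cancel]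
  continuous_toFun := by fun_prop
  continuous_invFun := by
    have h : (fun x : ℝ × ℝ => (⟨R⁻¹ * (x.1 - p.1), R⁻¹ * (x.2 - p.2)⟩ : ℂ)) =
        fun x : ℝ × ℝ => Complex.equivRealProdCLM.symm (R⁻¹ * (x.1 - p.1), R⁻¹ * (x.2 - p.2)) := by
      funext x
      apply Complex.ext <;> simp
    show Continuous (fun x : ℝ × ℝ => (⟨R⁻¹ * (x.1 - p.1), R⁻¹ * (x.2 - p.2)⟩ : ℂ))
    rw [h]
    fun_prop

/-- the normalised domain -/
def nd (p : ℝ × ℝ) (R : ℝ) (Ω : Set (ℝ × ℝ)) : Set ℂ := {z | (p.1 + R * z.re, p.2 + R * z.im) ∈ Ω}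

theorem nd_eq (p : ℝ × ℝ) {R : ℝ} (hR : 0 < R) (Ω : Set (ℝ × ℝ)) : nd p R Ω = hom p hR ⁻¹' Ω := rfl

theorem image_toR (p : ℝ × ℝ) {R : ℝ} (hR : 0 < R) (Ω : Set (ℝ × ℝ)) :
    Sc.aff p R '' toR (nd p R Ω) = Ω := by
  ext x
  constructor
  · rintro ⟨y, hy, rfl⟩
    exact hy
  · intro hx
    refine ⟨R⁻¹ • (x - p), ?_, ?_⟩
    · show (p.1 + R * (R⁻¹ * (x.1 - p.1)), p.2 + R * (R⁻¹ * (x.2 - p.2))) ∈ Ω
      rw [mul_inv_cancel_left₀ hR.ne', mul_inv_cancel_left₀ hR.ne', add_sub_cancel, add_sub_cancel]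
      exact hx
    · unfold Sc.aff
      rw [smul_inv_smul₀ hR.ne', add_sub_cancel]

theorem isOpen_toR {Ω : Set ℂ} (h : IsOpen Ω) : IsOpen (toR Ω) := by
  have h1 : toR Ω = Complex.equivRealProdCLM.symm ⁻¹' Ω := by
    ext x
    show (⟨x.1, x.2⟩ : ℂ) ∈ Ω ↔ Complex.equivRealProdCLM.symm x ∈ Ω
    have h2 : Complex.equivRealProdCLM.symm x = (⟨x.1, x.2⟩ : ℂ) := by
      apply Complex.ext <;> simp
    rw [h2]
  rw [h1]
  exact h.preimage (by fun_prop)

theorem vol_toR {Ω : Set ℂ} (h : IsOpen Ω) : volume (toR Ω) = volume Ω := by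
  have h1 : toR Ω = Complex.measurableEquivRealProd.symm ⁻¹' Ω := rfl
  rw [h1]
  exact (Complex.volume_preserving_equiv_real_prod.symm).measure_preimage
    h.measurableSet.nullMeasurableSet

theorem vol_aff (p : ℝ × ℝ) {R : ℝ} (hR : 0 < R) (s : Set (ℝ × ℝ)) :
    volume (Sc.aff p R '' s) = ENNReal.ofReal (R ^ 2) * volume s := by
  have h1 : Sc.aff p R '' s = (fun y => p + y) '' ((fun x => R • x) '' s) := by
    rw [Set.image_image]
    rfl
  rw [h1, Set.image_add_left, measure_preimage_add, Set.image_smul, Measure.addHaar_smul]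
  have h2 : Module.finrank ℝ (ℝ × ℝ) = 2 := by simp
  rw [h2, abs_of_nonneg (by positivity)]

theorem exp_re_im (N : ℕ) : Complex.exp (2 * Real.pi * Complex.I / N) =
    ⟨Real.cos (2 * Real.pi / N), Real.sin (2 * Real.pi / N)⟩ := by
  have h1 : (2 * Real.pi * Complex.I / N : ℂ) = ((2 * Real.pi / N : ℝ) : ℂ) * Complex.I := by
    push_cast
    ring
  rw [h1]
  apply Complex.ext
  · exact Complex.exp_ofReal_mul_I_re _
  · exact Complex.exp_ofReal_mul_I_im _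

theorem toR_ball : toR (Metric.ball 0 1) = disc := by
  ext x
  show (⟨x.1, x.2⟩ : ℂ) ∈ Metric.ball (0 : ℂ) 1 ↔ x.1 ^ 2 + x.2 ^ 2 < 1
  rw [mem_ball_zero_iff]
  have h : ‖(⟨x.1, x.2⟩ : ℂ)‖ ^ 2 = x.1 ^ 2 + x.2 ^ 2 := by
    rw [Complex.sq_norm, Complex.normSq_apply]
    ring
  rw [← h]
  constructor
  · intro h1
    nlinarith [norm_nonneg (⟨x.1, x.2⟩ : ℂ)]
  · intro h1
    nlinarith [norm_nonneg (⟨x.1, x.2⟩ : ℂ)]

theorem isOpen_disc : IsOpen disc := by
  unfold disc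
  exact isOpen_lt (by fun_prop) continuous_const

end IFin

theorem pr_Fin (h1 : StMU) : StFin := by
  intro B R hB hR
  obtain ⟨N₀, hN₀⟩ := h1 (B * R ^ 2) (by positivity)
  refine ⟨N₀, fun N hN p Ω hO hsc hvol hrot => ?_⟩
  have hne := IFin.nd_eq p hR Ω
  have hO' : IsOpen (IFin.nd p R Ω) := by
    rw [hne]
    exact hO.preimage (IFin.hom p hR).continuous
  have hsc' : IsSimplyConnected (IFin.nd p R Ω) := by
    rw [hne, Homeomorph.isSimplyConnected_preimage]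
    exact hsc
  have himg := IFin.image_toR p hR Ω
  have hvol' : volume (IFin.nd p R Ω) = ENNReal.ofReal Real.pi := by
    have e1 := IFin.vol_aff p hR (toR (IFin.nd p R Ω))
    rw [himg, hvol, F3.vol_edisc p hR.le, IFin.vol_toR hO', mul_comm Real.pi,
      ENNReal.ofReal_mul (by positivity)] at e1
    have h0 : ENNReal.ofReal (R ^ 2) ≠ 0 := by
      rw [Ne, ENNReal.ofReal_eq_zero, not_le]
      positivity
    exact ((ENNReal.mul_right_inj h0 ENNReal.ofReal_ne_top).1 e1).symm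
  have hrot' : ∀ z ∈ IFin.nd p R Ω,
      Complex.exp (2 * Real.pi * Complex.I / N) * z ∈ IFin.nd p R Ω := by
    intro z hz
    have h2 := hrot _ hz
    rw [IFin.exp_re_im]
    show (p.1 + R * ((⟨Real.cos (2 * Real.pi / N), Real.sin (2 * Real.pi / N)⟩ : ℂ) * z).re,
      p.2 + R * ((⟨Real.cos (2 * Real.pi / N), Real.sin (2 * Real.pi / N)⟩ : ℂ) * z).im) ∈ Ω
    have h3 : (p.1 + R * ((⟨Real.cos (2 * Real.pi / N), Real.sin (2 * Real.pi / N)⟩ : ℂ) * z).re,
        p.2 + R * ((⟨Real.cos (2 * Real.pi / N), Real.sin (2 * Real.pi / N)⟩ : ℂ) * z).im) =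
        rotN N p (p.1 + R * z.re, p.2 + R * z.im) := by
      apply Prod.ext
      · simp only [Complex.mul_re, rotN]
        ring
      · simp only [Complex.mul_im, rotN]
        ring
    rw [h3]
    exact h2
  obtain ⟨hle, heq⟩ := hN₀ N hN (IFin.nd p R Ω) hO' hsc' hvol' hrot'
  have s1 : lamN B Ω = (R ^ 2)⁻¹ * lamN (B * R ^ 2) (toR (IFin.nd p R Ω)) := by
    have h2 := sc B R p (toR (IFin.nd p R Ω)) hR (IFin.isOpen_toR hO')
    rw [← h2]
    congr 1
    exact himg.symm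
  have s2 : lamN B (edisc p R) = (R ^ 2)⁻¹ * lamN (B * R ^ 2) disc := by
    have h2 := sc B R p disc hR IFin.isOpen_disc
    rw [← h2]
    congr 1
    exact F2.edisc_image hR p
  have hR2 : (0 : ℝ) < (R ^ 2)⁻¹ := by positivity
  refine ⟨?_, fun he => ?_⟩
  · rw [s1, s2]
    exact mul_le_mul_of_nonneg_left hle hR2.le
  · rw [s1, s2] at he
    have h3 := heq (mul_left_cancel₀ hR2.ne' he)
    rw [F2.edisc_image hR p, ← IFin.toR_ball, ← h3]
    exact himg.symm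

end Pool.Agent.MFK.NF
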