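import Pool.Agent.Work.MP_8826fd_mp.NF.Gk

/-!
# MP_8826fd_mp, block NF, item Ray (by helper95): the Rayleigh quotient in complex notation
-/

set_option autoImplicit false

namespace Pool.Agent.MFK.NF

open MeasureTheory Set Filter Topology

namespace IRay

/-- the isomorphism of the plane with the complex numbers -/
noncomputable abbrev ee : (ℝ × ℝ) ≃L[ℝ] ℂ := Complex.equivRealProdCLM.symm

theorem ee_apply (x : ℝ × ℝ) : ee x = (⟨x.1, x.2⟩ : ℂ) := rfl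

theorem eden_eq (B : ℝ) (U : ℂ → ℂ) (x : ℝ × ℝ) :
    eden B (fun y => U (⟨y.1, y.2⟩ : ℂ)) x = edC B U (⟨x.1, x.2⟩ : ℂ) := by
  have h1 : fderiv ℝ (fun y : ℝ × ℝ => U (⟨y.1, y.2⟩ : ℂ)) x =
      (fderiv ℝ U (ee x)).comp (ee : (ℝ × ℝ) →L[ℝ] ℂ) :=
    ee.comp_right_fderiv (f := U) (x := x)
  have e1 : ee ((1 : ℝ), (0 : ℝ)) = 1 := by
    rw [ee_apply]; rfl
  have e2 : ee ((0 : ℝ), (1 : ℝ)) = Complex.I := by
    rw [ee_apply]; rfl
  have e3 : (B * AA (⟨x.1, x.2⟩ : ℂ) 1 : ℝ) = -(B * x.2 / 2) := by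
    unfold AA
    simp only [mul_one, Complex.conj_im]
    ring
  have e4 : (B * AA (⟨x.1, x.2⟩ : ℂ) Complex.I : ℝ) = B * x.1 / 2 := by
    unfold AA
    simp only [Complex.mul_im, Complex.conj_re, Complex.conj_im, Complex.I_re, Complex.I_im]
    ring
  unfold eden edC
  rw [h1, e3, e4]
  simp only [ContinuousLinearMap.comp_apply, ContinuousLinearEquiv.coe_coe, e1, e2]
  rfl

theorem lint_eq (Ω : Set ℂ) (g : ℂ → ENNReal) :
    (∫⁻ x in toR Ω, g (⟨x.1, x.2⟩ : ℂ)) = ∫⁻ z in Ω, g z :=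
  (Complex.volume_preserving_equiv_real_prod.symm).setLIntegral_comp_preimage_emb
    (MeasurableEquiv.measurableEmbedding _) g Ω

end IRay

theorem pr_Ray : StRay := by
  intro B ℓ Ω U hΩ hU hE hM hM0 hle
  set u : ℝ × ℝ → ℂ := fun y => U (⟨y.1, y.2⟩ : ℂ) with hu
  have hopen : IsOpen (toR Ω) := hΩ.preimage IRay.ee.continuous
  have hmeas : MeasurableSet (toR Ω) := hopen.measurableSet
  have hu1 : ContDiffOn ℝ 1 u (toR Ω) :=
    hU.comp IRay.ee.contDiff.contDiffOn (fun x hx => hx)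
  have hcu : ContinuousOn u (toR Ω) := hu1.continuousOn
  have hcf : ContinuousOn (fun x => fderiv ℝ u x) (toR Ω) :=
    hu1.continuousOn_fderiv_of_isOpen hopen le_rfl
  have hc1 : ContinuousOn (fun x => ‖u x‖ ^ 2) (toR Ω) := hcu.norm.pow 2
  have hc2 : ContinuousOn (fun x => eden B u x) (toR Ω) := by
    unfold eden
    have a1 : ContinuousOn (fun x => fderiv ℝ u x ((1 : ℝ), (0 : ℝ))) (toR Ω) :=
      hcf.clm_apply continuousOn_const
    have a2 : ContinuousOn (fun x => fderiv ℝ u x ((0 : ℝ), (1 : ℝ))) (toR Ω) :=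
      hcf.clm_apply continuousOn_const
    have b1 : Continuous (fun x : ℝ × ℝ => Complex.I * ((-(B * x.2 / 2) : ℝ) : ℂ)) := by
      fun_prop
    have b2 : Continuous (fun x : ℝ × ℝ => Complex.I * ((B * x.1 / 2 : ℝ) : ℂ)) := by
      fun_prop
    exact ((a1.sub (b1.continuousOn.mul hcu)).norm.pow 2).add
      ((a2.sub (b2.continuousOn.mul hcu)).norm.pow 2)
  have hm1 : AEStronglyMeasurable (fun x => ‖u x‖ ^ 2) (volume.restrict (toR Ω)) :=
    hc1.aestronglyMeasurable hmeas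
  have hm2 : AEStronglyMeasurable (fun x => eden B u x) (volume.restrict (toR Ω)) :=
    hc2.aestronglyMeasurable hmeas
  have hn1 : 0 ≤ᵐ[volume.restrict (toR Ω)] (fun x => ‖u x‖ ^ 2) :=
    Eventually.of_forall fun x => by positivity
  have hn2 : 0 ≤ᵐ[volume.restrict (toR Ω)] (fun x => eden B u x) :=
    Eventually.of_forall fun x => U25.eden_nonneg B u x
  have l1 : (∫⁻ x in toR Ω, ENNReal.ofReal (‖u x‖ ^ 2)) =
      ∫⁻ z in Ω, ENNReal.ofReal (‖U z‖ ^ 2) :=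
    IRay.lint_eq Ω (fun z => ENNReal.ofReal (‖U z‖ ^ 2))
  have l2 : (∫⁻ x in toR Ω, ENNReal.ofReal (eden B u x)) =
      ∫⁻ z in Ω, ENNReal.ofReal (edC B U z) := by
    rw [← IRay.lint_eq Ω (fun z => ENNReal.ofReal (edC B U z))]
    exact lintegral_congr fun x => by rw [hu, IRay.eden_eq]
  have i1 : IntegrableOn (fun x => ‖u x‖ ^ 2) (toR Ω) :=
    ⟨hm1, (hasFiniteIntegral_iff_ofReal hn1).2 (by rw [l1]; exact lt_top_iff_ne_top.2 hM)⟩
  have i2 : IntegrableOn (fun x => eden B u x) (toR Ω) :=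
    ⟨hm2, (hasFiniteIntegral_iff_ofReal hn2).2 (by rw [l2]; exact lt_top_iff_ne_top.2 hE)⟩
  have v1 : (∫ x in toR Ω, ‖u x‖ ^ 2) = (∫⁻ z in Ω, ENNReal.ofReal (‖U z‖ ^ 2)).toReal := by
    rw [integral_eq_lintegral_of_nonneg_ae hn1 hm1, l1]
  have v2 : (∫ x in toR Ω, eden B u x) = (∫⁻ z in Ω, ENNReal.ofReal (edC B U z)).toReal := by
    rw [integral_eq_lintegral_of_nonneg_ae hn2 hm2, l2]
  have hpos : 0 < (∫ x in toR Ω, ‖u x‖ ^ 2) := by
    rw [v1]
    exact ENNReal.toReal_pos hM0 hM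
  refine (uRay B (toR Ω) u hu1 hmeas hopen i1 i2 hpos).trans ?_
  rw [div_le_iff₀ hpos, v1, v2]
  exact hle

end Pool.Agent.MFK.NF
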