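import Pool.Agent.Work.MP_8826fd_mp.NF.Gk

/-! MP_8826fd_mp, block NF, item PC (helper39): change of variables. -/

set_option autoImplicit false

namespace Pool.Agent.MFK.NF

open MeasureTheory Set Filter Topology

namespace IPC

/-- the determinant of the multiplication by `c`. -/
theorem det_mul (c : ℂ) :
    ((ContinuousLinearMap.toSpanSingleton ℂ c).restrictScalars ℝ : ℂ →L[ℝ] ℂ).det = ‖c‖ ^ 2 := by
  have h1 : (((ContinuousLinearMap.toSpanSingleton ℂ c).restrictScalars ℝ : ℂ →L[ℝ] ℂ) :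
      ℂ →ₗ[ℝ] ℂ) = LinearMap.mul ℝ ℂ c := by
    ext x
    simp [mul_comm]
  show LinearMap.det (((ContinuousLinearMap.toSpanSingleton ℂ c).restrictScalars ℝ :
    ℂ →L[ℝ] ℂ) : ℂ →ₗ[ℝ] ℂ) = _
  rw [h1]
  have h2 : LinearMap.det (LinearMap.mul ℝ ℂ c) = Algebra.norm ℝ c := (Algebra.norm_apply ℝ c).symm
  rw [h2, Algebra.norm_complex_apply, Complex.normSq_eq_norm_sq]

/-- holomorphic change of variables. -/
theorem cov {F : ℂ → ℂ} (hd : DifferentiableOn ℂ F (Metric.ball 0 1))
    (hinj : InjOn F (Metric.ball 0 1)) (h : ℂ → ENNReal) :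
    ∫⁻ z in F '' (Metric.ball 0 1), h z =
      ∫⁻ w in Metric.ball (0 : ℂ) 1, ENNReal.ofReal (‖deriv F w‖ ^ 2) * h (F w) := by
  have hD : ∀ w ∈ Metric.ball (0 : ℂ) 1, HasFDerivWithinAt F
      ((ContinuousLinearMap.toSpanSingleton ℂ (deriv F w)).restrictScalars ℝ : ℂ →L[ℝ] ℂ)
      (Metric.ball 0 1) w := by
    intro w hw
    have h1 : HasDerivAt F (deriv F w) w :=
      (hd.differentiableAt (Metric.isOpen_ball.mem_nhds hw)).hasDerivAt
    exact (h1.hasFDerivAt.restrictScalars ℝ).hasFDerivWithinAt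
  rw [lintegral_image_eq_lintegral_abs_det_fderiv_mul volume Metric.isOpen_ball.measurableSet hD
    hinj]
  refine lintegral_congr (fun w => ?_)
  rw [det_mul, abs_of_nonneg (by positivity)]

theorem pc_eq (r θ : ℝ) : pc r θ = Complex.polarCoord.symm (r, θ) := by
  rw [Complex.polarCoord_symm_apply, pc, mul_comm Complex.I, Complex.exp_mul_I]
  push_cast
  rfl

theorem pc_norm {r : ℝ} (hr : 0 ≤ r) (θ : ℝ) : ‖pc r θ‖ = r := by
  rw [pc_eq, Complex.norm_polarCoord_symm]
  exact abs_of_nonneg hr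

theorem pc_per (r θ : ℝ) : pc r (θ + 2 * Real.pi) = pc r θ := by
  unfold pc
  have : Complex.I * ((θ + 2 * Real.pi : ℝ) : ℂ) = Complex.I * (θ : ℂ) + 2 * Real.pi * Complex.I := by
    push_cast
    ring
  rw [this, Complex.exp_periodic]

theorem pc_meas : Measurable (fun p : ℝ × ℝ => pc p.1 p.2) := by
  unfold pc
  exact Continuous.measurable (by fun_prop)

/-- shift of the angle. -/
theorem shift (f : ℝ → ENNReal) (hf : ∀ θ, f (θ + 2 * Real.pi) = f θ) :
    ∫⁻ θ in Ioo (-Real.pi) Real.pi, f θ = ∫⁻ θ in Ioo (0 : ℝ) (2 * Real.pi), f θ := by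
  have hT : (0 : ℝ) < 2 * Real.pi := by positivity
  have h1 := (isAddFundamentalDomain_Ioc hT (-Real.pi) volume).setLIntegral_eq
    (isAddFundamentalDomain_Ioc hT 0 volume) f (by
      rintro ⟨g, hg⟩ x
      obtain ⟨n, rfl⟩ := AddSubgroup.mem_zmultiples_iff.1 hg
      show f (n • (2 * Real.pi) + x) = f x
      have hp : Function.Periodic f (2 * Real.pi) := hf
      rw [add_comm]
      exact (hp.zsmul n) x)
  have e1 : -Real.pi + 2 * Real.pi = Real.pi := by ring
  rw [e1, zero_add] at h1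
  rw [setLIntegral_congr Ioo_ae_eq_Ioc, h1, setLIntegral_congr Ioo_ae_eq_Ioc]

/-- polar coordinates on the disc, measurable functions. -/
theorem polar_m {g : ℂ → ENNReal} (hg : Measurable g) :
    ∫⁻ w in Metric.ball (0 : ℂ) 1, g w =
      ∫⁻ r in Ioo (0 : ℝ) 1, ∫⁻ θ in Ioo (0 : ℝ) (2 * Real.pi), ENNReal.ofReal r * g (pc r θ) := by
  have hb : MeasurableSet (Metric.ball (0 : ℂ) 1) := Metric.isOpen_ball.measurableSet
  rw [← lintegral_indicator hb, ← Complex.lintegral_comp_polarCoord_symm, polarCoord_target,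
    Measure.volume_eq_prod, ← Measure.prod_restrict, lintegral_prod]
  · have h1 : Ioi (0 : ℝ) = Ioo 0 1 ∪ Ici 1 := (Ioo_union_Ici_eq_Ioi one_pos).symm
    have hd : Disjoint (Ioo (0 : ℝ) 1) (Ici 1) := by
      rw [Set.disjoint_left]
      intro a ha hb
      exact absurd ha.2 (not_lt.2 hb)
    rw [h1, lintegral_union measurableSet_Ici hd]
    have h2 : ∫⁻ r in Ici (1 : ℝ), ∫⁻ θ in Ioo (-Real.pi) Real.pi, ENNReal.ofReal (r, θ).1 •
        (Metric.ball (0 : ℂ) 1).indicator g (Complex.polarCoord.symm (r, θ)) = 0 := by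
      rw [setLIntegral_congr_fun measurableSet_Ici (g := fun _ => 0)]
      · simp
      · intro r hr
        have hr1 : (1 : ℝ) ≤ r := hr
        simp only
        have h3 : ∀ θ : ℝ, ENNReal.ofReal r •
            (Metric.ball (0 : ℂ) 1).indicator g (Complex.polarCoord.symm (r, θ)) = 0 := by
          intro θ
          rw [indicator_of_notMem, smul_zero]
          rw [← pc_eq, mem_ball_zero_iff, pc_norm (by linarith)]
          exact not_lt.2 hr1
        simp only [h3, lintegral_zero]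
    rw [h2, add_zero]
    refine setLIntegral_congr_fun measurableSet_Ioo (fun r hr => ?_)
    have h3 : ∀ θ : ℝ, ENNReal.ofReal (r, θ).1 •
        (Metric.ball (0 : ℂ) 1).indicator g (Complex.polarCoord.symm (r, θ)) =
        ENNReal.ofReal r * g (pc r θ) := by
      intro θ
      rw [indicator_of_mem, ← pc_eq, smul_eq_mul]
      rw [← pc_eq, mem_ball_zero_iff, pc_norm hr.1.le]
      exact hr.2
    simp only [h3]
    exact shift _ (fun θ => by rw [pc_per])
  · refine Measurable.aemeasurable ?_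
    have : (fun p : ℝ × ℝ => ENNReal.ofReal p.1 • (Metric.ball (0 : ℂ) 1).indicator g
        (Complex.polarCoord.symm p)) = fun p : ℝ × ℝ => ENNReal.ofReal p.1 *
        (Metric.ball (0 : ℂ) 1).indicator g (pc p.1 p.2) := by
      funext p
      rw [smul_eq_mul, pc_eq]
    rw [this]
    exact (ENNReal.measurable_ofReal.comp measurable_fst).mul ((hg.indicator hb).comp pc_meas)

/-- polar coordinates on the disc. -/
theorem polar {g : ℂ → ENNReal} (hg : AEMeasurable g (volume.restrict (Metric.ball (0 : ℂ) 1))) :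
    ∫⁻ w in Metric.ball (0 : ℂ) 1, g w =
      ∫⁻ r in Ioo (0 : ℝ) 1, ∫⁻ θ in Ioo (0 : ℝ) (2 * Real.pi), ENNReal.ofReal r * g (pc r θ) := by
  have hb : MeasurableSet (Metric.ball (0 : ℂ) 1) := Metric.isOpen_ball.measurableSet
  obtain ⟨g', hg', hgg⟩ := hg
  rw [lintegral_congr_ae hgg, polar_m hg']
  have h0 : (volume.restrict (Metric.ball (0 : ℂ) 1)) {w | ¬ g w = g' w} = 0 := hgg
  set N := toMeasurable (volume.restrict (Metric.ball (0 : ℂ) 1)) {w | ¬ g w = g' w} with hN
  have hNm : MeasurableSet N := measurableSet_toMeasurable _ _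
  have hN0 : (volume.restrict (Metric.ball (0 : ℂ) 1)) N = 0 := by
    rw [hN, measure_toMeasurable]
    exact h0
  have hsub : {w | ¬ g w = g' w} ⊆ N := subset_toMeasurable _ _
  have hmi : Measurable (N.indicator (fun _ => (1 : ENNReal))) := measurable_one.indicator hNm
  have h1 := polar_m hmi
  have h1' : ∫⁻ w in Metric.ball (0 : ℂ) 1, N.indicator (fun _ => (1 : ENNReal)) w = 0 := by
    rw [lintegral_indicator hNm, lintegral_const, one_mul, Measure.restrict_apply MeasurableSet.univ,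
      univ_inter, hN0]
  rw [h1'] at h1
  have hmm : Measurable (fun p : ℝ × ℝ => ENNReal.ofReal p.1 *
      N.indicator (fun _ => (1 : ENNReal)) (pc p.1 p.2)) :=
    (ENNReal.measurable_ofReal.comp measurable_fst).mul (hmi.comp pc_meas)
  have h2 := (lintegral_eq_zero_iff (hmm.lintegral_prod_right' (ν :=
    volume.restrict (Ioo (0 : ℝ) (2 * Real.pi))))).1 h1.symm
  refine lintegral_congr_ae ?_
  filter_upwards [h2, ae_restrict_mem measurableSet_Ioo] with r hr hr1
  have h3 : Measurable (fun θ : ℝ => ENNReal.ofReal r *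
      N.indicator (fun _ => (1 : ENNReal)) (pc r θ)) := hmm.comp measurable_prodMk_left
  have h4 := (lintegral_eq_zero_iff h3).1 hr
  refine lintegral_congr_ae ?_
  filter_upwards [h4] with θ hθ
  have h5 : pc r θ ∉ N := by
    intro hc
    simp only [Pi.zero_apply, indicator_of_mem hc, mul_one, ENNReal.ofReal_eq_zero] at hθ
    exact absurd hr1.1 (not_lt.2 hθ)
  have h6 : g (pc r θ) = g' (pc r θ) := by
    by_contra hc
    exact h5 (hsub hc)
  rw [h6]

end IPC

theorem pr_PC : StPC := by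
  intro N Ω f F a h hC hm
  have hinj : InjOn F (Metric.ball 0 1) := by
    intro w hw w' hw' hww
    rw [← hC.fF w hw, ← hC.fF w' hw', hww]
  have himg : F '' (Metric.ball 0 1) = Ω := by
    ext z
    constructor
    · rintro ⟨w, hw, rfl⟩
      exact hC.Fm hw
    · intro hz
      exact ⟨f z, hC.fm hz, hC.Ff z hz⟩
  rw [← himg, IPC.cov hC.Fd hinj h]
  have hdm : AEMeasurable (fun w => ENNReal.ofReal (‖deriv F w‖ ^ 2))
      (volume.restrict (Metric.ball (0 : ℂ) 1)) := by
    have h1 : ContinuousOn (deriv F) (Metric.ball 0 1) :=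
      (hC.Fd.deriv Metric.isOpen_ball).continuousOn
    have h2 : ContinuousOn (fun w => ENNReal.ofReal (‖deriv F w‖ ^ 2)) (Metric.ball 0 1) :=
      ENNReal.continuous_ofReal.comp_continuousOn ((h1.norm).pow 2)
    exact h2.aemeasurable Metric.isOpen_ball.measurableSet
  have hp := IPC.polar (hdm.mul hm)
  simp only [Pi.mul_apply] at hp
  rw [hp]
  refine setLIntegral_congr_fun measurableSet_Ioo (fun r hr => ?_)
  refine lintegral_congr (fun θ => ?_)
  rw [← mul_assoc, ← ENNReal.ofReal_mul hr.1.le]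

end Pool.Agent.MFK.NF
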