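import Pool.Agent.Work.MP_8826fd_mp.NF.Gk

/-! Item [8826fd NF Q] (helper82): the quadratic form of the variance. -/

set_option autoImplicit false

namespace Pool.Agent.MFK.NF

open MeasureTheory Set Filter Topology

namespace IQ

open scoped ENNReal

/-- shift of a sum. -/
theorem shift (h : ℕ → ℝ≥0∞) (m : ℕ) :
    ∑' l : ℕ, h (l + m) = ∑' j : ℕ, if m ≤ j then h j else 0 := by
  have hg : Function.Injective (fun l : ℕ => l + m) := fun a b hab => Nat.add_right_cancel hab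
  have hf : Function.support (fun j : ℕ => if m ≤ j then h j else 0) ⊆
      Set.range (fun l : ℕ => l + m) := by
    intro j hj
    by_cases hm : m ≤ j
    · exact ⟨j - m, Nat.sub_add_cancel hm⟩
    · exact absurd (if_neg hm) hj
  rw [← hg.tsum_eq hf]
  refine tsum_congr fun l => ?_
  rw [if_pos (Nat.le_add_left m l)]

/-- number of multiples. -/
theorem count (N j : ℕ) :
    ∑' n : ℕ, (if N ∣ n + 1 ∧ n + 1 ≤ j then (1 : ℝ≥0∞) else 0) = ((j / N : ℕ) : ℝ≥0∞) := by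
  rw [tsum_eq_sum (s := Finset.range j)]
  · rw [← Nat.card_multiples j N, Finset.card_filter, Nat.cast_sum]
    refine Finset.sum_congr rfl fun n hn => ?_
    have hn' : n + 1 ≤ j := Finset.mem_range.mp hn
    by_cases h : N ∣ n + 1
    · rw [if_pos ⟨h, hn'⟩, if_pos h]; simp
    · rw [if_neg (fun h' => h h'.1), if_neg h]; simp
  · intro n hn
    refine if_neg ?_
    rintro ⟨_, h⟩
    exact hn (Finset.mem_range.mpr h)

/-- `C_j = j x_j²`. -/
noncomputable def C (x : ℕ → ℝ) (j : ℕ) : ℝ≥0∞ := ENNReal.ofReal (j * x j ^ 2)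

/-- `1/(a+b)`. -/
noncomputable def D (a b : ℕ) : ℝ≥0∞ := ENNReal.ofReal (1 / ((a : ℝ) + b))

open Classical in
/-- the majorant. -/
noncomputable def G (N : ℕ) (x : ℕ → ℝ) (n k l : ℕ) : ℝ≥0∞ :=
  if N ∣ n + 1 then C x k * (C x (l + (n + 1)) * D k (l + (n + 1))) else 0

theorem real_bound (x : ℕ → ℝ) (hx : ∀ j, 0 ≤ x j) (n k l : ℕ) :
    kap x (n + 1) k * kap x (n + 1) l / (k + l + (n + 1)) ≤
      (((k : ℝ) * x k ^ 2) * ((((l + (n + 1) : ℕ) : ℝ) * x (l + (n + 1)) ^ 2) *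
          (1 / ((k : ℝ) + (l + (n + 1) : ℕ)))) +
        ((l : ℝ) * x l ^ 2) * ((((k + (n + 1) : ℕ) : ℝ) * x (k + (n + 1)) ^ 2) *
          (1 / ((l : ℝ) + (k + (n + 1) : ℕ))))) / 2 := by
  have hpos : (0 : ℝ) < (k : ℝ) + l + (n + 1) := by positivity
  have e1 : (k : ℝ) + ((l + (n + 1) : ℕ) : ℝ) = (k : ℝ) + l + (n + 1) := by push_cast; ring
  have e2 : (l : ℝ) + ((k + (n + 1) : ℕ) : ℝ) = (k : ℝ) + l + (n + 1) := by push_cast; ring
  rw [e1, e2]
  unfold kap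
  set a := x k
  set b := x l
  set u := x (k + (n + 1))
  set v := x (l + (n + 1))
  have ha : 0 ≤ a := hx _
  have hb : 0 ≤ b := hx _
  have hu : 0 ≤ u := hx _
  have hv : 0 ≤ v := hx _
  have hk : (0 : ℝ) ≤ k := Nat.cast_nonneg k
  have hl : (0 : ℝ) ≤ l := Nat.cast_nonneg l
  have hn : (0 : ℝ) ≤ (n : ℝ) + 1 := by positivity
  have e3 : (((k : ℝ) * a ^ 2) * ((((l + (n + 1) : ℕ) : ℝ) * v ^ 2) *
          (1 / ((k : ℝ) + l + (n + 1)))) +
        ((l : ℝ) * b ^ 2) * ((((k + (n + 1) : ℕ) : ℝ) * u ^ 2) *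
          (1 / ((k : ℝ) + l + (n + 1))))) / 2 =
      ((((k : ℝ) * a ^ 2) * (((l : ℝ) + (n + 1)) * v ^ 2) +
        ((l : ℝ) * b ^ 2) * (((k : ℝ) + (n + 1)) * u ^ 2)) / 2) / ((k : ℝ) + l + (n + 1)) := by
    push_cast
    field_simp
  rw [e3]
  refine div_le_div_of_nonneg_right ?_ hpos.le
  have h1 : 0 ≤ (k : ℝ) * l * (a * v - b * u) ^ 2 := by positivity
  have h2 : 0 ≤ (k : ℝ) * a ^ 2 * (((n : ℝ) + 1) * v ^ 2) := by positivity
  have h3 : 0 ≤ (l : ℝ) * b ^ 2 * (((n : ℝ) + 1) * u ^ 2) := by positivity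
  nlinarith [h1, h2, h3]

theorem kap_zero (N : ℕ) (x : ℕ → ℝ) (h : ∀ j, x j ≠ 0 → j % N = 1) (n k : ℕ)
    (hn : ¬ N ∣ n + 1) : kap x (n + 1) k = 0 := by
  unfold kap
  by_contra hc
  have h1 : x k ≠ 0 := fun e => hc (by rw [e]; ring)
  have h2 : x (k + (n + 1)) ≠ 0 := fun e => hc (by rw [e]; ring)
  apply hn
  have h3 : (k + (n + 1)) ≡ k [MOD N] := by
    unfold Nat.ModEq
    rw [h _ h1, h _ h2]
  have h4 : (k + (n + 1)) ≡ (k + 0) [MOD N] := by simpa using h3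
  have h5 : (n + 1) ≡ 0 [MOD N] := Nat.ModEq.add_left_cancel' k h4
  exact (Nat.modEq_zero_iff_dvd).mp h5

theorem term_le (N : ℕ) (x : ℕ → ℝ) (hx : ∀ j, 0 ≤ x j) (h : ∀ j, x j ≠ 0 → j % N = 1)
    (n k l : ℕ) :
    ENNReal.ofReal (kap x (n + 1) k * kap x (n + 1) l / (k + l + (n + 1))) ≤
      2⁻¹ * (G N x n k l + G N x n l k) := by
  by_cases hn : N ∣ n + 1
  · unfold G
    rw [if_pos hn, if_pos hn]
    unfold C D
    have p1 : (0 : ℝ) ≤ (k : ℝ) * x k ^ 2 := by positivity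
    have p2 : (0 : ℝ) ≤ ((l + (n + 1) : ℕ) : ℝ) * x (l + (n + 1)) ^ 2 := by positivity
    have p3 : (0 : ℝ) ≤ (l : ℝ) * x l ^ 2 := by positivity
    have p4 : (0 : ℝ) ≤ ((k + (n + 1) : ℕ) : ℝ) * x (k + (n + 1)) ^ 2 := by positivity
    have p5 : (0 : ℝ) ≤ 1 / ((k : ℝ) + (l + (n + 1) : ℕ)) := by positivity
    have p6 : (0 : ℝ) ≤ 1 / ((l : ℝ) + (k + (n + 1) : ℕ)) := by positivity
    have e2 : (2⁻¹ : ℝ≥0∞) = ENNReal.ofReal (1 / 2) := by
      rw [one_div, ENNReal.ofReal_inv_of_pos (by norm_num)]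
      simp
    rw [← ENNReal.ofReal_mul p2, ← ENNReal.ofReal_mul p1, ← ENNReal.ofReal_mul p4,
      ← ENNReal.ofReal_mul p3, ← ENNReal.ofReal_add (mul_nonneg p1 (mul_nonneg p2 p5))
        (mul_nonneg p3 (mul_nonneg p4 p6)), e2, ← ENNReal.ofReal_mul (by norm_num)]
    refine ENNReal.ofReal_le_ofReal ?_
    have := real_bound x hx n k l
    linarith
  · rw [kap_zero N x h n k hn]
    simp

theorem inner_le (N : ℕ) (hN : 2 ≤ N) (x : ℕ → ℝ) (k : ℕ) :
    ∑' n : ℕ, ∑' l : ℕ, G N x n k l ≤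
      C x k * (ENNReal.ofReal (1 / N) * ∑' j : ℕ, C x (j + 2)) := by
  have e1 : ∀ n : ℕ, ∑' l : ℕ, G N x n k l =
      C x k * ∑' j : ℕ, (if N ∣ n + 1 ∧ n + 1 ≤ j then C x j * D k j else 0) := by
    intro n
    by_cases hn : N ∣ n + 1
    · have e2 : ∀ j : ℕ, (if N ∣ n + 1 ∧ n + 1 ≤ j then C x j * D k j else 0) =
          if n + 1 ≤ j then C x j * D k j else 0 := by
        intro j
        simp only [hn, true_and]
      simp only [e2]
      rw [← shift (fun j => C x j * D k j) (n + 1), ← ENNReal.tsum_mul_left]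
      refine tsum_congr fun l => ?_
      unfold G
      rw [if_pos hn]
    · have e2 : ∀ j : ℕ, (if N ∣ n + 1 ∧ n + 1 ≤ j then C x j * D k j else 0) = 0 := by
        intro j
        exact if_neg (fun h => hn h.1)
      simp only [e2]
      have e3 : ∀ l : ℕ, G N x n k l = 0 := by
        intro l
        unfold G
        exact if_neg hn
      simp only [e3]
      simp
  simp only [e1]
  rw [ENNReal.tsum_mul_left, ENNReal.tsum_comm]
  refine mul_le_mul_right ?_ _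
  have e4 : ∀ j : ℕ, ∑' n : ℕ, (if N ∣ n + 1 ∧ n + 1 ≤ j then C x j * D k j else 0) =
      C x j * D k j * ((j / N : ℕ) : ℝ≥0∞) := by
    intro j
    rw [← count N j, ← ENNReal.tsum_mul_left]
    refine tsum_congr fun n => ?_
    split_ifs <;> simp
  simp only [e4]
  rw [← ENNReal.tsum_mul_left, shift (fun j => ENNReal.ofReal (1 / N) * C x j) 2]
  refine ENNReal.tsum_le_tsum fun j => ?_
  by_cases hj : 2 ≤ j
  · rw [if_pos hj]
    have hNpos : (0 : ℝ) < N := by exact_mod_cast (by omega : 0 < N)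
    have hjpos : (0 : ℝ) < j := by exact_mod_cast (by omega : 0 < j)
    have hk : (0 : ℝ) ≤ k := Nat.cast_nonneg k
    have h1 : D k j * ((j / N : ℕ) : ℝ≥0∞) ≤ ENNReal.ofReal (1 / N) := by
      unfold D
      rw [← ENNReal.ofReal_natCast (j / N), ← ENNReal.ofReal_mul (by positivity)]
      refine ENNReal.ofReal_le_ofReal ?_
      have h2 : ((j / N : ℕ) : ℝ) ≤ (j : ℝ) / N := Nat.cast_div_le
      calc 1 / ((k : ℝ) + j) * ((j / N : ℕ) : ℝ)
          ≤ 1 / ((k : ℝ) + j) * ((j : ℝ) / N) := mul_le_mul_of_nonneg_left h2 (by positivity)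
        _ = ((j : ℝ) / ((k : ℝ) + j)) * (1 / N) := by field_simp
        _ ≤ 1 * (1 / N) := by
            refine mul_le_mul_of_nonneg_right ?_ (by positivity)
            rw [div_le_one (by positivity)]
            linarith
        _ = 1 / N := one_mul _
    calc C x j * D k j * ((j / N : ℕ) : ℝ≥0∞) = C x j * (D k j * ((j / N : ℕ) : ℝ≥0∞)) := by ring
      _ ≤ C x j * ENNReal.ofReal (1 / N) := mul_le_mul_right h1 _
      _ = ENNReal.ofReal (1 / N) * C x j := mul_comm _ _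
  · rw [if_neg hj]
    have h0 : j / N = 0 := Nat.div_eq_of_lt (by omega)
    rw [h0]
    simp

end IQ

open IQ in
theorem pr_Q : StQ := by
  intro N x hN hx h hsum
  have h1 : ∀ n : ℕ, (∑' k : ℕ, ∑' l : ℕ,
      ENNReal.ofReal (kap x (n + 1) k * kap x (n + 1) l / (k + l + (n + 1)))) ≤
      ∑' k : ℕ, ∑' l : ℕ, G N x n k l := by
    intro n
    have h2 : (∑' k : ℕ, ∑' l : ℕ,
        ENNReal.ofReal (kap x (n + 1) k * kap x (n + 1) l / (k + l + (n + 1)))) ≤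
        ∑' k : ℕ, ∑' l : ℕ, 2⁻¹ * (G N x n k l + G N x n l k) :=
      ENNReal.tsum_le_tsum fun k => ENNReal.tsum_le_tsum fun l => term_le N x hx h n k l
    refine h2.trans (le_of_eq ?_)
    have h3 : ∑' k : ℕ, ∑' l : ℕ, G N x n l k = ∑' k : ℕ, ∑' l : ℕ, G N x n k l :=
      ENNReal.tsum_comm
    simp only [ENNReal.tsum_mul_left, ENNReal.tsum_add]
    rw [h3, ← two_mul, ← mul_assoc, ENNReal.inv_mul_cancel (by norm_num) (by norm_num), one_mul]
  calc (∑' n : ℕ, ∑' k : ℕ, ∑' l : ℕ,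
        ENNReal.ofReal (kap x (n + 1) k * kap x (n + 1) l / (k + l + (n + 1))))
      ≤ ∑' n : ℕ, ∑' k : ℕ, ∑' l : ℕ, G N x n k l := ENNReal.tsum_le_tsum h1
    _ = ∑' k : ℕ, ∑' n : ℕ, ∑' l : ℕ, G N x n k l := ENNReal.tsum_comm
    _ ≤ ∑' k : ℕ, C x k * (ENNReal.ofReal (1 / N) * ∑' j : ℕ, C x (j + 2)) :=
        ENNReal.tsum_le_tsum fun k => inner_le N hN x k
    _ = (∑' k : ℕ, C x k) * (ENNReal.ofReal (1 / N) * ∑' j : ℕ, C x (j + 2)) :=
        ENNReal.tsum_mul_right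
    _ = ENNReal.ofReal (1 / N) * ∑' j : ℕ, C x (j + 2) := by
        have : ∑' k : ℕ, C x k = 1 := hsum
        rw [this, one_mul]

end Pool.Agent.MFK.NF
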