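import Pool.Agent.Work.MP_8826fd_mp.NF.Gk

/-!
# MP_8826fd_mp, block NF, item Den: energy density of the test function
-/

set_option autoImplicit false

namespace Pool.Agent.MFK.NF

open MeasureTheory Set Filter Topology

namespace IDen

lemma contDiff_vt (k : ℕ) {Ψ : ℝ → ℝ} (hΨ : ContDiff ℝ 2 Ψ) : ContDiff ℝ 1 (vt k Ψ) := by
  have h1 : ContDiff ℝ 1 (fun w : ℂ => w ^ k) := contDiff_id.pow k
  have h2 : ContDiff ℝ 1 (fun w : ℂ => ‖w‖ ^ 2) := contDiff_norm_sq ℝ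
  have h3 : ContDiff ℝ 1 (fun w : ℂ => Ψ (‖w‖ ^ 2)) := (hΨ.of_le (by norm_num)).comp h2
  have h4 : ContDiff ℝ 1 (fun w : ℂ => ((Ψ (‖w‖ ^ 2) : ℝ) : ℂ)) :=
    Complex.ofRealCLM.contDiff.comp h3
  exact h1.mul h4

lemma pc_mem {r : ℝ} (hr : r ∈ Ioo (0 : ℝ) 1) (θ : ℝ) : pc r θ ∈ Metric.ball (0 : ℂ) 1 := by
  rw [mem_ball_zero_iff]
  unfold pc
  rw [norm_mul, Complex.norm_real, mul_comm Complex.I, Complex.norm_exp_ofReal_mul_I, mul_one,
    Real.norm_eq_abs, abs_of_pos hr.1]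
  exact hr.2

lemma norm_pc (r θ : ℝ) : ‖pc r θ‖ ^ 2 = r ^ 2 := by
  unfold pc
  rw [norm_mul, Complex.norm_real, mul_comm Complex.I, Complex.norm_exp_ofReal_mul_I, mul_one,
    Real.norm_eq_abs, sq_abs]

lemma vt_pc (k : ℕ) (Ψ : ℝ → ℝ) (r θ : ℝ) : vt k Ψ (pc r θ) =
    ((radf (k : ℤ) Ψ r : ℝ) : ℂ) * Complex.exp (Complex.I * θ) ^ k := by
  unfold vt radf
  rw [norm_pc]
  unfold pc
  rw [Int.natAbs_natCast]
  push_cast
  ring

lemma pc_r (r θ : ℝ) : HasDerivAt (fun s : ℝ => pc s θ) (Complex.exp (Complex.I * θ)) r := by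
  unfold pc
  have h := (Complex.ofRealCLM.hasDerivAt (x := r)).mul_const (Complex.exp (Complex.I * θ))
  simpa using h

lemma exp_t (θ : ℝ) : HasDerivAt (fun s : ℝ => Complex.exp (Complex.I * s))
    (Complex.I * Complex.exp (Complex.I * θ)) θ := by
  have h1 : HasDerivAt (fun s : ℝ => Complex.I * (s : ℂ)) Complex.I θ := by
    have := (Complex.ofRealCLM.hasDerivAt (x := θ)).const_mul Complex.I
    simpa using this
  have h2 := h1.cexp
  rw [mul_comm] at h2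
  exact h2

lemma pc_t (r θ : ℝ) : HasDerivAt (fun s : ℝ => pc r s)
    ((r : ℂ) * (Complex.I * Complex.exp (Complex.I * θ))) θ := by
  unfold pc
  exact (exp_t θ).const_mul _

lemma radf_diff (k : ℕ) {Ψ : ℝ → ℝ} (hΨ : ContDiff ℝ 2 Ψ) (r : ℝ) :
    HasDerivAt (radf (k : ℤ) Ψ) (deriv (radf (k : ℤ) Ψ) r) r := by
  have h : Differentiable ℝ (radf (k : ℤ) Ψ) := by
    unfold radf
    have h1 : Differentiable ℝ (fun r : ℝ => r ^ 2) := differentiable_id.pow 2
    exact (differentiable_id.pow _).mul ((hΨ.differentiable (by norm_num)).comp h1)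
  exact (h r).hasDerivAt

/-- the derivative of `vt` in the radial direction -/
lemma vt_r (k : ℕ) {Ψ : ℝ → ℝ} (hΨ : ContDiff ℝ 2 Ψ) (r θ : ℝ) :
    fderiv ℝ (vt k Ψ) (pc r θ) (Complex.exp (Complex.I * θ)) =
      ((deriv (radf (k : ℤ) Ψ) r : ℝ) : ℂ) * Complex.exp (Complex.I * θ) ^ k := by
  have hd : HasFDerivAt (vt k Ψ) (fderiv ℝ (vt k Ψ) (pc r θ)) (pc r θ) :=
    ((contDiff_vt k hΨ).differentiable (by norm_num) _).hasFDerivAt
  have h1 := hd.comp_hasDerivAt r (pc_r r θ)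
  have h2 : HasDerivAt (fun s : ℝ => ((radf (k : ℤ) Ψ s : ℝ) : ℂ) *
      Complex.exp (Complex.I * θ) ^ k)
      (((deriv (radf (k : ℤ) Ψ) r : ℝ) : ℂ) * Complex.exp (Complex.I * θ) ^ k) r :=
    (radf_diff k hΨ r).ofReal_comp.mul_const _
  have h3 : (vt k Ψ ∘ fun s : ℝ => pc s θ) = (fun s : ℝ => ((radf (k : ℤ) Ψ s : ℝ) : ℂ) *
      Complex.exp (Complex.I * θ) ^ k) := by
    funext s
    exact vt_pc k Ψ s θ
  rw [h3] at h1
  exact h1.unique h2

/-- the derivative of `vt` in the angular direction -/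
lemma vt_t (k : ℕ) {Ψ : ℝ → ℝ} (hΨ : ContDiff ℝ 2 Ψ) {r : ℝ} (hr : 0 < r) (θ : ℝ) :
    fderiv ℝ (vt k Ψ) (pc r θ) (Complex.I * Complex.exp (Complex.I * θ)) =
      Complex.I * ((k / r * radf (k : ℤ) Ψ r : ℝ) : ℂ) * Complex.exp (Complex.I * θ) ^ k := by
  have hd : HasFDerivAt (vt k Ψ) (fderiv ℝ (vt k Ψ) (pc r θ)) (pc r θ) :=
    ((contDiff_vt k hΨ).differentiable (by norm_num) _).hasFDerivAt
  have h1 := hd.comp_hasDerivAt θ (pc_t r θ)
  have h2 : HasDerivAt (fun s : ℝ => ((radf (k : ℤ) Ψ r : ℝ) : ℂ) *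
      Complex.exp (Complex.I * s) ^ k)
      (((radf (k : ℤ) Ψ r : ℝ) : ℂ) * (Complex.I * k * Complex.exp (Complex.I * θ) ^ k)) θ := by
    have h5 : ∀ s : ℝ, Complex.exp (Complex.I * s) ^ k = Complex.exp (Complex.I * ((k * s : ℝ) : ℂ)) := by
      intro s
      rw [← Complex.exp_nat_mul]
      congr 1
      push_cast
      ring
    have h6 : HasDerivAt (fun s : ℝ => Complex.exp (Complex.I * ((k * s : ℝ) : ℂ)))
        ((k : ℝ) • (Complex.I * Complex.exp (Complex.I * ((k * θ : ℝ) : ℂ)))) θ := by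
      have h7 : HasDerivAt (fun s : ℝ => (k : ℝ) * s) (k : ℝ) θ := by
        simpa using (hasDerivAt_id θ).const_mul (k : ℝ)
      exact (exp_t ((k : ℝ) * θ)).scomp θ h7
    have h8 : (fun s : ℝ => ((radf (k : ℤ) Ψ r : ℝ) : ℂ) * Complex.exp (Complex.I * s) ^ k) =
        fun s : ℝ => ((radf (k : ℤ) Ψ r : ℝ) : ℂ) * Complex.exp (Complex.I * ((k * s : ℝ) : ℂ)) := by
      funext s
      rw [h5]
    rw [h8, h5]
    have h9 := h6.const_mul ((radf (k : ℤ) Ψ r : ℝ) : ℂ)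
    rw [Complex.real_smul] at h9
    have h10 : ((radf (k : ℤ) Ψ r : ℝ) : ℂ) * (((k : ℝ) : ℂ) *
        (Complex.I * Complex.exp (Complex.I * ((k * θ : ℝ) : ℂ)))) =
        ((radf (k : ℤ) Ψ r : ℝ) : ℂ) * (Complex.I * k *
          Complex.exp (Complex.I * ((k * θ : ℝ) : ℂ))) := by
      push_cast
      ring
    rw [h10] at h9
    exact h9
  have h3 : (vt k Ψ ∘ fun s : ℝ => pc r s) = (fun s : ℝ => ((radf (k : ℤ) Ψ r : ℝ) : ℂ) *
      Complex.exp (Complex.I * s) ^ k) := by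
    funext s
    exact vt_pc k Ψ r s
  rw [h3] at h1
  have h4 := h1.unique h2
  have h5 : fderiv ℝ (vt k Ψ) (pc r θ) ((r : ℂ) * (Complex.I * Complex.exp (Complex.I * θ))) =
      (r : ℂ) * fderiv ℝ (vt k Ψ) (pc r θ) (Complex.I * Complex.exp (Complex.I * θ)) := by
    rw [← Complex.real_smul, map_smul, Complex.real_smul]
  rw [h5] at h4
  have hr' : (r : ℂ) ≠ 0 := by exact_mod_cast hr.ne'
  apply mul_left_cancel₀ hr'
  rw [h4]
  push_cast
  field_simp

/-- conformal invariance of the sum of squares -/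
lemma conf (L : ℂ → ℂ) (hL : ∀ a b : ℝ, L (a + b * Complex.I) = a * L 1 + b * L Complex.I)
    (c : ℂ) : ‖L c‖ ^ 2 + ‖L (Complex.I * c)‖ ^ 2 = ‖c‖ ^ 2 * (‖L 1‖ ^ 2 + ‖L Complex.I‖ ^ 2) := by
  have h1 : L c = (c.re : ℂ) * L 1 + (c.im : ℂ) * L Complex.I := by
    conv_lhs => rw [← Complex.re_add_im c]
    exact hL c.re c.im
  have h2 : L (Complex.I * c) = ((-c.im : ℝ) : ℂ) * L 1 + (c.re : ℂ) * L Complex.I := by
    have h3 : Complex.I * c = ((-c.im : ℝ) : ℂ) + (c.re : ℂ) * Complex.I := by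
      conv_lhs => rw [← Complex.re_add_im c]
      push_cast
      have := Complex.I_mul_I
      linear_combination (c.im : ℂ) * this
    rw [h3]
    exact hL (-c.im) c.re
  rw [h1, h2]
  simp only [Complex.sq_norm, Complex.normSq_apply]
  simp
  ring

end IDen

open IDen

theorem pr_Den : StDen := by
  intro N Ω f F a φ B k Ψ hC hG hΨ
  have hvt := contDiff_vt k hΨ
  have hfc : ContDiffOn ℝ 1 f Ω := (hC.fd.contDiffOn hC.opn).restrict_scalars ℝ
  have hφf : ContDiffOn ℝ 1 (fun z => φ (f z)) Ω := hG.sm.comp hfc hC.fm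
  have hU : ContDiffOn ℝ 1 (UT B k Ψ φ f) Ω := by
    unfold UT
    refine ContDiffOn.mul (hvt.comp_contDiffOn hfc) ?_
    refine ContDiffOn.cexp ?_
    refine contDiffOn_const.mul ?_
    exact Complex.ofRealCLM.contDiff.comp_contDiffOn (contDiffOn_const.mul hφf)
  refine ⟨hU, ?_⟩
  intro r hr θ
  set w := pc r θ with hw
  have hwb : w ∈ Metric.ball (0 : ℂ) 1 := pc_mem hr θ
  set z := F w with hz
  have hzΩ : z ∈ Ω := hC.Fm hwb
  set e := Complex.exp (Complex.I * θ) with he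
  have hen : ‖e‖ = 1 := by
    rw [he, mul_comm, Complex.norm_exp_ofReal_mul_I]
  have hfz : f z = w := hC.fF w hwb
  -- derivatives
  have hUd : HasFDerivAt (UT B k Ψ φ f) (fderiv ℝ (UT B k Ψ φ f) z) z :=
    ((hU.contDiffAt (hC.opn.mem_nhds hzΩ)).differentiableAt (by norm_num)).hasFDerivAt
  have hFd : HasDerivAt F (deriv F w) w :=
    (hC.Fd.differentiableAt (Metric.isOpen_ball.mem_nhds hwb)).hasDerivAt
  have hFr : HasFDerivAt F ((ContinuousLinearMap.toSpanSingleton ℂ (deriv F w)).restrictScalars ℝ) w :=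
    hFd.hasFDerivAt.restrictScalars ℝ
  have hcomp := HasFDerivAt.comp w (show HasFDerivAt (UT B k Ψ φ f)
    (fderiv ℝ (UT B k Ψ φ f) z) (F w) from hUd) hFr
  have hφd : HasFDerivAt φ (fderiv ℝ φ w) w :=
    ((hG.sm.contDiffAt (Metric.isOpen_ball.mem_nhds hwb)).differentiableAt
      (by norm_num)).hasFDerivAt
  have hvd : HasFDerivAt (vt k Ψ) (fderiv ℝ (vt k Ψ) w) w :=
    (hvt.differentiable (by norm_num) w).hasFDerivAt
  set ph : ℂ := Complex.exp (Complex.I * ((B * φ w : ℝ) : ℂ)) with hph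
  have hphn : ‖ph‖ = 1 := by
    rw [hph, mul_comm, Complex.norm_exp_ofReal_mul_I]
  have hdir : ∀ h : ℂ, fderiv ℝ (UT B k Ψ φ f) z (deriv F w * h) =
      ph * (fderiv ℝ (vt k Ψ) w h + Complex.I * ((B * fderiv ℝ φ w h : ℝ) : ℂ) * vt k Ψ w) := by
    intro h
    -- compare along the line `w + s h`
    have hline : HasDerivAt (fun s : ℝ => w + (s : ℂ) * h) h 0 := by
      have := ((Complex.ofRealCLM.hasDerivAt (x := (0 : ℝ))).mul_const h).const_add w
      simpa using this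
    have hw0 : w + ((0 : ℝ) : ℂ) * h = w := by simp
    have e1 : HasDerivAt (fun s : ℝ => UT B k Ψ φ f (F (w + (s : ℂ) * h)))
        (fderiv ℝ (UT B k Ψ φ f) z (deriv F w * h)) 0 := by
      have h1 : HasFDerivAt (UT B k Ψ φ f ∘ F) ((fderiv ℝ (UT B k Ψ φ f) z).comp
          ((ContinuousLinearMap.toSpanSingleton ℂ (deriv F w)).restrictScalars ℝ))
          (w + ((0 : ℝ) : ℂ) * h) := by rw [hw0]; exact hcomp
      have h2 := h1.comp_hasDerivAt (0 : ℝ) hline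
      have h3 : ((fderiv ℝ (UT B k Ψ φ f) z).comp
          ((ContinuousLinearMap.toSpanSingleton ℂ (deriv F w)).restrictScalars ℝ)) h =
          fderiv ℝ (UT B k Ψ φ f) z (deriv F w * h) := by
        simp [mul_comm]
      rw [h3] at h2
      exact h2
    have e2 : HasDerivAt (fun s : ℝ => vt k Ψ (w + (s : ℂ) * h) *
        Complex.exp (Complex.I * ((B * φ (w + (s : ℂ) * h) : ℝ) : ℂ)))
        (ph * (fderiv ℝ (vt k Ψ) w h +
          Complex.I * ((B * fderiv ℝ φ w h : ℝ) : ℂ) * vt k Ψ w)) 0 := by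
      have h1 : HasDerivAt (fun s : ℝ => vt k Ψ (w + (s : ℂ) * h)) (fderiv ℝ (vt k Ψ) w h) 0 := by
        have h2 : HasFDerivAt (vt k Ψ) (fderiv ℝ (vt k Ψ) w) (w + ((0 : ℝ) : ℂ) * h) := by
          rw [hw0]; exact hvd
        exact h2.comp_hasDerivAt (0 : ℝ) hline
      have h3 : HasDerivAt (fun s : ℝ => φ (w + (s : ℂ) * h)) (fderiv ℝ φ w h) 0 := by
        have h2 : HasFDerivAt φ (fderiv ℝ φ w) (w + ((0 : ℝ) : ℂ) * h) := by
          rw [hw0]; exact hφd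
        exact h2.comp_hasDerivAt (0 : ℝ) hline
      have h4 : HasDerivAt (fun s : ℝ => Complex.exp (Complex.I *
          ((B * φ (w + (s : ℂ) * h) : ℝ) : ℂ)))
          (Complex.exp (Complex.I * ((B * φ (w + ((0 : ℝ) : ℂ) * h) : ℝ) : ℂ)) *
            (Complex.I * ((B * fderiv ℝ φ w h : ℝ) : ℂ))) 0 :=
        (((h3.const_mul B).ofReal_comp).const_mul Complex.I).cexp
      have h5 := h1.mul h4
      rw [hw0] at h5
      have h6 : fderiv ℝ (vt k Ψ) w h * Complex.exp (Complex.I * ((B * φ w : ℝ) : ℂ)) +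
          vt k Ψ w * (Complex.exp (Complex.I * ((B * φ w : ℝ) : ℂ)) *
            (Complex.I * ((B * fderiv ℝ φ w h : ℝ) : ℂ))) =
          ph * (fderiv ℝ (vt k Ψ) w h +
            Complex.I * ((B * fderiv ℝ φ w h : ℝ) : ℂ) * vt k Ψ w) := by
        rw [hph]; ring
      rw [h6] at h5
      exact h5
    have e3 : (fun s : ℝ => UT B k Ψ φ f (F (w + (s : ℂ) * h))) =ᶠ[𝓝 (0 : ℝ)]
        (fun s : ℝ => vt k Ψ (w + (s : ℂ) * h) *
        Complex.exp (Complex.I * ((B * φ (w + (s : ℂ) * h) : ℝ) : ℂ))) := by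
      have h1 : ContinuousAt (fun s : ℝ => w + (s : ℂ) * h) 0 := hline.continuousAt
      have h2 : ∀ᶠ s : ℝ in 𝓝 (0 : ℝ), w + (s : ℂ) * h ∈ Metric.ball (0 : ℂ) 1 := by
        refine h1.eventually_mem (Metric.isOpen_ball.mem_nhds ?_)
        simpa using hwb
      filter_upwards [h2] with s hs
      unfold UT
      rw [hC.fF _ hs]
    exact (e1.congr_of_eventuallyEq e3.symm).unique e2
  have hUz : UT B k Ψ φ f z = vt k Ψ w * ph := by
    unfold UT
    rw [hfz]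
  -- the real linear map L
  have key : ∀ h : ℂ, fderiv ℝ (UT B k Ψ φ f) z (deriv F w * h) -
      Complex.I * ((B * AA z (deriv F w * h) : ℝ) : ℂ) * UT B k Ψ φ f z =
      ph * (fderiv ℝ (vt k Ψ) w h -
        Complex.I * ((B * (gg F w * ((starRingEnd ℂ) w * h).im) : ℝ) : ℂ) * vt k Ψ w) := by
    intro h
    rw [hdir h, hUz, hG.der w hwb h]
    push_cast
    ring
  set L : ℂ → ℂ := fun h => fderiv ℝ (UT B k Ψ φ f) z h -
      Complex.I * ((B * AA z h : ℝ) : ℂ) * UT B k Ψ φ f z with hLdef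
  have hLlin : ∀ a b : ℝ, L (a + b * Complex.I) = a * L 1 + b * L Complex.I := by
    intro a b
    have h1 : fderiv ℝ (UT B k Ψ φ f) z ((a : ℂ) + b * Complex.I) =
        a * fderiv ℝ (UT B k Ψ φ f) z 1 + b * fderiv ℝ (UT B k Ψ φ f) z Complex.I := by
      have h2 : (a : ℂ) + b * Complex.I = a • (1 : ℂ) + b • Complex.I := by
        rw [Complex.real_smul, Complex.real_smul, mul_one]
      rw [h2, map_add, map_smul, map_smul, Complex.real_smul, Complex.real_smul]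
    have h3 : AA z ((a : ℂ) + b * Complex.I) = a * AA z 1 + b * AA z Complex.I := by
      unfold AA
      simp
      ring
    simp only [hLdef]
    rw [h1, h3]
    push_cast
    ring
  have hconf := conf L hLlin (deriv F w * e)
  have hI : Complex.I * (deriv F w * e) = deriv F w * (Complex.I * e) := by ring
  rw [hI] at hconf
  have hL1 : L (deriv F w * e) = ph * (fderiv ℝ (vt k Ψ) w e -
        Complex.I * ((B * (gg F w * ((starRingEnd ℂ) w * e).im) : ℝ) : ℂ) * vt k Ψ w) := key e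
  have hL2 : L (deriv F w * (Complex.I * e)) = ph * (fderiv ℝ (vt k Ψ) w (Complex.I * e) -
        Complex.I * ((B * (gg F w * ((starRingEnd ℂ) w * (Complex.I * e)).im) : ℝ) : ℂ) *
          vt k Ψ w) := key (Complex.I * e)
  have hwe : (starRingEnd ℂ) w * e = (r : ℂ) := by
    have h1 : w = (r : ℂ) * e := rfl
    rw [h1, map_mul, Complex.conj_ofReal, mul_assoc]
    have h2 : (starRingEnd ℂ) e * e = 1 := by
      rw [mul_comm, Complex.mul_conj, Complex.normSq_eq_norm_sq, hen]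
      norm_num
    rw [h2, mul_one]
  have him1 : ((starRingEnd ℂ) w * e).im = 0 := by
    rw [hwe]
    exact Complex.ofReal_im r
  have him2 : ((starRingEnd ℂ) w * (Complex.I * e)).im = r := by
    have h1 : (starRingEnd ℂ) w * (Complex.I * e) = Complex.I * ((starRingEnd ℂ) w * e) := by ring
    rw [h1, hwe]
    simp
  rw [him1] at hL1
  rw [him2] at hL2
  have hvtw : vt k Ψ w = ((radf (k : ℤ) Ψ r : ℝ) : ℂ) * e ^ k := vt_pc k Ψ r θ
  rw [vt_r k hΨ r θ, hvtw] at hL1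
  rw [vt_t k hΨ hr.1 θ, hvtw] at hL2
  have hekn : ‖e ^ k‖ = 1 := by
    rw [norm_pow, hen, one_pow]
  have hn1 : ‖L (deriv F w * e)‖ ^ 2 = deriv (radf (k : ℤ) Ψ) r ^ 2 := by
    rw [hL1]
    have : ph * (((deriv (radf (k : ℤ) Ψ) r : ℝ) : ℂ) * e ^ k -
        Complex.I * ((B * (gg F w * 0) : ℝ) : ℂ) * (((radf (k : ℤ) Ψ r : ℝ) : ℂ) * e ^ k)) =
        ph * (((deriv (radf (k : ℤ) Ψ) r : ℝ) : ℂ) * e ^ k) := by
      simp
    rw [this, norm_mul, norm_mul, hphn, hekn, Complex.norm_real, one_mul, mul_one,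
      Real.norm_eq_abs, sq_abs]
  have hn2 : ‖L (deriv F w * (Complex.I * e))‖ ^ 2 =
      radf (k : ℤ) Ψ r ^ 2 * (k - B * bb F r θ) ^ 2 / r ^ 2 := by
    rw [hL2]
    have h1 : ph * (Complex.I * ((k / r * radf (k : ℤ) Ψ r : ℝ) : ℂ) * e ^ k -
        Complex.I * ((B * (gg F w * r) : ℝ) : ℂ) * (((radf (k : ℤ) Ψ r : ℝ) : ℂ) * e ^ k)) =
        ph * (Complex.I * ((radf (k : ℤ) Ψ r * (k / r - B * (gg F w * r)) : ℝ) : ℂ) * e ^ k) := by
      push_cast
      ring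
    rw [h1, norm_mul, norm_mul, norm_mul, hphn, hekn, Complex.norm_real, Complex.norm_I, one_mul,
      one_mul, mul_one, Real.norm_eq_abs, sq_abs]
    have h2 : bb F r θ = r ^ 2 * gg F w := rfl
    rw [h2]
    have hr0 : r ≠ 0 := hr.1.ne'
    field_simp
  refine ⟨?_, ?_⟩
  · rw [← hn1, ← hn2, hconf, norm_mul, hen, mul_one]
    rfl
  · rw [hUz, hvtw, norm_mul, norm_mul, hphn, hekn, Complex.norm_real, mul_one, mul_one,
      Real.norm_eq_abs, sq_abs]

end Pool.Agent.MFK.NF
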