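import Pool.Agent.Work.MP_8826fd_mp.NF.Gk

/-!
# MP_8826fd_mp, block NF: the theorem for domains of area `π` with centre `0`
-/

set_option autoImplicit false

namespace Pool.Agent.MFK.NF

open MeasureTheory Set Filter Topology

namespace IMU

theorem a0 {N : ℕ} {Ω : Set ℂ} {f F : ℂ → ℂ} {a : ℕ → ℂ} (h : CM N Ω f F a) : a 0 = 0 := by
  by_contra hc
  have := h.gap 0 hc
  rw [Nat.zero_mod] at this
  exact absurd this (by norm_num)

theorem agap {N : ℕ} {Ω : Set ℂ} {f F : ℂ → ℂ} {a : ℕ → ℂ} (h : CM N Ω f F a) {j : ℕ}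
    (h1 : 1 < j) (h2 : j ≤ N) : a j = 0 := by
  by_contra hc
  have h3 := h.gap j hc
  rcases Nat.lt_or_eq_of_le h2 with h4 | h4
  · rw [Nat.mod_eq_of_lt h4] at h3
    omega
  · rw [h4, Nat.mod_self] at h3
    omega

/-- the derivative at `0` is `a 1` -/
theorem deriv_zero {F : ℂ → ℂ} {a : ℕ → ℂ} (h : Hol F a) (h0 : a 0 = 0) : HasDerivAt F (a 1) 0 := by
  have hball : (1 / 2 : ℂ) ∈ Metric.ball (0 : ℂ) 1 := by
    rw [mem_ball_zero_iff]
    norm_num
  have hsum : Summable (fun j => ‖a j * (1 / 2 : ℂ) ^ j‖) := (h.ser _ hball).summable.norm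
  set K := ∑' j, ‖a j * (1 / 2 : ℂ) ^ j‖ with hK
  have hF0 : F 0 = 0 := by
    have h1 := h.ser 0 (by rw [mem_ball_zero_iff, norm_zero]; exact one_pos)
    have h2 : HasSum (fun j : ℕ => a j * (0 : ℂ) ^ j) 0 := by
      have h3 : (fun j : ℕ => a j * (0 : ℂ) ^ j) = fun _ => 0 := by
        funext j
        rcases Nat.eq_zero_or_pos j with hj | hj
        · rw [hj, h0, zero_mul]
        · rw [zero_pow hj.ne', mul_zero]
      rw [h3]
      exact hasSum_zero
    exact h1.unique h2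
  rw [hasDerivAt_iff_isLittleO_nhds_zero]
  have hO : (fun w : ℂ => F (0 + w) - F 0 - w • a 1) =O[𝓝 0] fun w => ‖w‖ ^ 2 := by
    refine Asymptotics.IsBigO.of_bound (4 * K) ?_
    have hb : Metric.ball (0 : ℂ) (1 / 2) ∈ 𝓝 (0 : ℂ) := Metric.ball_mem_nhds _ (by norm_num)
    filter_upwards [hb] with w hw
    rw [mem_ball_zero_iff] at hw
    have hw1 : w ∈ Metric.ball (0 : ℂ) 1 := by rw [mem_ball_zero_iff]; linarith
    have h1 := h.ser w hw1
    have h2 : HasSum (fun j : ℕ => a (j + 2) * w ^ (j + 2)) (F w - w * a 1) := by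
      have h3 := (hasSum_nat_add_iff' (f := fun j => a j * w ^ j) 2).2 h1
      rw [Finset.sum_range_succ, Finset.sum_range_one, h0, zero_mul, zero_add, pow_one] at h3
      rwa [mul_comm w (a 1)]
    rw [zero_add, hF0, sub_zero, smul_eq_mul, ← h2.tsum_eq, norm_pow, norm_norm]
    have h4 : ∀ j : ℕ, ‖a (j + 2) * w ^ (j + 2)‖ ≤ 4 * ‖w‖ ^ 2 * ‖a (j + 2) * (1 / 2 : ℂ) ^ (j + 2)‖ := by
      intro j
      rw [norm_mul, norm_mul, norm_pow, norm_pow, pow_add, pow_add]
      have h5 : ‖(1 / 2 : ℂ)‖ = 1 / 2 := by norm_num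
      rw [h5]
      have h6 : ‖w‖ ^ j ≤ (1 / 2) ^ j := pow_le_pow_left₀ (norm_nonneg w) hw.le j
      have h7 : ‖a (j + 2)‖ * (‖w‖ ^ j * ‖w‖ ^ 2) ≤ ‖a (j + 2)‖ * ((1 / 2) ^ j * ‖w‖ ^ 2) := by
        gcongr
      refine h7.trans (le_of_eq ?_)
      ring
    have hs2 : Summable (fun j : ℕ => 4 * ‖w‖ ^ 2 * ‖a (j + 2) * (1 / 2 : ℂ) ^ (j + 2)‖) :=
      ((summable_nat_add_iff 2).2 hsum).mul_left _
    have hs1 : Summable (fun j : ℕ => ‖a (j + 2) * w ^ (j + 2)‖) :=
      Summable.of_nonneg_of_le (fun j => norm_nonneg _) h4 hs2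
    calc ‖∑' j : ℕ, a (j + 2) * w ^ (j + 2)‖ ≤ ∑' j : ℕ, ‖a (j + 2) * w ^ (j + 2)‖ :=
          norm_tsum_le_tsum_norm hs1
      _ ≤ ∑' j : ℕ, 4 * ‖w‖ ^ 2 * ‖a (j + 2) * (1 / 2 : ℂ) ^ (j + 2)‖ := hs1.tsum_le_tsum h4 hs2
      _ = 4 * ‖w‖ ^ 2 * ∑' j : ℕ, ‖a (j + 2) * (1 / 2 : ℂ) ^ (j + 2)‖ := tsum_mul_left
      _ ≤ 4 * ‖w‖ ^ 2 * K := by
          gcongr
          rw [hK, ← hsum.sum_add_tsum_nat_add 2]
          have : 0 ≤ ∑ i ∈ Finset.range 2, ‖a i * (1 / 2 : ℂ) ^ i‖ :=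
            Finset.sum_nonneg fun i _ => norm_nonneg _
          linarith
      _ = 4 * K * ‖w‖ ^ 2 := by ring
  refine hO.trans_isLittleO ?_
  rw [Asymptotics.isLittleO_iff]
  intro c hc
  filter_upwards [Metric.ball_mem_nhds (0 : ℂ) hc] with w hw
  rw [mem_ball_zero_iff] at hw
  rw [norm_pow, norm_norm, pow_two]
  exact mul_le_mul_of_nonneg_right hw.le (norm_nonneg w)

theorem a1 {N : ℕ} {Ω : Set ℂ} {f F : ℂ → ℂ} {a : ℕ → ℂ} (h : CM N Ω f F a) : a 1 ≠ 0 := by
  have h0 : (0 : ℂ) ∈ Metric.ball (0 : ℂ) 1 := Metric.mem_ball_self one_pos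
  have h1 := deriv_zero h.toHol (a0 h)
  have h2 : DifferentiableAt ℂ f (F 0) := (h.fd (F 0) (h.Fm h0)).differentiableAt (h.opn.mem_nhds (h.Fm h0))
  have h3 : HasDerivAt (f ∘ F) (deriv f (F 0) * a 1) 0 := h2.hasDerivAt.comp 0 h1
  have h4 : HasDerivAt (f ∘ F) 1 0 := by
    refine (hasDerivAt_id (0 : ℂ)).congr_of_eventuallyEq ?_
    filter_upwards [Metric.ball_mem_nhds (0 : ℂ) one_pos] with w hw
    exact h.fF w hw
  intro hc
  have h5 := h3.unique h4
  rw [hc, mul_zero] at h5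
  exact zero_ne_one h5

theorem cc_nonneg (a : ℕ → ℂ) (j : ℕ) : 0 ≤ cc a j := by unfold cc; positivity

theorem hasSum_cc {a : ℕ → ℂ} (h : (∑' j : ℕ, ENNReal.ofReal (cc a j)) = 1) : HasSum (cc a) 1 := by
  have h1 : (∑' j : ℕ, ENNReal.ofReal (cc a j)) ≠ ⊤ := by rw [h]; exact ENNReal.one_ne_top
  have h2 := ENNReal.summable_toReal h1
  have h3 : (fun j => (ENNReal.ofReal (cc a j)).toReal) = cc a := by
    funext j
    exact ENNReal.toReal_ofReal (cc_nonneg a j)
  rw [h3] at h2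
  have h4 := ENNReal.ofReal_tsum_of_nonneg (cc_nonneg a) h2
  rw [h] at h4
  have h5 : ∑' j, cc a j = 1 := by
    have h6 := congrArg ENNReal.toReal h4
    rw [ENNReal.toReal_ofReal (tsum_nonneg (cc_nonneg a)), ENNReal.toReal_one] at h6
    exact h6
  rw [← h5]
  exact h2.hasSum

theorem tail {a : ℕ → ℂ} (h : HasSum (cc a) 1) :
    (∑' j : ℕ, ENNReal.ofReal (cc a (j + 2))) = ENNReal.ofReal (1 - ‖a 1‖ ^ 2) := by
  have h1 := (summable_nat_add_iff 2).2 h.summable
  rw [← ENNReal.ofReal_tsum_of_nonneg (fun j => cc_nonneg a (j + 2)) h1]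
  congr 1
  have h2 := h.summable.sum_add_tsum_nat_add 2
  rw [Finset.sum_range_succ, Finset.sum_range_one, h.tsum_eq] at h2
  have e0 : cc a 0 = 0 := by unfold cc; simp
  have e1 : cc a 1 = ‖a 1‖ ^ 2 := by unfold cc; simp
  rw [e0, e1] at h2
  linarith

theorem cf {N : ℕ} {Ω : Set ℂ} {f F : ℂ → ℂ} {a : ℕ → ℂ} (h : CM N Ω f F a)
    (hs : HasSum (cc a) 1) : Cf N ‖a 1‖ (cc a) :=
  ⟨cc_nonneg a, by unfold cc; simp, by unfold cc; simp,
    fun j h1 h2 => by unfold cc; rw [agap h h1 h2]; simp, hs⟩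

/-- the scaled profile -/
noncomputable def Ps (B lam : ℝ) (k : ℕ) (s x : ℝ) : ℝ := s ^ k * FK B lam (k : ℤ) (s ^ 2 * x)

theorem radf_Ps (B lam : ℝ) (k : ℕ) (s r : ℝ) :
    radf (k : ℤ) (Ps B lam k s) r = gk B lam k (s * r) := by
  unfold radf Ps gk radf
  rw [Int.natAbs_natCast, mul_pow, mul_pow]
  ring

theorem Ps_smooth {B lam : ℝ} (hB : 0 < B) (hl : lam < B) (k : ℕ) (s : ℝ) :
    ContDiff ℝ 2 (Ps B lam k s) := by
  unfold Ps
  exact contDiff_const.mul ((gk_rad hB hl k).smooth.comp (contDiff_const.mul contDiff_id))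

theorem deriv_Ps {B lam : ℝ} (hB : 0 < B) (hl : lam < B) (k : ℕ) (s r : ℝ) :
    deriv (radf (k : ℤ) (Ps B lam k s)) r = s * deriv (gk B lam k) (s * r) := by
  have h1 : radf (k : ℤ) (Ps B lam k s) = fun r => gk B lam k (s * r) := by
    funext r
    exact radf_Ps B lam k s r
  rw [h1]
  have h2 : HasDerivAt (fun r : ℝ => s * r) s r := by
    simpa using (hasDerivAt_id' r).const_mul s
  have h3 := (gk_d1 hB hl k (s * r)).comp r h2
  rw [mul_comm]
  exact h3.deriv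

end IMU

open IMU in
theorem pr_MU (hUni : StUni) (hRad : StRad) (hGau : StGau) (hDen : StDen) (hRay : StRay)
    (hArea : StArea) (hEn : StEn) (hC2 : StC2) : StMU := by
  intro B hB
  obtain ⟨lam, m, S⟩ := pr_Sp hB
  obtain ⟨c, hc, hU⟩ := hUni B lam m S
  obtain ⟨C, hC, hR⟩ := hRad B lam m S
  obtain ⟨N1, hN1⟩ := exists_nat_gt ((C + 2 * B ^ 2 * C) / (2 * c))
  refine ⟨max 2 N1, fun N hN Ω hO hsc hvol hrot => ?_⟩
  have hN2 : 2 ≤ N := (le_max_left _ _).trans hN
  have hNN : (C + 2 * B ^ 2 * C) / (2 * c) < N :=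
    hN1.trans_le (by exact_mod_cast (le_max_right _ _).trans hN)
  have hN0 : (0 : ℝ) < N := by exact_mod_cast (by omega : 0 < N)
  have hne : Ω ≠ univ := by
    intro h
    rw [h] at hvol
    have h2 : volume (univ : Set ℂ) = ⊤ := by
      have := (Complex.volume_preserving_equiv_real_prod).measure_preimage
        (nullMeasurableSet_univ (α := ℝ × ℝ))
      rw [preimage_univ] at this
      rw [this]
      simp
    rw [h2] at hvol
    exact ENNReal.ofReal_ne_top hvol.symm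
  obtain ⟨f, F, a, hCM⟩ := hC2 N Ω hN2 hO hsc hne hrot
  have hsum : (∑' j : ℕ, ENNReal.ofReal (cc a j)) = 1 := by
    have h1 := (hArea N Ω f F a hCM).1
    rw [hvol] at h1
    have h2 : ENNReal.ofReal Real.pi ≠ 0 := by
      rw [Ne, ENNReal.ofReal_eq_zero, not_le]
      exact Real.pi_pos
    have h3 : ENNReal.ofReal Real.pi * 1 = ENNReal.ofReal Real.pi * ∑' j : ℕ, ENNReal.ofReal (cc a j) := by
      rw [mul_one]; exact h1
    exact ((ENNReal.mul_right_inj h2 ENNReal.ofReal_ne_top).1 h3).symm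
  have hS := hasSum_cc hsum
  have hs0 : 0 < ‖a 1‖ := norm_pos_iff.2 (a1 hCM)
  have hcf := cf hCM hS
  have hs1 : ‖a 1‖ ≤ 1 := by
    have h1 : cc a 1 ≤ 1 := by
      rw [← hS.tsum_eq]
      exact hS.summable.le_tsum 1 (fun j _ => cc_nonneg a j)
    rw [hcf.c1] at h1
    have := abs_le_of_sq_le_sq' (a := ‖a 1‖) (b := 1) (by rw [one_pow]; exact h1) zero_le_one
    exact this.2
  have hmu := tail hS
  rcases lt_or_eq_of_le hs1 with hs | hs
  · -- not the disc
    have hmu0 : 0 < 1 - ‖a 1‖ ^ 2 := by nlinarith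
    obtain ⟨k, hk, hW⟩ := hU ‖a 1‖ ⟨hs0.le, hs⟩
    obtain ⟨hp, hI1, hI2, hE⟩ := hR k hk ‖a 1‖ N (cc a) hs0 hs1 (by omega) hcf
    obtain ⟨φ, hφ⟩ := hGau F hCM.Fd
    set Ψ := Ps B lam k ‖a 1‖ with hΨ
    have hsm : ContDiff ℝ 2 Ψ := Ps_smooth S.hB S.lam_lt k _
    obtain ⟨hEn1, hEn2⟩ := hEn N Ω f F a φ B C k Ψ hCM hφ hsm hsum (fun r hr => by
      rw [hΨ, radf_Ps]; exact hp r hr)
    have hcont := (hDen N Ω f F a φ B k Ψ hCM hφ hsm).1
    simp only [hΨ, radf_Ps, deriv_Ps S.hB S.lam_lt] at hEn1 hEn2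
    rw [← hΨ] at hEn1 hEn2
    set U := UT B k Ψ φ f with hUdef
    set I1 := ∫ r in Ioo (0 : ℝ) 1, 2 * r * ((‖a 1‖ * deriv (gk B lam k) (‖a 1‖ * r)) ^ 2
      + gk B lam k (‖a 1‖ * r) ^ 2 * ((k - B * Aa (cc a) r / 2) / r) ^ 2) with hI1d
    set I2 := ∫ r in Ioo (0 : ℝ) 1, gk B lam k (‖a 1‖ * r) ^ 2 * Aad (cc a) r with hI2d
    have hAad : ∀ r ∈ Ioo (0 : ℝ) 1, 0 ≤ Aad (cc a) r := fun r hr => ((hArea N Ω f F a hCM).2 r hr).1
    have hM : (∫⁻ z in Ω, ENNReal.ofReal (‖U z‖ ^ 2)) = ENNReal.ofReal (Real.pi * I2) := by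
      rw [hEn2, hI2d, ← integral_const_mul]
      rw [ofReal_integral_eq_lintegral_ofReal]
      · exact hI2.const_mul _
      · filter_upwards [self_mem_ae_restrict measurableSet_Ioo] with r hr
        have := hAad r hr
        have := Real.pi_pos
        simp only [Pi.zero_apply]
        positivity
    have hE1 : (∫⁻ r in Ioo (0 : ℝ) 1, ENNReal.ofReal (Real.pi * (2 * r *
        ((‖a 1‖ * deriv (gk B lam k) (‖a 1‖ * r)) ^ 2
          + gk B lam k (‖a 1‖ * r) ^ 2 * ((k - B * Aa (cc a) r / 2) / r) ^ 2))))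
        = ENNReal.ofReal (Real.pi * I1) := by
      rw [hI1d, ← integral_const_mul]
      rw [ofReal_integral_eq_lintegral_ofReal]
      · exact hI1.const_mul _
      · filter_upwards [self_mem_ae_restrict measurableSet_Ioo] with r hr
        have := Real.pi_pos
        have := hr.1
        simp only [Pi.zero_apply]
        positivity
    rw [hE1, hmu] at hEn1
    have hI10 : 0 ≤ I1 := by
      rw [hI1d]
      refine setIntegral_nonneg measurableSet_Ioo fun r hr => ?_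
      have := hr.1
      positivity
    have hI20 : 0 ≤ I2 := by
      rw [hI2d]
      refine setIntegral_nonneg measurableSet_Ioo fun r hr => ?_
      have := hAad r hr
      positivity
    have hpi := Real.pi_pos
    set e := B ^ 2 * C * (2 * Real.pi / N * (1 - ‖a 1‖ ^ 2)) with he
    have he0 : 0 ≤ e := by positivity
    have hEle : (∫⁻ z in Ω, ENNReal.ofReal (edC B U z)) ≤ ENNReal.ofReal (Real.pi * I1 + e) := by
      refine hEn1.trans (le_of_eq ?_)
      rw [← ENNReal.ofReal_mul (by positivity), ← ENNReal.ofReal_mul (by positivity),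
        ← ENNReal.ofReal_add (by positivity) (by positivity)]
    have hEfin : (∫⁻ z in Ω, ENNReal.ofReal (edC B U z)) ≠ ⊤ :=
      ne_top_of_le_ne_top ENNReal.ofReal_ne_top hEle
    have hEr : (∫⁻ z in Ω, ENNReal.ofReal (edC B U z)).toReal ≤ Real.pi * I1 + e := by
      have := ENNReal.toReal_mono ENNReal.ofReal_ne_top hEle
      rwa [ENNReal.toReal_ofReal (by positivity)] at this
    have hMr : (∫⁻ z in Ω, ENNReal.ofReal (‖U z‖ ^ 2)).toReal = Real.pi * I2 := by
      rw [hM, ENNReal.toReal_ofReal (by positivity)]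
    -- the excess is negative
    have hneg : Real.pi * I1 + e < lam * (Real.pi * I2) := by
      have h1 : I1 - lam * I2 ≤ (1 - ‖a 1‖ ^ 2) * (-2 * c + C / N) := by
        refine hE.trans ?_
        have : C * (1 - ‖a 1‖ ^ 2) / N = (1 - ‖a 1‖ ^ 2) * (C / N) := by ring
        rw [this]
        nlinarith
      have h2 : Real.pi * I1 + e - lam * (Real.pi * I2)
          ≤ Real.pi * ((1 - ‖a 1‖ ^ 2) * (-2 * c + (C + 2 * B ^ 2 * C) / N)) := by
        have h3 : e = Real.pi * ((1 - ‖a 1‖ ^ 2) * (2 * B ^ 2 * C / N)) := by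
          rw [he]; ring
        have h4 : (C + 2 * B ^ 2 * C) / N = C / N + 2 * B ^ 2 * C / N := by ring
        rw [h3, h4]
        have h5 := mul_le_mul_of_nonneg_left h1 hpi.le
        nlinarith
      have h6 : (C + 2 * B ^ 2 * C) / N < 2 * c := by
        rw [div_lt_iff₀ (by positivity)] at hNN ⊢
        linarith
      have h7 : Real.pi * ((1 - ‖a 1‖ ^ 2) * (-2 * c + (C + 2 * B ^ 2 * C) / N)) < 0 := by
        refine mul_neg_of_pos_of_neg hpi (mul_neg_of_pos_of_neg hmu0 (by linarith))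
      linarith
    have hM0 : 0 < Real.pi * I2 := by
      by_contra hcon
      push Not at hcon
      have : lam * (Real.pi * I2) ≤ 0 := mul_nonpos_of_nonneg_of_nonpos S.lam_pos.le hcon
      have : 0 ≤ Real.pi * I1 + e := by positivity
      linarith
    have hfin := hRay B ((Real.pi * I1 + e) / (Real.pi * I2)) Ω U hO hcont hEfin
      (by rw [hM]; exact ENNReal.ofReal_ne_top)
      (by rw [hM, Ne, ENNReal.ofReal_eq_zero, not_le]; exact hM0)
      (by rw [hMr, div_mul_cancel₀ _ hM0.ne']; exact hEr)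
    have hlt : (Real.pi * I1 + e) / (Real.pi * I2) < lam := by
      rw [div_lt_iff₀ hM0]
      exact hneg
    have hfinal : lamN B (toR Ω) < lamN B disc := hfin.trans_lt (hlt.trans_le S.lb)
    exact ⟨hfinal.le, fun h => absurd h hfinal.ne⟩
  · -- the disc
    have hz : ∀ j, 2 ≤ j → a j = 0 := by
      intro j hj
      have h1 : (∑' j : ℕ, ENNReal.ofReal (cc a (j + 2))) = 0 := by
        rw [hmu, hs]
        norm_num
      have h2 := ENNReal.tsum_eq_zero.1 h1 (j - 2)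
      rw [Nat.sub_add_cancel hj, ENNReal.ofReal_eq_zero] at h2
      have h3 : cc a j = 0 := le_antisymm h2 (cc_nonneg a j)
      unfold cc at h3
      rcases mul_eq_zero.1 h3 with h4 | h4
      · have : j = 0 := by exact_mod_cast h4
        omega
      · exact norm_eq_zero.1 (pow_eq_zero_iff (two_ne_zero)|>.1 h4)
    have hF : ∀ w ∈ Metric.ball (0 : ℂ) 1, F w = a 1 * w := by
      intro w hw
      refine (hCM.ser w hw).unique ?_
      have h1 : HasSum (fun j : ℕ => a j * w ^ j) (a 1 * w ^ 1) := by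
        refine hasSum_single 1 fun j hj => ?_
        rcases Nat.lt_or_ge j 2 with h2 | h2
        · have : j = 0 := by omega
          rw [this, a0 hCM, zero_mul]
        · rw [hz j h2, zero_mul]
      simpa using h1
    have hΩ : Ω = Metric.ball 0 1 := by
      ext z
      constructor
      · intro hz
        have h1 := hCM.fm hz
        have h2 := hF _ h1
        rw [hCM.Ff z hz] at h2
        rw [h2, mem_ball_zero_iff, norm_mul, hs, one_mul]
        rwa [mem_ball_zero_iff] at h1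
      · intro hz
        rw [mem_ball_zero_iff] at hz
        have h1 : (a 1)⁻¹ * z ∈ Metric.ball (0 : ℂ) 1 := by
          rw [mem_ball_zero_iff, norm_mul, norm_inv, hs, inv_one, one_mul]
          exact hz
        have h2 := hF _ h1
        rw [mul_inv_cancel_left₀ (a1 hCM)] at h2
        rw [← h2]
        exact hCM.Fm h1
    have hR : toR Ω = disc := by
      ext x
      rw [hΩ]
      show (⟨x.1, x.2⟩ : ℂ) ∈ Metric.ball (0 : ℂ) 1 ↔ x.1 ^ 2 + x.2 ^ 2 < 1
      rw [mem_ball_zero_iff, ← sq_lt_one_iff₀ (norm_nonneg _), ← Complex.normSq_eq_norm_sq,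
        Complex.normSq_mk, pow_two, pow_two]
    rw [hR]
    exact ⟨le_rfl, fun _ => hΩ⟩

end Pool.Agent.MFK.NF
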