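import Pool.Agent.Work.MP_8826fd_mp.NF.Gk

/-!
# MP_8826fd_mp, block NF, item C0: the centre of rotation lies in the domain
-/

set_option autoImplicit false

namespace Pool.Agent.MFK.NF

open MeasureTheory Set Filter Topology

theorem pr_C0 : StC0 := by
  intro N Ω hN ho hs hrot
  by_contra h0
  have hN0 : N ≠ 0 := by omega
  obtain ⟨g, hgc, hg⟩ := Complex.exists_continuousOn_pow_eq hs ho (g := fun z : ℂ => z)
    continuousOn_id (by simpa using h0) hN0
  have hprim : IsPrimitiveRoot (Complex.exp (2 * Real.pi * Complex.I / N)) N :=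
    Complex.isPrimitiveRoot_exp N hN0
  generalize Complex.exp (2 * Real.pi * Complex.I / N) = ζ at hrot hprim
  have hζN : ζ ^ N = 1 := hprim.pow_eq_one
  have hΩ0 : ∀ z ∈ Ω, z ≠ 0 := fun z hz hz0 => h0 (hz0 ▸ hz)
  have hg0 : ∀ z ∈ Ω, g z ≠ 0 := by
    intro z hz hgz
    have h1 := hg z
    rw [hgz, zero_pow hN0] at h1
    exact hΩ0 z hz h1.symm
  have hqc : ContinuousOn (fun z => g (ζ * z) / g z) Ω := by
    apply ContinuousOn.div _ hgc hg0
    exact hgc.comp (by fun_prop) (fun z hz => hrot z hz)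
  have hqm : MapsTo (fun z => g (ζ * z) / g z) Ω
      (↑((Polynomial.nthRoots N ζ).toFinset) : Set ℂ) := by
    intro z hz
    have h1 : (g (ζ * z) / g z) ^ N = ζ := by
      rw [div_pow, hg, hg, mul_div_assoc, div_self (hΩ0 z hz), mul_one]
    simp only [Finset.mem_coe, Multiset.mem_toFinset]
    rw [Polynomial.mem_nthRoots (by omega)]
    exact h1
  have hconn : IsPreconnected Ω := hs.isPathConnected.isConnected.isPreconnected
  obtain ⟨z₀, hz₀⟩ := hs.nonempty
  have hconst : ∀ z ∈ Ω, g (ζ * z) / g z = g (ζ * z₀) / g z₀ := fun z hz =>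
    hconn.constant_of_mapsTo (Set.Finite.isDiscrete (Finset.finite_toSet _)) hqc hqm hz hz₀
  set ξ : ℂ := g (ζ * z₀) / g z₀ with hξ
  have hξN : ξ ^ N = ζ := by
    rw [hξ, div_pow, hg, hg, mul_div_assoc, div_self (hΩ0 z₀ hz₀), mul_one]
  have hmul : ∀ z ∈ Ω, g (ζ * z) = ξ * g z := by
    intro z hz
    have h1 := hconst z hz
    rwa [div_eq_iff (hg0 z hz)] at h1
  have hmem : ∀ n : ℕ, ζ ^ n * z₀ ∈ Ω ∧ g (ζ ^ n * z₀) = ξ ^ n * g z₀ := by
    intro n
    induction n with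
    | zero => simpa using hz₀
    | succ n ih =>
      have e : ζ ^ (n + 1) * z₀ = ζ * (ζ ^ n * z₀) := by ring
      refine ⟨?_, ?_⟩
      · rw [e]; exact hrot _ ih.1
      · rw [e, hmul _ ih.1, ih.2]; ring
  have h2 := (hmem N).2
  rw [hζN, hξN, one_mul] at h2
  have h3 : ζ = 1 := by
    have h4 : (ζ - 1) * g z₀ = 0 := by rw [sub_mul, ← h2]; ring
    rcases mul_eq_zero.mp h4 with h5 | h5
    · exact sub_eq_zero.mp h5
    · exact absurd h5 (hg0 z₀ hz₀)
  have h6 := hprim.eq_orderOf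
  rw [h3, orderOf_one] at h6
  omega

end Pool.Agent.MFK.NF
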