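import Pool.Agent.Work.MP_8826fd_mp.NF.Gk

/-!
# MP_8826fd_mp, block NF, item Rad: the radial energy
-/

set_option autoImplicit false

namespace Pool.Agent.MFK.NF

open MeasureTheory Set Filter Topology

namespace IRad

theorem integrable_tsum' {μ : Measure ℝ} {F : ℕ → ℝ → ℝ} (hF : ∀ i, Integrable (F i) μ)
    (hn : ∀ᵐ a ∂μ, ∀ i, 0 ≤ F i a) (hs : Summable fun i => ∫ a, F i a ∂μ)
    (hp : ∀ᵐ a ∂μ, Summable fun i => F i a) : Integrable (fun a => ∑' i, F i a) μ := by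
  have hm : AEStronglyMeasurable (fun a => ∑' i, F i a) μ := by
    refine aestronglyMeasurable_of_tendsto_ae (f := fun n a => ∑ i ∈ Finset.range n, F i a) atTop
      (fun n => ?_) ?_
    · exact Finset.aestronglyMeasurable_fun_sum _ fun i _ => (hF i).1
    · filter_upwards [hp] with a ha
      exact ha.hasSum.tendsto_sum_nat
  refine ⟨hm, ?_⟩
  have hn0 : 0 ≤ᵐ[μ] fun a => ∑' i, F i a := by
    filter_upwards [hn] with a ha
    exact tsum_nonneg ha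
  rw [hasFiniteIntegral_iff_ofReal hn0]
  have h1 : (∫⁻ a, ENNReal.ofReal (∑' i, F i a) ∂μ) = ∫⁻ a, ∑' i, ENNReal.ofReal (F i a) ∂μ := by
    refine lintegral_congr_ae ?_
    filter_upwards [hn, hp] with a ha hb
    exact ENNReal.ofReal_tsum_of_nonneg ha hb
  rw [h1, lintegral_tsum fun i => (hF i).1.aemeasurable.ennreal_ofReal]
  have h2 : ∀ i, (∫⁻ a, ENNReal.ofReal (F i a) ∂μ) = ENNReal.ofReal (∫ a, F i a ∂μ) := by
    intro i
    rw [ofReal_integral_eq_lintegral_ofReal (hF i)]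
    filter_upwards [hn] with a ha
    exact ha i
  simp_rw [h2]
  exact hs.tsum_ofReal_lt_top

/-- tail coefficients -/
noncomputable def dd (c : ℕ → ℝ) (j : ℕ) : ℝ := if j ≤ 1 then 0 else c j

/-- tail of the series -/
noncomputable def rho (c : ℕ → ℝ) (r : ℝ) : ℝ := ∑' j, dd c j * r ^ (2 * j)

section

variable {N : ℕ} {s : ℝ} {c : ℕ → ℝ} (hc : Cf N s c)
include hc

theorem dd_nonneg (j : ℕ) : 0 ≤ dd c j := by
  unfold dd
  split_ifs
  · exact le_rfl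
  · exact hc.nonneg j

theorem dd_gap (j : ℕ) (hj : j ≤ N) : dd c j = 0 := by
  unfold dd
  split_ifs with h
  · rfl
  · exact hc.gap j (by omega) hj

theorem c_eq (j : ℕ) : c j = (if j = 1 then s ^ 2 else 0) + dd c j := by
  unfold dd
  rcases j with _ | _ | j
  · simp [hc.c0]
  · simp [hc.c1]
  · simp

theorem dd_sum : HasSum (dd c) (1 - s ^ 2) := by
  have h1 : HasSum (fun j : ℕ => if j = 1 then s ^ 2 else 0) (s ^ 2) := hasSum_ite_eq 1 (s ^ 2)
  have h2 := hc.sum.sub h1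
  have h3 : dd c = fun j => c j - (if j = 1 then s ^ 2 else 0) := by
    funext j
    rw [c_eq hc j]
    ring
  rw [h3]
  exact h2

theorem c_le_one (j : ℕ) : c j ≤ 1 := le_hasSum hc.sum j fun i _ => hc.nonneg i

theorem rho_summable {r : ℝ} (hr : r ∈ Icc (0 : ℝ) 1) : Summable fun j => dd c j * r ^ (2 * j) := by
  refine Summable.of_nonneg_of_le (fun j => ?_) (fun j => ?_) (dd_sum hc).summable
  · exact mul_nonneg (dd_nonneg hc j) (pow_nonneg hr.1 _)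
  · exact mul_le_of_le_one_right (dd_nonneg hc j) (pow_le_one₀ hr.1 hr.2)

theorem rho_nonneg {r : ℝ} (hr : r ∈ Icc (0 : ℝ) 1) : 0 ≤ rho c r :=
  tsum_nonneg fun j => mul_nonneg (dd_nonneg hc j) (pow_nonneg hr.1 _)

theorem rho_le {r : ℝ} (hr : r ∈ Icc (0 : ℝ) 1) : rho c r ≤ (1 - s ^ 2) * r ^ (2 * N + 2) := by
  refine hasSum_le (fun j => ?_) (rho_summable hc hr).hasSum ((dd_sum hc).mul_right (r ^ (2 * N + 2)))
  rcases le_or_gt j N with hj | hj
  · rw [dd_gap hc j hj]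
    simp
  · exact mul_le_mul_of_nonneg_left (pow_le_pow_of_le_one hr.1 hr.2 (by omega)) (dd_nonneg hc j)

theorem Aa_eq {r : ℝ} (hr : r ∈ Icc (0 : ℝ) 1) : Aa c r = s ^ 2 * r ^ 2 + rho c r := by
  have h1 : HasSum (fun j : ℕ => if j = 1 then s ^ 2 * r ^ 2 else 0) (s ^ 2 * r ^ 2) :=
    hasSum_ite_eq 1 (s ^ 2 * r ^ 2)
  have h2 := h1.add (rho_summable hc hr).hasSum
  unfold Aa
  refine (HasSum.tsum_eq ?_)
  refine h2.congr_fun ?_ |> fun h => h
  intro j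
  rw [c_eq hc j]
  split_ifs with h
  · rw [h]
    ring
  · ring

theorem s_le : 0 ≤ 1 - s ^ 2 := by
  have h := dd_sum hc
  exact h.nonneg fun j => dd_nonneg hc j

theorem Aa_cont : ContinuousOn (Aa c) (Icc 0 1) := by
  refine continuousOn_tsum (u := c) (fun j => by fun_prop) hc.sum.summable fun j r hr => ?_
  rw [Real.norm_eq_abs, abs_of_nonneg (mul_nonneg (hc.nonneg j) (pow_nonneg hr.1 _))]
  exact mul_le_of_le_one_right (hc.nonneg j) (pow_le_one₀ hr.1 hr.2)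

end

/-! ### integrals of powers -/

theorem int_pow (n : ℕ) : (∫ r in Ioo (0 : ℝ) 1, r ^ n) = 1 / (n + 1) := by
  rw [← integral_Ioc_eq_integral_Ioo, ← intervalIntegral.integral_of_le zero_le_one, integral_pow]
  simp

theorem intg_cont {f : ℝ → ℝ} (hf : Continuous f) : IntegrableOn f (Ioo 0 1) :=
  (hf.continuousOn.integrableOn_Icc).mono_set Ioo_subset_Icc_self

/-- `∫ (1 - r) (2j) r^(2j-1) = 1/(2j+1)` -/
theorem int_one_sub (j : ℕ) (hj : 1 ≤ j) :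
    (∫ r in Ioo (0 : ℝ) 1, (1 - r) * (2 * j * r ^ (2 * j - 1))) = 1 / (2 * j + 1) := by
  have h1 : (fun r : ℝ => (1 - r) * (2 * j * r ^ (2 * j - 1)))
      = fun r : ℝ => 2 * j * r ^ (2 * j - 1) - 2 * j * r ^ (2 * j) := by
    funext r
    have : r ^ (2 * j) = r * r ^ (2 * j - 1) := by
      rw [← pow_succ']
      congr 1
      omega
    rw [this]
    ring
  rw [h1, integral_sub (intg_cont (by fun_prop)) (intg_cont (by fun_prop)), integral_const_mul,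
    integral_const_mul, int_pow, int_pow]
  have h2 : ((2 * j - 1 : ℕ) : ℝ) = 2 * j - 1 := by
    rw [Nat.cast_sub (by omega)]
    push_cast
    ring
  rw [h2]
  push_cast
  have h3 : (0 : ℝ) < j := by exact_mod_cast hj
  field_simp
  ring

theorem int_main (j : ℕ) (hj : 1 ≤ j) :
    (∫ r in Ioo (0 : ℝ) 1, (2 * j * r ^ (2 * j - 1))) = 1 := by
  rw [integral_const_mul, int_pow]
  have h2 : ((2 * j - 1 : ℕ) : ℝ) = 2 * j - 1 := by
    rw [Nat.cast_sub (by omega)]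
    push_cast
    ring
  rw [h2]
  have h3 : (0 : ℝ) < j := by exact_mod_cast hj
  field_simp
  ring

/-! ### the mass -/

section

variable {N : ℕ} {s : ℝ} {c : ℕ → ℝ} (hc : Cf N s c)
include hc

/-- the derivative series is summable on `(0,1)` -/
theorem Aad_summable {r : ℝ} (hr : r ∈ Ioo (0 : ℝ) 1) :
    Summable fun j : ℕ => c j * (2 * j * r ^ (2 * j - 1)) := by
  have h1 : ‖r ^ 2‖ < 1 := by
    rw [Real.norm_eq_abs, abs_of_nonneg (by positivity)]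
    nlinarith [hr.1, hr.2]
  have h2 := (summable_pow_mul_geometric_of_norm_lt_one 1 h1).mul_left (2 / r)
  refine Summable.of_nonneg_of_le (fun j => ?_) (fun j => ?_) h2
  · have := hc.nonneg j
    have := hr.1
    positivity
  · rcases Nat.eq_zero_or_pos j with h0 | h0
    · rw [h0]
      simp
    · have h3 : (r ^ 2) ^ j = r * r ^ (2 * j - 1) := by
        rw [← pow_mul, ← pow_succ']
        congr 1
        omega
      rw [h3]
      have h4 : 2 / r * ((j : ℝ) ^ 1 * (r * r ^ (2 * j - 1))) = 1 * (2 * j * r ^ (2 * j - 1)) := by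
        have := hr.1
        field_simp
      rw [h4]
      refine mul_le_mul_of_nonneg_right (c_le_one hc j) ?_
      have := hr.1
      positivity

omit hc in
/-- integrals of the single terms -/
theorem term_int {p : ℝ → ℝ} (hp : Continuous p) (j : ℕ) :
    IntegrableOn (fun r => p r ^ 2 * (c j * (2 * j * r ^ (2 * j - 1)))) (Ioo 0 1) :=
  intg_cont (by fun_prop)

theorem term_le {p : ℝ → ℝ} (hp : Continuous p) {K : ℝ} (hK : ∀ r ∈ Icc (0 : ℝ) 1, p r ^ 2 ≤ K) (j : ℕ) :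
    (∫ r in Ioo (0 : ℝ) 1, p r ^ 2 * (c j * (2 * j * r ^ (2 * j - 1)))) ≤ K * c j := by
  have hK0 : 0 ≤ K := (sq_nonneg (p 0)).trans (hK 0 ⟨le_rfl, zero_le_one⟩)
  rcases Nat.eq_zero_or_pos j with h0 | h0
  · rw [h0]
    simpa using mul_nonneg hK0 (hc.nonneg 0)
  have h1 : (∫ r in Ioo (0 : ℝ) 1, p r ^ 2 * (c j * (2 * j * r ^ (2 * j - 1))))
      ≤ ∫ r in Ioo (0 : ℝ) 1, K * c j * (2 * j * r ^ (2 * j - 1)) := by
    refine setIntegral_mono_on (term_int hp j) (intg_cont (by fun_prop)) measurableSet_Ioo ?_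
    intro r hr
    have h2 : K * c j * (2 * j * r ^ (2 * j - 1)) = K * (c j * (2 * j * r ^ (2 * j - 1))) := by ring
    rw [h2]
    refine mul_le_mul_of_nonneg_right (hK r ⟨hr.1.le, hr.2.le⟩) ?_
    have := hc.nonneg j
    have := hr.1
    positivity
  refine h1.trans (le_of_eq ?_)
  rw [integral_const_mul, int_main j h0, mul_one]

theorem term_nonneg {p : ℝ → ℝ} (j : ℕ) :
    0 ≤ (∫ r in Ioo (0 : ℝ) 1, p r ^ 2 * (c j * (2 * j * r ^ (2 * j - 1)))) := by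
  refine setIntegral_nonneg measurableSet_Ioo fun r hr => ?_
  have := hc.nonneg j
  have := hr.1
  positivity

theorem term_summable {p : ℝ → ℝ} (hp : Continuous p) {K : ℝ} (hK : ∀ r ∈ Icc (0 : ℝ) 1, p r ^ 2 ≤ K) :
    Summable fun j : ℕ => ∫ r in Ioo (0 : ℝ) 1, p r ^ 2 * (c j * (2 * j * r ^ (2 * j - 1))) :=
  Summable.of_nonneg_of_le (fun j => term_nonneg hc j) (fun j => term_le hc hp hK j)
    (hc.sum.summable.mul_left K)

omit hc in
theorem mass_eq {p : ℝ → ℝ} (r : ℝ) :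
    p r ^ 2 * Aad c r = ∑' j : ℕ, p r ^ 2 * (c j * (2 * j * r ^ (2 * j - 1))) := by
  unfold Aad
  rw [tsum_mul_left]

theorem mass_int {p : ℝ → ℝ} (hp : Continuous p) {K : ℝ} (hK : ∀ r ∈ Icc (0 : ℝ) 1, p r ^ 2 ≤ K) :
    IntegrableOn (fun r => p r ^ 2 * Aad c r) (Ioo 0 1) := by
  have h1 : (fun r => p r ^ 2 * Aad c r)
      = fun r => ∑' j : ℕ, p r ^ 2 * (c j * (2 * j * r ^ (2 * j - 1))) := by
    funext r
    exact mass_eq r
  rw [h1]
  refine integrable_tsum' (fun j => term_int hp j) ?_ (term_summable hc hp hK) ?_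
  · filter_upwards [ae_restrict_mem measurableSet_Ioo] with r hr
    intro j
    have := hc.nonneg j
    have := hr.1
    positivity
  · filter_upwards [ae_restrict_mem measurableSet_Ioo] with r hr
    exact (Aad_summable hc hr).mul_left _

/-- lower bound for one term, `j > N` -/
theorem term_ge {p : ℝ → ℝ} (hp : Continuous p) {K : ℝ} (hK0 : 0 ≤ K)
    (hK : ∀ r ∈ Icc (0 : ℝ) 1, p 1 ^ 2 - K * (1 - r) ≤ p r ^ 2) (hN : 1 ≤ N) (j : ℕ) (hj : N < j) :
    c j * (p 1 ^ 2 - K / (2 * N)) ≤ (∫ r in Ioo (0 : ℝ) 1, p r ^ 2 * (c j * (2 * j * r ^ (2 * j - 1)))) := by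
  have h1 : (∫ r in Ioo (0 : ℝ) 1, (c j * p 1 ^ 2 * (2 * j * r ^ (2 * j - 1))
        - c j * K * ((1 - r) * (2 * j * r ^ (2 * j - 1)))))
      ≤ ∫ r in Ioo (0 : ℝ) 1, p r ^ 2 * (c j * (2 * j * r ^ (2 * j - 1))) := by
    refine setIntegral_mono_on (intg_cont (by fun_prop)) (term_int hp j) measurableSet_Ioo ?_
    intro r hr
    have h2 := hK r ⟨hr.1.le, hr.2.le⟩
    have h3 : 0 ≤ c j * (2 * j * r ^ (2 * j - 1)) := by
      have := hc.nonneg j
      have := hr.1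
      positivity
    have h4 := mul_le_mul_of_nonneg_right h2 h3
    have h5 : c j * p 1 ^ 2 * (2 * j * r ^ (2 * j - 1))
        - c j * K * ((1 - r) * (2 * j * r ^ (2 * j - 1)))
        = (p 1 ^ 2 - K * (1 - r)) * (c j * (2 * j * r ^ (2 * j - 1))) := by ring
    rw [h5]
    exact h4
  refine le_trans ?_ h1
  have e1 : (∫ r in Ioo (0 : ℝ) 1, c j * p 1 ^ 2 * (2 * j * r ^ (2 * j - 1))) = c j * p 1 ^ 2 * 1 := by
    rw [integral_const_mul, int_main j (by omega)]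
  have e2 : (∫ r in Ioo (0 : ℝ) 1, c j * K * ((1 - r) * (2 * j * r ^ (2 * j - 1))))
      = c j * K * (1 / (2 * j + 1)) := by
    rw [integral_const_mul, int_one_sub j (by omega)]
  rw [integral_sub (intg_cont (by fun_prop)) (intg_cont (by fun_prop)), e1, e2]
  have h6 : (1 : ℝ) / (2 * j + 1) ≤ 1 / (2 * N) := by
    have h7 : (0 : ℝ) < N := by exact_mod_cast hN
    have h8 : (N : ℝ) < j := by exact_mod_cast hj
    exact one_div_le_one_div_of_le (by positivity) (by linarith)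
  have h9 := mul_le_mul_of_nonneg_left h6 (mul_nonneg (hc.nonneg j) hK0)
  have h10 : c j * (p 1 ^ 2 - K / (2 * N)) = c j * p 1 ^ 2 * 1 - c j * K * (1 / (2 * N)) := by ring
  rw [h10]
  linarith

theorem mass_ge {p : ℝ → ℝ} (hp : Continuous p) {K L : ℝ} (hK0 : 0 ≤ K)
    (hL : ∀ r ∈ Icc (0 : ℝ) 1, p r ^ 2 ≤ L)
    (hK : ∀ r ∈ Icc (0 : ℝ) 1, p 1 ^ 2 - K * (1 - r) ≤ p r ^ 2) (hN : 1 ≤ N) :
    (∫ r in Ioo (0 : ℝ) 1, p r ^ 2 * (2 * s ^ 2 * r)) + (1 - s ^ 2) * (p 1 ^ 2 - K / (2 * N))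
      ≤ ∫ r in Ioo (0 : ℝ) 1, p r ^ 2 * Aad c r := by
  have h1 : (fun r => p r ^ 2 * Aad c r)
      = fun r => ∑' j : ℕ, p r ^ 2 * (c j * (2 * j * r ^ (2 * j - 1))) := by
    funext r
    exact mass_eq r
  rw [h1]
  have h2 := hasSum_integral_of_summable_integral_norm (μ := volume.restrict (Ioo (0 : ℝ) 1))
    (F := fun (j : ℕ) r => p r ^ 2 * (c j * (2 * j * r ^ (2 * j - 1))))
    (fun j => term_int hp j) (by
      refine (term_summable hc hp hL).congr fun j => ?_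
      refine setIntegral_congr_fun measurableSet_Ioo fun r hr => ?_
      have := hc.nonneg j
      have := hr.1
      rw [Real.norm_eq_abs, abs_of_nonneg (by positivity)])
  have h3 : HasSum (fun j : ℕ => (if j = 1 then (∫ r in Ioo (0 : ℝ) 1, p r ^ 2 * (2 * s ^ 2 * r)) else 0)
      + dd c j * (p 1 ^ 2 - K / (2 * N)))
      ((∫ r in Ioo (0 : ℝ) 1, p r ^ 2 * (2 * s ^ 2 * r)) + (1 - s ^ 2) * (p 1 ^ 2 - K / (2 * N))) :=
    (hasSum_ite_eq 1 _).add ((dd_sum hc).mul_right _)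
  refine hasSum_le (fun j => ?_) h3 h2
  rcases le_or_gt j N with hj | hj
  · rw [dd_gap hc j hj, zero_mul, add_zero]
    split_ifs with h
    · refine le_of_eq ?_
      rw [h, hc.c1]
      congr 1
      funext r
      rw [Nat.cast_one, show 2 * 1 - 1 = 1 from rfl, pow_one]
      ring
    · exact term_nonneg hc j
  · rw [if_neg (by omega), zero_add]
    have h4 : dd c j = c j := by
      unfold dd
      rw [if_neg (by omega)]
    rw [h4]
    exact term_ge hc hp hK0 hK hN j hj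

end

/-! ### the energy -/

/-- energy density for the function `A` -/
noncomputable def fE (B lam : ℝ) (k : ℕ) (s : ℝ) (A : ℝ → ℝ) (r : ℝ) : ℝ :=
  2 * r * ((s * deriv (gk B lam k) (s * r)) ^ 2 + gk B lam k (s * r) ^ 2 * ((k - B * A r / 2) / r) ^ 2)

theorem prim_deriv {B lam : ℝ} (hB : 0 < B) (hl : lam < B) (k : ℕ) {s r : ℝ} (hs : 0 < s) (hr : 0 < r) :
    HasDerivAt (fun t => 2 * s * t * gk B lam k (s * t) * deriv (gk B lam k) (s * t))
      (fE B lam k s (fun t => s ^ 2 * t ^ 2) r - lam * (gk B lam k (s * r) ^ 2 * (2 * s ^ 2 * r))) r := by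
  have h0 : HasDerivAt (fun t : ℝ => s * t) s r := by simpa using (hasDerivAt_id' r).const_mul s
  have h1 := (gk_d1 hB hl k (s * r)).comp r h0
  have h2 := (gk_ode hB hl k (mul_pos hs hr)).comp r h0
  have h3 := (h1.mul h2).const_mul 2
  refine (h3.congr_of_eventuallyEq ?_).congr_deriv ?_
  · filter_upwards with t
    simp only [Pi.mul_apply, Function.comp_apply]
    ring
  · simp only [Function.comp_apply]
    unfold fE
    field_simp
    ring

/-- bounds for `g_k` on `[0,1]` -/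
structure Bd (B lam : ℝ) (k : ℕ) (K : ℝ) : Prop where
  pos : 0 ≤ K
  b0 : ∀ r ∈ Icc (0 : ℝ) 1, |gk B lam k r| ≤ K
  b1 : ∀ r ∈ Icc (0 : ℝ) 1, |deriv (gk B lam k) r| ≤ K
  b2 : ∀ r ∈ Ioc (0 : ℝ) 1, |(k : ℝ) / r * gk B lam k r| ≤ K

theorem exists_Bd {B lam : ℝ} (hB : 0 < B) (hl : lam < B) (m : ℕ) : ∃ K, ∀ k ≤ m, Bd B lam k K := by
  choose K hK using fun k => gk_bdd hB hl k
  refine ⟨∑ i ∈ Finset.range (m + 1), K i, fun k hk => ?_⟩
  have h1 : K k ≤ ∑ i ∈ Finset.range (m + 1), K i :=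
    Finset.single_le_sum (f := K) (fun i _ => (hK i).1.le) (Finset.mem_range.mpr (by omega))
  refine ⟨(hK k).1.le.trans h1, fun r hr => ((hK k).2 r hr).1.trans h1,
    fun r hr => ((hK k).2 r hr).2.1.trans h1, fun r hr => (((hK k).2 r ⟨hr.1.le, hr.2⟩).2.2 hr.1).trans h1⟩

section

variable {B lam K : ℝ} {k : ℕ} {s : ℝ}

theorem fE_bound (hB : 0 < B) (hK : Bd B lam k K) (hs : 0 < s) (hs1 : s ≤ 1) {A : ℝ → ℝ} {r : ℝ}
    (hr : r ∈ Ioo (0 : ℝ) 1) (hA0 : 0 ≤ A r) (hA : A r ≤ r ^ 2) :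
    |fE B lam k s A r| ≤ 2 * (K ^ 2 + (K + B * K / 2) ^ 2) := by
  have hr0 := hr.1
  have hr1 := hr.2
  have hK0 := hK.pos
  have hsr : s * r ∈ Ioc (0 : ℝ) 1 := ⟨mul_pos hs hr0, by nlinarith⟩
  have hg := hK.b0 (s * r) ⟨hsr.1.le, hsr.2⟩
  have hg1 := hK.b1 (s * r) ⟨hsr.1.le, hsr.2⟩
  have hg2 := hK.b2 (s * r) hsr
  have hu : |(k : ℝ) / r * gk B lam k (s * r)| ≤ K := by
    have h1 : (k : ℝ) / r * gk B lam k (s * r) = s * ((k : ℝ) / (s * r) * gk B lam k (s * r)) := by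
      field_simp
    rw [h1, abs_mul, abs_of_pos hs]
    calc s * |(k : ℝ) / (s * r) * gk B lam k (s * r)| ≤ 1 * K :=
          mul_le_mul hs1 hg2 (abs_nonneg _) zero_le_one
      _ = K := one_mul K
  have hv : |B * A r / (2 * r) * gk B lam k (s * r)| ≤ B / 2 * K := by
    rw [abs_mul]
    refine mul_le_mul ?_ hg (abs_nonneg _) (by positivity)
    rw [abs_of_nonneg (by positivity), div_le_iff₀ (by positivity)]
    have h2 : A r ≤ r := hA.trans (by nlinarith)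
    nlinarith [mul_le_mul_of_nonneg_left h2 hB.le]
  have hw : |(k : ℝ) / r * gk B lam k (s * r) - B * A r / (2 * r) * gk B lam k (s * r)| ≤ K + B * K / 2 := by
    have h3 := abs_sub ((k : ℝ) / r * gk B lam k (s * r)) (B * A r / (2 * r) * gk B lam k (s * r))
    linarith
  have h4 : gk B lam k (s * r) ^ 2 * ((k - B * A r / 2) / r) ^ 2
      = ((k : ℝ) / r * gk B lam k (s * r) - B * A r / (2 * r) * gk B lam k (s * r)) ^ 2 := by
    field_simp
  have h5 : gk B lam k (s * r) ^ 2 * ((k - B * A r / 2) / r) ^ 2 ≤ (K + B * K / 2) ^ 2 := by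
    rw [h4, ← sq_abs]
    exact pow_le_pow_left₀ (abs_nonneg _) hw 2
  have h6 : (s * deriv (gk B lam k) (s * r)) ^ 2 ≤ K ^ 2 := by
    rw [← sq_abs, abs_mul, abs_of_pos hs]
    refine pow_le_pow_left₀ (by positivity) ?_ 2
    calc s * |deriv (gk B lam k) (s * r)| ≤ 1 * K := mul_le_mul hs1 hg1 (abs_nonneg _) zero_le_one
      _ = K := one_mul K
  unfold fE
  rw [abs_of_nonneg (by positivity)]
  have h7 : 0 ≤ (s * deriv (gk B lam k) (s * r)) ^ 2 + gk B lam k (s * r) ^ 2 * ((k - B * A r / 2) / r) ^ 2 := by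
    positivity
  calc 2 * r * ((s * deriv (gk B lam k) (s * r)) ^ 2 + gk B lam k (s * r) ^ 2 * ((k - B * A r / 2) / r) ^ 2)
      ≤ 2 * 1 * ((s * deriv (gk B lam k) (s * r)) ^ 2 + gk B lam k (s * r) ^ 2 * ((k - B * A r / 2) / r) ^ 2) :=
        mul_le_mul_of_nonneg_right (by linarith) h7
    _ ≤ 2 * (K ^ 2 + (K + B * K / 2) ^ 2) := by linarith

theorem fE_int (hB : 0 < B) (hl : lam < B) (hK : Bd B lam k K) (hs : 0 < s) (hs1 : s ≤ 1) {A : ℝ → ℝ}
    (hc : ContinuousOn A (Icc 0 1)) (hA0 : ∀ r ∈ Icc (0 : ℝ) 1, 0 ≤ A r)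
    (hA : ∀ r ∈ Icc (0 : ℝ) 1, A r ≤ r ^ 2) : IntegrableOn (fE B lam k s A) (Ioo 0 1) := by
  refine Integrable.mono' (g := fun _ => 2 * (K ^ 2 + (K + B * K / 2) ^ 2)) (integrable_const _) ?_ ?_
  · refine ContinuousOn.aestronglyMeasurable ?_ measurableSet_Ioo
    have h1 : ContinuousOn A (Ioo 0 1) := hc.mono Ioo_subset_Icc_self
    have h2 := gk_cont hB hl k
    have h3 := gk_dcont hB hl k
    have h4 : ContinuousOn (fun r => gk B lam k (s * r)) (Ioo 0 1) := (by fun_prop : Continuous _).continuousOn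
    have h5 : ContinuousOn (fun r => deriv (gk B lam k) (s * r)) (Ioo 0 1) :=
      (h3.comp (by fun_prop : Continuous fun r : ℝ => s * r)).continuousOn
    unfold fE
    refine (continuousOn_const.mul continuousOn_id).mul (((continuousOn_const.mul h5).pow 2).add
      ((h4.pow 2).mul (ContinuousOn.pow (ContinuousOn.div ?_ continuousOn_id fun r hr => hr.1.ne') 2)))
    exact continuousOn_const.sub ((continuousOn_const.mul h1).div_const 2)
  · filter_upwards [ae_restrict_mem measurableSet_Ioo] with r hr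
    rw [Real.norm_eq_abs]
    exact fE_bound hB hK hs hs1 hr (hA0 r ⟨hr.1.le, hr.2.le⟩) (hA r ⟨hr.1.le, hr.2.le⟩)

theorem main0 (hB : 0 < B) (hl : lam < B) (hK : Bd B lam k K) (hs : 0 < s) (hs1 : s ≤ 1) :
    (∫ r in Ioo (0 : ℝ) 1, fE B lam k s (fun t => s ^ 2 * t ^ 2) r)
      - lam * (∫ r in Ioo (0 : ℝ) 1, gk B lam k (s * r) ^ 2 * (2 * s ^ 2 * r))
      = 2 * s * gk B lam k s * deriv (gk B lam k) s := by
  have h2 := gk_cont hB hl k
  have h3 := gk_dcont hB hl k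
  have hi1 : IntegrableOn (fE B lam k s (fun t => s ^ 2 * t ^ 2)) (Ioo 0 1) := by
    refine fE_int hB hl hK hs hs1 (by fun_prop) (fun r _ => by positivity) fun r hr => ?_
    have : s ^ 2 ≤ 1 := pow_le_one₀ hs.le hs1
    nlinarith [sq_nonneg r]
  have hi2 : IntegrableOn (fun r => lam * (gk B lam k (s * r) ^ 2 * (2 * s ^ 2 * r))) (Ioo 0 1) :=
    intg_cont (by fun_prop)
  have h4 : (∫ r in (0 : ℝ)..1, (fE B lam k s (fun t => s ^ 2 * t ^ 2) r
      - lam * (gk B lam k (s * r) ^ 2 * (2 * s ^ 2 * r))))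
      = (fun t => 2 * s * t * gk B lam k (s * t) * deriv (gk B lam k) (s * t)) 1
        - (fun t => 2 * s * t * gk B lam k (s * t) * deriv (gk B lam k) (s * t)) 0 := by
    refine intervalIntegral.integral_eq_sub_of_hasDerivAt_of_le zero_le_one ?_ (fun r hr => prim_deriv hB hl k hs hr.1) ?_
    · have h5 : Continuous fun r => deriv (gk B lam k) (s * r) :=
        h3.comp (by fun_prop : Continuous fun r : ℝ => s * r)
      have h6 : Continuous fun r => gk B lam k (s * r) := h2.comp (by fun_prop : Continuous fun r : ℝ => s * r)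
      exact (((continuous_const.mul continuous_id).mul h6).mul h5).continuousOn
    · rw [intervalIntegrable_iff_integrableOn_Ioo_of_le zero_le_one]
      exact hi1.sub hi2
  rw [intervalIntegral.integral_of_le zero_le_one, integral_Ioc_eq_integral_Ioo,
    integral_sub hi1 hi2, integral_const_mul] at h4
  rw [h4]
  simp

end

section

variable {B lam K : ℝ} {k : ℕ} {s : ℝ} {N : ℕ} {c : ℕ → ℝ}

theorem Aa_nonneg (hc : Cf N s c) {r : ℝ} (hr : r ∈ Icc (0 : ℝ) 1) : 0 ≤ Aa c r :=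
  tsum_nonneg fun j => mul_nonneg (hc.nonneg j) (pow_nonneg hr.1 _)

theorem Aa_le (hc : Cf N s c) {r : ℝ} (hr : r ∈ Icc (0 : ℝ) 1) : Aa c r ≤ r ^ 2 := by
  rw [Aa_eq hc hr]
  have h1 := rho_le hc hr
  have h2 : r ^ (2 * N + 2) ≤ r ^ 2 := pow_le_pow_of_le_one hr.1 hr.2 (by omega)
  have h3 := mul_le_mul_of_nonneg_left h2 (s_le hc)
  nlinarith

theorem fE_le (hB : 0 < B) (hK : Bd B lam k K) (hs : 0 < s) (hs1 : s ≤ 1) (hc : Cf N s c) {r : ℝ}
    (hr : r ∈ Ioo (0 : ℝ) 1) :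
    fE B lam k s (Aa c) r ≤ fE B lam k s (fun t => s ^ 2 * t ^ 2) r
      + 3 / 2 * B ^ 2 * K ^ 2 * (1 - s ^ 2) * r ^ (2 * N + 1) := by
  have hr0 := hr.1
  have hrc : r ∈ Icc (0 : ℝ) 1 := ⟨hr.1.le, hr.2.le⟩
  have h1 := rho_le hc hrc
  have h0 := rho_nonneg hc hrc
  have hss := s_le hc
  unfold fE
  rw [Aa_eq hc hrc]
  set ρ := rho c r with hρ
  have hK0 := hK.pos
  have hsr : s * r ∈ Icc (0 : ℝ) 1 := ⟨(mul_pos hs hr0).le, by nlinarith [hr.2]⟩
  have hg : gk B lam k (s * r) ^ 2 ≤ K ^ 2 := by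
    rw [← sq_abs]
    exact pow_le_pow_left₀ (abs_nonneg _) (hK.b0 _ hsr) 2
  set X := gk B lam k (s * r) ^ 2 with hX
  have hX0 : 0 ≤ X := sq_nonneg _
  have hk : (0 : ℝ) ≤ k := Nat.cast_nonneg k
  have hρ1 : ρ ≤ 1 := by
    have h2 : r ^ (2 * N + 2) ≤ 1 := pow_le_one₀ hr0.le hr.2.le
    have h3 : (1 - s ^ 2) * r ^ (2 * N + 2) ≤ 1 * 1 :=
      mul_le_mul (by nlinarith [sq_nonneg s]) h2 (by positivity) zero_le_one
    linarith
  have hsr2 : s ^ 2 * r ^ 2 ≤ 1 := by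
    have h2 : s ^ 2 ≤ 1 := pow_le_one₀ hs.le hs1
    have h3 : r ^ 2 ≤ 1 := pow_le_one₀ hr0.le hr.2.le
    nlinarith [sq_nonneg r, sq_nonneg s]
  -- the square
  have hq : (k - B * (s ^ 2 * r ^ 2 + ρ) / 2) ^ 2 ≤ (k - B * (s ^ 2 * r ^ 2) / 2) ^ 2 + 3 / 4 * B ^ 2 * ρ := by
    have e1 : (k - B * (s ^ 2 * r ^ 2 + ρ) / 2) ^ 2
        = (k - B * (s ^ 2 * r ^ 2) / 2) ^ 2 - B * ρ * k + B ^ 2 * ρ / 2 * (s ^ 2 * r ^ 2) + B ^ 2 * ρ / 4 * ρ := by
      ring
    have e2 : 0 ≤ B * ρ * k := by positivity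
    have e3 : B ^ 2 * ρ / 2 * (s ^ 2 * r ^ 2) ≤ B ^ 2 * ρ / 2 * 1 :=
      mul_le_mul_of_nonneg_left hsr2 (by positivity)
    have e4 : B ^ 2 * ρ / 4 * ρ ≤ B ^ 2 * ρ / 4 * 1 := mul_le_mul_of_nonneg_left hρ1 (by positivity)
    linarith
  have h5 : 2 * r * (X * ((k - B * (s ^ 2 * r ^ 2 + ρ) / 2) / r) ^ 2)
      ≤ 2 * r * (X * ((k - B * (s ^ 2 * r ^ 2) / 2) / r) ^ 2) + 2 * r * (X * (3 / 4 * B ^ 2 * ρ / r ^ 2)) := by
    have e1 : 2 * r * (X * ((k - B * (s ^ 2 * r ^ 2) / 2) / r) ^ 2) + 2 * r * (X * (3 / 4 * B ^ 2 * ρ / r ^ 2))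
        = 2 * r * (X * (((k - B * (s ^ 2 * r ^ 2) / 2) ^ 2 + 3 / 4 * B ^ 2 * ρ) / r ^ 2)) := by
      rw [div_pow]
      ring
    rw [e1, div_pow]
    have e2 : (k - B * (s ^ 2 * r ^ 2 + ρ) / 2) ^ 2 / r ^ 2
        ≤ ((k - B * (s ^ 2 * r ^ 2) / 2) ^ 2 + 3 / 4 * B ^ 2 * ρ) / r ^ 2 :=
      div_le_div_of_nonneg_right hq (by positivity)
    have e3 := mul_le_mul_of_nonneg_left e2 hX0
    exact mul_le_mul_of_nonneg_left e3 (by positivity)
  have h6 : 2 * r * (X * (3 / 4 * B ^ 2 * ρ / r ^ 2)) ≤ 3 / 2 * B ^ 2 * K ^ 2 * (1 - s ^ 2) * r ^ (2 * N + 1) := by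
    have e1 : 2 * r * (X * (3 / 4 * B ^ 2 * ρ / r ^ 2)) = 3 / 2 * B ^ 2 * X * ρ / r := by
      field_simp
      ring
    rw [e1, div_le_iff₀ hr0]
    have e2 : 3 / 2 * B ^ 2 * K ^ 2 * (1 - s ^ 2) * r ^ (2 * N + 1) * r
        = 3 / 2 * B ^ 2 * (K ^ 2 * ((1 - s ^ 2) * r ^ (2 * N + 2))) := by ring
    have e3 : 3 / 2 * B ^ 2 * X * ρ = 3 / 2 * B ^ 2 * (X * ρ) := by ring
    rw [e2, e3]
    refine mul_le_mul_of_nonneg_left ?_ (by positivity)
    exact mul_le_mul hg h1 h0 (by positivity)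
  have h7 : 2 * r * ((s * deriv (gk B lam k) (s * r)) ^ 2 + X * ((k - B * (s ^ 2 * r ^ 2 + ρ) / 2) / r) ^ 2)
      = 2 * r * (s * deriv (gk B lam k) (s * r)) ^ 2
        + 2 * r * (X * ((k - B * (s ^ 2 * r ^ 2 + ρ) / 2) / r) ^ 2) := by ring
  have h8 : 2 * r * ((s * deriv (gk B lam k) (s * r)) ^ 2 + X * ((k - B * (s ^ 2 * r ^ 2) / 2) / r) ^ 2)
      = 2 * r * (s * deriv (gk B lam k) (s * r)) ^ 2
        + 2 * r * (X * ((k - B * (s ^ 2 * r ^ 2) / 2) / r) ^ 2) := by ring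
  rw [h7, h8]
  linarith

theorem lip (hB : 0 < B) (hl : lam < B) (hK : Bd B lam k K) (hs : 0 < s) (hs1 : s ≤ 1) {r : ℝ}
    (hr : r ∈ Icc (0 : ℝ) 1) :
    gk B lam k (s * 1) ^ 2 - 2 * K ^ 2 * (1 - r) ≤ gk B lam k (s * r) ^ 2 := by
  have hK0 := hK.pos
  have h1 := Convex.norm_image_sub_le_of_norm_hasDerivWithin_le (C := 2 * K ^ 2)
    (f := fun t => gk B lam k (s * t) ^ 2) (f' := fun t => 2 * gk B lam k (s * t) * (deriv (gk B lam k) (s * t) * s))
    (s := Icc (0 : ℝ) 1) (x := r) (y := 1) ?_ ?_ (convex_Icc 0 1) hr ⟨zero_le_one, le_rfl⟩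
  · rw [Real.norm_eq_abs, Real.norm_eq_abs, abs_of_nonneg (by linarith [hr.2] : (0 : ℝ) ≤ 1 - r)] at h1
    have h2 := (abs_le.mp h1).2
    linarith
  · intro t _
    have h0 : HasDerivAt (fun t : ℝ => s * t) s t := by simpa using (hasDerivAt_id' t).const_mul s
    have h2 := (gk_d1 hB hl k (s * t)).comp t h0
    have h3 := h2.pow 2
    refine (h3.congr_deriv ?_).hasDerivWithinAt
    simp [Function.comp]
  · intro t ht
    have hst : s * t ∈ Icc (0 : ℝ) 1 := ⟨mul_nonneg hs.le ht.1, by nlinarith [ht.1, ht.2]⟩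
    have h2 := hK.b0 _ hst
    have h3 := hK.b1 _ hst
    rw [Real.norm_eq_abs, abs_mul, abs_mul, abs_mul, abs_of_pos hs, abs_two]
    have h4 : |deriv (gk B lam k) (s * t)| * s ≤ K * 1 := mul_le_mul h3 hs1 hs.le hK0
    calc 2 * |gk B lam k (s * t)| * (|deriv (gk B lam k) (s * t)| * s) ≤ 2 * K * (K * 1) :=
          mul_le_mul (by linarith) h4 (by positivity) (by positivity)
      _ = 2 * K ^ 2 := by ring

end

end IRad

theorem pr_Rad : StRad := by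
  intro B lam m hSp
  have hB := hSp.hB
  have hl0 := hSp.lam_pos
  have hl := hSp.lam_lt
  obtain ⟨K, hK⟩ := IRad.exists_Bd hB hl m
  have hK0 : 0 ≤ K := (hK 0 (Nat.zero_le _)).pos
  refine ⟨(K ^ 2 + 1) * (1 + B ^ 2 + lam), by positivity, ?_⟩
  intro k hk s N c hs hs1 hN hc
  have hKk := hK k hk
  have hgc := gk_cont hB hl k
  have hpc : Continuous fun r => gk B lam k (s * r) := hgc.comp (by fun_prop : Continuous fun r : ℝ => s * r)
  have hpb : ∀ r ∈ Icc (0 : ℝ) 1, gk B lam k (s * r) ^ 2 ≤ K ^ 2 := by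
    intro r hr
    have hsr : s * r ∈ Icc (0 : ℝ) 1 := ⟨mul_nonneg hs.le hr.1, by nlinarith [hr.1, hr.2]⟩
    rw [← sq_abs]
    exact pow_le_pow_left₀ (abs_nonneg _) (hKk.b0 _ hsr) 2
  have hKC : K ^ 2 ≤ (K ^ 2 + 1) * (1 + B ^ 2 + lam) := by nlinarith [sq_nonneg K, sq_nonneg B]
  have hEint : IntegrableOn (IRad.fE B lam k s (Aa c)) (Ioo 0 1) :=
    IRad.fE_int hB hl hKk hs hs1 (IRad.Aa_cont hc) (fun r hr => IRad.Aa_nonneg hc hr)
      (fun r hr => IRad.Aa_le hc hr)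
  refine ⟨fun r hr => (hpb r hr).trans hKC, hEint, IRad.mass_int hc hpc hpb, ?_⟩
  change (∫ r in Ioo (0 : ℝ) 1, IRad.fE B lam k s (Aa c) r) - _ ≤ _
  have hE0int : IntegrableOn (IRad.fE B lam k s (fun t => s ^ 2 * t ^ 2)) (Ioo 0 1) := by
    refine IRad.fE_int hB hl hKk hs hs1 (by fun_prop) (fun r _ => by positivity) fun r hr => ?_
    have : s ^ 2 ≤ 1 := pow_le_one₀ hs.le hs1
    nlinarith [sq_nonneg r]
  have hrint : IntegrableOn (fun r : ℝ => 3 / 2 * B ^ 2 * K ^ 2 * (1 - s ^ 2) * r ^ (2 * N + 1)) (Ioo 0 1) :=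
    IRad.intg_cont (by fun_prop)
  have h1 : (∫ r in Ioo (0 : ℝ) 1, IRad.fE B lam k s (Aa c) r)
      ≤ (∫ r in Ioo (0 : ℝ) 1, IRad.fE B lam k s (fun t => s ^ 2 * t ^ 2) r)
        + 3 / 2 * B ^ 2 * K ^ 2 * (1 - s ^ 2) * (1 / ((2 * N + 1 : ℕ) + 1)) := by
    have h2 := setIntegral_mono_on hEint (hE0int.add hrint) measurableSet_Ioo
      (fun r hr => IRad.fE_le hB hKk hs hs1 hc hr)
    refine h2.trans (le_of_eq ?_)
    rw [← IRad.int_pow, ← integral_const_mul]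
    exact integral_add hE0int hrint
  have h3 := IRad.mass_ge hc hpc (K := 2 * K ^ 2) (by positivity) hpb
    (fun r hr => IRad.lip hB hl hKk hs hs1 hr) hN
  have h4 := IRad.main0 hB hl hKk hs hs1
  rw [mul_one] at h3
  have h5 := mul_le_mul_of_nonneg_left h3 hl0.le
  have hss := IRad.s_le hc
  have hNr : (1 : ℝ) ≤ N := by exact_mod_cast hN
  have h6 : 3 / 2 * B ^ 2 * K ^ 2 * (1 - s ^ 2) * (1 / ((2 * N + 1 : ℕ) + 1))
      ≤ B ^ 2 * K ^ 2 * (1 - s ^ 2) * (1 / N) := by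
    push_cast
    have e1 : 3 / 2 * (1 / (2 * (N : ℝ) + 1 + 1)) ≤ 1 / N := by
      rw [mul_one_div, div_le_div_iff₀ (by positivity) (by positivity)]
      linarith
    have e2 := mul_le_mul_of_nonneg_left e1 (by positivity : 0 ≤ B ^ 2 * K ^ 2 * (1 - s ^ 2))
    calc 3 / 2 * B ^ 2 * K ^ 2 * (1 - s ^ 2) * (1 / (2 * (N : ℝ) + 1 + 1))
        = B ^ 2 * K ^ 2 * (1 - s ^ 2) * (3 / 2 * (1 / (2 * (N : ℝ) + 1 + 1))) := by ring
      _ ≤ _ := e2
  have h7 : lam * ((1 - s ^ 2) * (2 * K ^ 2 / (2 * N))) = lam * K ^ 2 * (1 - s ^ 2) * (1 / N) := by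
    field_simp
  have h8 : (B ^ 2 * K ^ 2 + lam * K ^ 2) * ((1 - s ^ 2) * (1 / N))
      ≤ (K ^ 2 + 1) * (1 + B ^ 2 + lam) * ((1 - s ^ 2) * (1 / N)) := by
    refine mul_le_mul_of_nonneg_right ?_ (by positivity)
    nlinarith [sq_nonneg K, sq_nonneg B, mul_nonneg hl0.le (sq_nonneg K)]
  have h9 : (K ^ 2 + 1) * (1 + B ^ 2 + lam) * (1 - s ^ 2) / N
      = (K ^ 2 + 1) * (1 + B ^ 2 + lam) * ((1 - s ^ 2) * (1 / N)) := by ring
  rw [h9]
  unfold WW
  have h10 : lam * ((∫ r in Ioo (0 : ℝ) 1, gk B lam k (s * r) ^ 2 * (2 * s ^ 2 * r))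
      + (1 - s ^ 2) * (gk B lam k s ^ 2 - 2 * K ^ 2 / (2 * N)))
      = lam * (∫ r in Ioo (0 : ℝ) 1, gk B lam k (s * r) ^ 2 * (2 * s ^ 2 * r))
        + lam * (1 - s ^ 2) * gk B lam k s ^ 2 - lam * ((1 - s ^ 2) * (2 * K ^ 2 / (2 * N))) := by ring
  rw [h10, h7] at h5
  nlinarith

end Pool.Agent.MFK.NF
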