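import Pool.Agent.Work.MP_8826fd_mp.NF.Gk

/-!
# MP_8826fd_mp, block NF, item Uni: uniform version of the covering lemma
-/

set_option autoImplicit false

namespace Pool.Agent.MFK.NF

open MeasureTheory Set Filter Topology

namespace IUni

theorem WW_cont {B lam : ℝ} (hB : 0 < B) (hl : lam < B) (k : ℕ) : Continuous (WW B lam k) := by
  have h1 := gk_cont hB hl k
  have h2 := gk_dcont hB hl k
  unfold WW
  fun_prop

/-- near `1` -/
theorem near {B lam : ℝ} {m : ℕ} (h : Sp B lam m) : ∃ ε > (0 : ℝ), ∃ c > (0 : ℝ), ε < 1 ∧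
    ∀ s ∈ Ico (1 - ε) 1, WW B lam m s ≤ -c * (1 - s ^ 2) := by
  have hg := gk_pos h.hB h.lam_lt m one_pos
  have hz := h.zero
  have hp := h.hp
  set g1 := gk B lam m 1 with hg1
  have hd : HasDerivAt (WW B lam m) (((m : ℝ) - B / 2) ^ 2 * g1 ^ 2) 1 := by
    have e1 := gk_ode h.hB h.lam_lt m one_pos
    have e2 := gk_d1 h.hB h.lam_lt m 1
    have e3 := e1.mul e2
    have e4 : HasDerivAt (fun s : ℝ => lam * (1 - s ^ 2) / 2) (-lam) 1 := by
      refine ((((hasDerivAt_pow 2 (1 : ℝ)).const_sub 1).const_mul lam).div_const 2).congr_deriv ?_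
      norm_num
      ring
    have e5 := e4.mul (e2.pow 2)
    have e6 := e3.sub e5
    refine (e6.congr_deriv ?_).congr_of_eventuallyEq ?_
    · simp only [hz, ← hg1]
      norm_num
      ring
    · refine Filter.Eventually.of_forall fun s => ?_
      simp only [WW, Pi.sub_apply, Pi.mul_apply, Pi.pow_apply]
  set D := ((m : ℝ) - B / 2) ^ 2 * g1 ^ 2 with hD
  have hDpos : 0 < D := by
    have : (m : ℝ) - B / 2 ≠ 0 := by linarith
    positivity
  have h0 : WW B lam m 1 = 0 := by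
    unfold WW
    rw [hz]
    ring
  have hs := (hasDerivAt_iff_tendsto_slope.1 hd).eventually (lt_mem_nhds (half_lt_self hDpos))
  rw [eventually_nhdsWithin_iff, Metric.eventually_nhds_iff] at hs
  obtain ⟨ε, hε, hs⟩ := hs
  refine ⟨min (ε / 2) (1 / 2), by positivity, D / 4, by positivity, ?_, ?_⟩
  · exact lt_of_le_of_lt (min_le_right _ _) (by norm_num)
  · intro s hs1
    have a1 : min (ε / 2) (1 / 2) ≤ ε / 2 := min_le_left _ _
    have a2 : min (ε / 2) (1 / 2) ≤ 1 / 2 := min_le_right _ _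
    have a3 := hs1.1
    have a4 := hs1.2
    have hne : s ≠ 1 := ne_of_lt a4
    have hdist : dist s 1 < ε := by
      rw [Real.dist_eq, abs_lt]
      constructor <;> linarith
    have h3 := hs hdist hne
    rw [slope_def_field, h0, sub_zero] at h3
    have h4 : s - 1 < 0 := by linarith
    rw [lt_div_iff_of_neg h4] at h3
    have h5 : 0 ≤ 1 - s := by linarith
    nlinarith [mul_nonneg hDpos.le (mul_nonneg h5 h5)]

/-- away from `1` -/
theorem away {B lam : ℝ} {m : ℕ} (h1 : StCov) (h : Sp B lam m) {ε : ℝ} (hε : 0 < ε) (hε1 : ε < 1) :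
    ∃ c > (0 : ℝ), ∀ s ∈ Icc (0 : ℝ) (1 - ε), ∃ k ≤ m, WW B lam k s ≤ -c := by
  set H : ℝ → ℝ := fun s => ∑ k ∈ Finset.range (m + 1), min (WW B lam k s) 0 with hH
  have hc : Continuous H := by
    refine continuous_finsetSum _ fun k _ => ?_
    exact (WW_cont h.hB h.lam_lt k).min continuous_const
  have hneg : ∀ s ∈ Icc (0 : ℝ) (1 - ε), H s < 0 := by
    intro s hs
    have hex : ∃ k ≤ m, WW B lam k s < 0 := by
      rcases eq_or_lt_of_le hs.1 with h0 | h0
      · refine ⟨0, Nat.zero_le _, ?_⟩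
        rw [← h0]
        have hg := gk_zero h.hB h.lam_lt
        have hl := h.lam_pos
        unfold WW
        have : 0 < lam * gk B lam 0 0 ^ 2 := by positivity
        nlinarith
      · exact h1 B lam m h s ⟨h0, by linarith [hs.2]⟩
    obtain ⟨k, hk, hw⟩ := hex
    refine Finset.sum_neg' (fun j _ => min_le_right _ _) ⟨k, Finset.mem_range.2 (by omega), ?_⟩
    exact lt_of_le_of_lt (min_le_left _ _) hw
  have hne : (Icc (0 : ℝ) (1 - ε)).Nonempty := ⟨0, le_rfl, by linarith⟩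
  obtain ⟨s0, hs0, hmax⟩ := isCompact_Icc.exists_isMaxOn hne hc.continuousOn
  have hn0 := hneg s0 hs0
  have hm1 : (0 : ℝ) < (m : ℝ) + 1 := by positivity
  refine ⟨-H s0 / (m + 1), div_pos (by linarith) hm1, fun s hs => ?_⟩
  by_contra hcon
  push Not at hcon
  have h2 : H s ≤ H s0 := hmax hs
  have h3 : ∑ k ∈ Finset.range (m + 1), (H s0 / (m + 1)) < H s := by
    refine Finset.sum_lt_sum_of_nonempty ⟨0, Finset.mem_range.2 (Nat.succ_pos _)⟩ fun k hk => ?_
    have hk' : k ≤ m := by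
      have := Finset.mem_range.1 hk
      omega
    have h4 := hcon k hk'
    have h5 : -(-H s0 / (m + 1)) = H s0 / ((m : ℝ) + 1) := by ring
    rw [h5] at h4
    exact lt_min h4 (div_neg_of_neg_of_pos hn0 hm1)
  rw [Finset.sum_const, Finset.card_range, nsmul_eq_mul] at h3
  push_cast at h3
  rw [mul_div_cancel₀ _ hm1.ne'] at h3
  linarith

end IUni

theorem pr_Uni (h1 : StCov) : StUni := by
  intro B lam m h
  obtain ⟨ε, hε, c, hc, hε1, hn⟩ := IUni.near h
  obtain ⟨d, hd, ha⟩ := IUni.away h1 h hε hε1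
  refine ⟨min c d, lt_min hc hd, fun s hs => ?_⟩
  have hc' : min c d ≤ c := min_le_left _ _
  have hd' : min c d ≤ d := min_le_right _ _
  have hpos : 0 < min c d := lt_min hc hd
  have hs2 : 0 ≤ 1 - s ^ 2 := by nlinarith [hs.1, hs.2]
  rcases le_or_gt (1 - ε) s with h2 | h2
  · refine ⟨m, le_rfl, (hn s ⟨h2, hs.2⟩).trans ?_⟩
    nlinarith [mul_nonneg (sub_nonneg.2 hc') hs2]
  · obtain ⟨k, hk, hw⟩ := ha s ⟨hs.1, h2.le⟩
    refine ⟨k, hk, hw.trans ?_⟩
    nlinarith [sq_nonneg s, mul_nonneg hpos.le (sq_nonneg s)]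

end Pool.Agent.MFK.NF
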