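import Pool.Agent.Work.MP_8826fd_mp.NF.I_Cov
import Pool.Agent.Work.MP_8826fd_mp.NF.I_Uni
import Pool.Agent.Work.MP_8826fd_mp.NF.I_Rad
import Pool.Agent.Work.MP_8826fd_mp.NF.I_Q
import Pool.Agent.Work.MP_8826fd_mp.NF.I_F1
import Pool.Agent.Work.MP_8826fd_mp.NF.I_F2
import Pool.Agent.Work.MP_8826fd_mp.NF.I_Var
import Pool.Agent.Work.MP_8826fd_mp.NF.I_Gau
import Pool.Agent.Work.MP_8826fd_mp.NF.I_Den
import Pool.Agent.Work.MP_8826fd_mp.NF.I_PC
import Pool.Agent.Work.MP_8826fd_mp.NF.I_Ray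
import Pool.Agent.Work.MP_8826fd_mp.NF.I_Area
import Pool.Agent.Work.MP_8826fd_mp.NF.I_En
import Pool.Agent.Work.MP_8826fd_mp.NF.I_C0
import Pool.Agent.Work.MP_8826fd_mp.NF.I_C1
import Pool.Agent.Work.MP_8826fd_mp.NF.I_C2
import Pool.Agent.Work.MP_8826fd_mp.NF.I_MU
import Pool.Agent.Work.MP_8826fd_mp.NF.I_Fin

/-!
# MP_8826fd_mp, block NF: assembly
-/

set_option autoImplicit false

namespace Pool.Agent.MFK.NF

theorem all_F2 : StF2 := pr_F2 pr_F1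

theorem all_Var : StVar := pr_Var all_F2 pr_Q

theorem all_Area : StArea := pr_Area pr_PC pr_F1

theorem all_En : StEn := pr_En pr_Den pr_PC all_Area all_F2 all_Var

theorem all_MU : StMU :=
  pr_MU (pr_Uni pr_Cov) pr_Rad pr_Gau pr_Den pr_Ray all_Area all_En (pr_C2 pr_C0 pr_C1)

theorem all_Fin : StFin := pr_Fin all_MU

end Pool.Agent.MFK.NF
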