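import Pool.Agent.Work.MP_8826fd_mp.StmtsF
import Pool.Agent.Work.MP_8826fd_mp.Asm
import Pool.Agent.Work.MP_8826fd_mp.F2

/-!
# MP_8826fd_mp, block NF: domains with `N`-fold rotational symmetry.  Captain helper57.

GOAL.  For all `B, R > 0` there is `N₀` such that for every `N ≥ N₀` every open simply connected `Ω ⊂ ℝ²` of area `π R²` which is
invariant under the rotation by `2π/N` about some point satisfies `λ(B, Ω) ≤ λ(B, D(0,R))`, with equality only for the disc.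

METHOD.  `Ω = F(𝔻)`, `F(w) = ∑ a_j w^j`, `a_j = 0` unless `j ≡ 1 mod N`, `∑ j |a_j|² = 1` (area `π`), `s = |a_1|`.  Test function
`u(F(re^{iθ})) = p(r) e^{ikθ} e^{iBφ}`, where `φ` changes the gauge to the radial gauge `b(r,θ) dθ`, `b = ∫₀^r |F'(σe^{iθ})|² σ dσ`.
Its energy is `∫∫ (r p'² + p² (k - B b)²/r) dθ dr`; the mean of `b` over `θ` is `A(r)/2`, `A(r) = ∑ j |a_j|² r^{2j}`, and the variance of `b`
contributes at most `2π (1 - s²)/N` (item Var).  With `p(r) = g_k(sr)`, `g_k` the regular solution of mode `k` with the energy `λ = λ(B, 𝔻)`: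
`(E - λM)/π ≤ 2 W_k(s) + C (1 - s²)/N`, `W_k(s) = s g_k'(s) g_k(s) - (λ/2)(1 - s²) g_k(s)²` (item Rad), and for every `s ∈ (0,1)`
there is a `k ≤ m` with `W_k(s) < 0` (item Cov).
-/

set_option autoImplicit false

namespace Pool.Agent.MFK.NF

open MeasureTheory Set Filter Topology

/-! ### one-dimensional part -/

/-- the regular radial solution of mode `k` with energy `lam` -/
noncomputable def gk (B lam : ℝ) (k : ℕ) : ℝ → ℝ := radf (k : ℤ) (FK B lam (k : ℤ))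

/-- spectral data of the unit disc: `lam` is the ground state energy, `m` a ground mode -/
structure Sp (B lam : ℝ) (m : ℕ) : Prop where
  hB : 0 < B
  lam_pos : 0 < lam
  lam_lt : lam < B
  zero : deriv (gk B lam m) 1 = 0
  hp : 0 < B / 2 - m
  lb : lam ≤ lamN B disc

/-- `W_k(s) = s g_k'(s) g_k(s) - (λ/2)(1 - s²) g_k(s)²` -/
noncomputable def WW (B lam : ℝ) (k : ℕ) (s : ℝ) : ℝ :=
  s * deriv (gk B lam k) s * gk B lam k s - lam * (1 - s ^ 2) / 2 * gk B lam k s ^ 2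

/-- coefficients `c_j = j |a_j|²` -/
structure Cf (N : ℕ) (s : ℝ) (c : ℕ → ℝ) : Prop where
  nonneg : ∀ j, 0 ≤ c j
  c0 : c 0 = 0
  c1 : c 1 = s ^ 2
  gap : ∀ j, 1 < j → j ≤ N → c j = 0
  sum : HasSum c 1

/-- `A(r) = ∑ c_j r^{2j}` -/
noncomputable def Aa (c : ℕ → ℝ) (r : ℝ) : ℝ := ∑' j, c j * r ^ (2 * j)

/-- `A'(r)` -/
noncomputable def Aad (c : ℕ → ℝ) (r : ℝ) : ℝ := ∑' j, c j * (2 * j * r ^ (2 * j - 1))

/-- `κ_n(k) = k x_k x_{k+n}` -/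
noncomputable def kap (x : ℕ → ℝ) (n k : ℕ) : ℝ := k * x k * x (k + n)

/-! ### complex notation -/

/-- the form `A = (-x₂, x₁)/2`: `A(z)(h) = Im(z̄ h)/2` -/
noncomputable def AA (z h : ℂ) : ℝ := ((starRingEnd ℂ) z * h).im / 2

/-- magnetic energy density of a function on the complex plane -/
noncomputable def edC (B : ℝ) (U : ℂ → ℂ) (z : ℂ) : ℝ :=
  ‖fderiv ℝ U z 1 - Complex.I * ((B * AA z 1 : ℝ) : ℂ) * U z‖ ^ 2
    + ‖fderiv ℝ U z Complex.I - Complex.I * ((B * AA z Complex.I : ℝ) : ℂ) * U z‖ ^ 2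

/-- the set of points `(x, y)` with `x + iy ∈ Ω` -/
def toR (Ω : Set ℂ) : Set (ℝ × ℝ) := {x | (⟨x.1, x.2⟩ : ℂ) ∈ Ω}

/-- the point `r e^{iθ}` -/
noncomputable def pc (r θ : ℝ) : ℂ := (r : ℂ) * Complex.exp (Complex.I * θ)

/-- `g(w) = ∫₀¹ σ |F'(σw)|² dσ`; the radial gauge is `g(w) Im(w̄ dw) = b(r,θ) dθ` -/
noncomputable def gg (F : ℂ → ℂ) (w : ℂ) : ℝ := ∫ σ in (0 : ℝ)..1, σ * ‖deriv F ((σ : ℂ) * w)‖ ^ 2

/-- `b(r,θ) = r² g(re^{iθ}) = ∫₀^r |F'(σe^{iθ})|² σ dσ` -/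
noncomputable def bb (F : ℂ → ℂ) (r θ : ℝ) : ℝ := r ^ 2 * gg F (pc r θ)

/-- `|w F'(w)|²` at `w = re^{iθ}` -/
noncomputable def Hr (F : ℂ → ℂ) (r θ : ℝ) : ℝ := ‖pc r θ * deriv F (pc r θ)‖ ^ 2

/-- `c_j = j |a_j|²` -/
noncomputable def cc (a : ℕ → ℂ) (j : ℕ) : ℝ := j * ‖a j‖ ^ 2

/-- a holomorphic function on the unit disc with its Taylor coefficients -/
structure Hol (F : ℂ → ℂ) (a : ℕ → ℂ) : Prop where
  Fd : DifferentiableOn ℂ F (Metric.ball 0 1)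
  ser : ∀ w ∈ Metric.ball (0 : ℂ) 1, HasSum (fun j => a j * w ^ j) (F w)

/-- conformal map of the unit disc onto `Ω` (inverse `f`) with `N`-fold symmetry -/
structure CM (N : ℕ) (Ω : Set ℂ) (f F : ℂ → ℂ) (a : ℕ → ℂ) : Prop extends Hol F a where
  hN : 2 ≤ N
  opn : IsOpen Ω
  fd : DifferentiableOn ℂ f Ω
  fm : MapsTo f Ω (Metric.ball 0 1)
  Fm : MapsTo F (Metric.ball 0 1) Ω
  fF : ∀ w ∈ Metric.ball (0 : ℂ) 1, f (F w) = w
  Ff : ∀ z ∈ Ω, F (f z) = z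
  gap : ∀ j, a j ≠ 0 → j % N = 1

/-- `w^k Ψ(|w|²)` -/
noncomputable def vt (k : ℕ) (Ψ : ℝ → ℝ) (w : ℂ) : ℂ := w ^ k * ((Ψ (‖w‖ ^ 2) : ℝ) : ℂ)

/-- the test function -/
noncomputable def UT (B : ℝ) (k : ℕ) (Ψ : ℝ → ℝ) (φ : ℂ → ℝ) (f : ℂ → ℂ) (z : ℂ) : ℂ :=
  vt k Ψ (f z) * Complex.exp (Complex.I * ((B * φ (f z) : ℝ) : ℂ))

/-- `φ` changes the potential `F^*A` to the radial gauge -/
structure Gau (F : ℂ → ℂ) (φ : ℂ → ℝ) : Prop where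
  sm : ContDiffOn ℝ 1 φ (Metric.ball 0 1)
  der : ∀ w ∈ Metric.ball (0 : ℂ) 1, ∀ h : ℂ,
    fderiv ℝ φ w h = AA (F w) (deriv F w * h) - gg F w * ((starRingEnd ℂ) w * h).im

/-- rotation by `2π/N` about `p` -/
noncomputable def rotN (N : ℕ) (p x : ℝ × ℝ) : ℝ × ℝ :=
  (p.1 + Real.cos (2 * Real.pi / N) * (x.1 - p.1) - Real.sin (2 * Real.pi / N) * (x.2 - p.2),
   p.2 + Real.sin (2 * Real.pi / N) * (x.1 - p.1) + Real.cos (2 * Real.pi / N) * (x.2 - p.2))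

end Pool.Agent.MFK.NF
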