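import Pool.Agent.Work.MP_8826fd_mp.NF.Stmts

/-!
# MP_8826fd_mp, block NF: facts on the regular solutions `gk`
-/

set_option autoImplicit false

namespace Pool.Agent.MFK.NF

open MeasureTheory Set Filter Topology

/-- constant of the ladder relation -/
noncomputable def lc (B lam : ℝ) (k : ℕ) : ℝ := B * ((k + 1 - (1 / 2 - lam / (2 * B))) / (k + 1))

section

variable {B lam : ℝ} (hB : 0 < B) (hl : lam < B)
include hB hl

theorem gk_rad (k : ℕ) : Rad B lam (k : ℤ) (FK B lam (k : ℤ)) := Asm.rRad' B lam k hB hl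

theorem gk_c2 (k : ℕ) : ContDiff ℝ 2 (gk B lam k) :=
  (rReg B lam k _ (gk_rad hB hl k)).2.1

theorem gk_d1 (k : ℕ) (r : ℝ) : HasDerivAt (gk B lam k) (deriv (gk B lam k) r) r :=
  (rReg B lam k _ (gk_rad hB hl k)).1 r

theorem gk_cont (k : ℕ) : Continuous (gk B lam k) := (gk_c2 hB hl k).continuous

theorem gk_dcont (k : ℕ) : Continuous (deriv (gk B lam k)) :=
  (rReg B lam k _ (gk_rad hB hl k)).2.2.1

theorem gk_pos (k : ℕ) {r : ℝ} (hr : 0 < r) : 0 < gk B lam k r :=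
  (rReg B lam k _ (gk_rad hB hl k)).2.2.2.1 r hr

theorem gk_zero : 0 < gk B lam 0 0 := by
  have h := (gk_rad hB hl 0).pos 0 le_rfl
  unfold gk radf
  simpa using h

theorem gk_d2 (k : ℕ) {r : ℝ} (hr : 0 < r) : HasDerivAt (deriv (gk B lam k))
    ((((k : ℝ) / r - B * r / 2) ^ 2 - lam) * gk B lam k r - deriv (gk B lam k) r / r) r := by
  have h := (rReg B lam k _ (gk_rad hB hl k)).2.2.2.2.2.1 r hr
  unfold qn at h
  push_cast at h
  exact h

/-- `(r g')' = r ((k/r - Br/2)² - lam) g` -/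
theorem gk_ode (k : ℕ) {r : ℝ} (hr : 0 < r) : HasDerivAt (fun t => t * deriv (gk B lam k) t)
    (r * ((((k : ℝ) / r - B * r / 2) ^ 2 - lam) * gk B lam k r)) r := by
  have h := (gk_rad hB hl k).ode r hr
  unfold qn at h
  push_cast at h
  rw [mul_assoc] at h
  exact h

theorem gk_bdd (k : ℕ) : ∃ K : ℝ, 0 < K ∧ ∀ r ∈ Icc (0 : ℝ) 1, |gk B lam k r| ≤ K ∧
    |deriv (gk B lam k) r| ≤ K ∧ (0 < r → |(k : ℝ) / r * gk B lam k r| ≤ K) := by
  obtain ⟨C, hC⟩ := (rReg B lam k _ (gk_rad hB hl k)).2.2.2.2.2.2.2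
  obtain ⟨C1, hC1⟩ := (isCompact_Icc (a := (0 : ℝ)) (b := 1)).exists_bound_of_continuousOn
    (gk_cont hB hl k).continuousOn
  obtain ⟨C2, hC2⟩ := (isCompact_Icc (a := (0 : ℝ)) (b := 1)).exists_bound_of_continuousOn
    (gk_dcont hB hl k).continuousOn
  refine ⟨|C| + |C1| + |C2| + 1, by positivity, fun r hr => ?_⟩
  have h1 := hC1 r hr
  have h2 := hC2 r hr
  rw [Real.norm_eq_abs] at h1 h2
  have a1 := le_abs_self C
  have a2 := le_abs_self C1
  have a3 := le_abs_self C2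
  have b1 := abs_nonneg C
  have b2 := abs_nonneg C1
  have b3 := abs_nonneg C2
  refine ⟨by linarith, by linarith, fun hr0 => ?_⟩
  have h3 := (hC r ⟨hr0, hr.2⟩).2.2
  push_cast at h3
  have h4 : |(k : ℝ) / r * gk B lam k r| ≤ C := h3
  linarith

/-- ladder relation -/
theorem gk_up (k : ℕ) {r : ℝ} (hr : 0 < r) :
    ((k : ℝ) / r + B * r / 2) * gk B lam k r - deriv (gk B lam k) r
      = lc B lam k * gk B lam (k + 1) r := by
  have h := Asm.rUp' B lam k r hB hl hr
  unfold lc gk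
  push_cast
  exact h

end

theorem lc_pos {B lam : ℝ} (hB : 0 < B) (hl0 : 0 < lam) (k : ℕ) : 0 < lc B lam k := by
  unfold lc
  have h1 : 0 < lam / (2 * B) := by positivity
  have h2 : (0 : ℝ) ≤ k := Nat.cast_nonneg k
  have h3 : (0 : ℝ) < (k : ℝ) + 1 - (1 / 2 - lam / (2 * B)) := by linarith
  positivity

/-- second ladder relation -/
theorem gk_down {B lam : ℝ} (hB : 0 < B) (hl : lam < B) (k : ℕ) {r : ℝ} (hr : 0 < r) :
    lc B lam k * (deriv (gk B lam (k + 1)) r + (((k : ℝ) + 1) / r + B * r / 2) * gk B lam (k + 1) r)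
      = (lam + (2 * k + 1) * B) * gk B lam k r := by
  have h0 : HasDerivAt (fun t => lc B lam k * gk B lam (k + 1) t)
      (lc B lam k * deriv (gk B lam (k + 1)) r) r := (gk_d1 hB hl (k + 1) r).const_mul _
  have h1 : HasDerivAt (fun t : ℝ => (k : ℝ) / t + B * t / 2) (-(k : ℝ) / r ^ 2 + B / 2) r := by
    have a1 : HasDerivAt (fun t : ℝ => (k : ℝ) / t) (((0 : ℝ) * r - k * 1) / r ^ 2) r :=
      (hasDerivAt_const r (k : ℝ)).fun_div (hasDerivAt_id' r) hr.ne'
    have a2 : HasDerivAt (fun t : ℝ => B * t / 2) (B * 1 / 2) r :=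
      ((hasDerivAt_id' r).const_mul B).div_const 2
    exact (a1.fun_add a2).congr_deriv (by ring)
  have h2 := (h1.fun_mul (gk_d1 hB hl k r)).fun_sub (gk_d2 hB hl k hr)
  have h3 : (fun t => lc B lam k * gk B lam (k + 1) t) =ᶠ[𝓝 r]
      (fun t => ((k : ℝ) / t + B * t / 2) * gk B lam k t - deriv (gk B lam k) t) := by
    filter_upwards [lt_mem_nhds hr] with t ht
    exact (gk_up hB hl k ht).symm
  have h4 := h0.unique (h2.congr_of_eventuallyEq h3)
  rw [mul_add, h4]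
  have h5 : lc B lam k * ((((k : ℝ) + 1) / r + B * r / 2) * gk B lam (k + 1) r)
      = (((k : ℝ) + 1) / r + B * r / 2) * (lc B lam k * gk B lam (k + 1) r) := by ring
  rw [h5, ← gk_up hB hl k hr]
  field_simp
  ring

/-- product form of the ladder relations, `y_k = r g_k'/g_k` -/
theorem gk_prod {B lam : ℝ} (hB : 0 < B) (hl0 : 0 < lam) (hl : lam < B) (k : ℕ) {r : ℝ} (hr : 0 < r) :
    (r * deriv (gk B lam (k + 1)) r / gk B lam (k + 1) r + k + 1 + B * r ^ 2 / 2)
      * (k + B * r ^ 2 / 2 - r * deriv (gk B lam k) r / gk B lam k r)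
      = (lam + (2 * k + 1) * B) * r ^ 2 := by
  have hp := gk_pos hB hl k hr
  have hp1 := gk_pos hB hl (k + 1) hr
  have h1 := gk_up hB hl k hr
  have h2 := gk_down hB hl k hr
  have h3 : (k + B * r ^ 2 / 2 - r * deriv (gk B lam k) r / gk B lam k r)
      = r * (lc B lam k * gk B lam (k + 1) r) / gk B lam k r := by
    rw [← h1]
    field_simp
  have h4 : (r * deriv (gk B lam (k + 1)) r / gk B lam (k + 1) r + k + 1 + B * r ^ 2 / 2)
      = r * (deriv (gk B lam (k + 1)) r + (((k : ℝ) + 1) / r + B * r / 2) * gk B lam (k + 1) r)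
        / gk B lam (k + 1) r := by
    field_simp
    ring
  rw [h3, h4]
  have h5 : r * (deriv (gk B lam (k + 1)) r + (((k : ℝ) + 1) / r + B * r / 2) * gk B lam (k + 1) r)
        / gk B lam (k + 1) r * (r * (lc B lam k * gk B lam (k + 1) r) / gk B lam k r)
      = r ^ 2 * (lc B lam k * (deriv (gk B lam (k + 1)) r
        + (((k : ℝ) + 1) / r + B * r / 2) * gk B lam (k + 1) r)) / gk B lam k r := by
    field_simp
  rw [h5, h2]
  field_simp

/-- `y_k < k + B r²/2` -/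
theorem gk_lt {B lam : ℝ} (hB : 0 < B) (hl0 : 0 < lam) (hl : lam < B) (k : ℕ) {r : ℝ} (hr : 0 < r) :
    r * deriv (gk B lam k) r / gk B lam k r < k + B * r ^ 2 / 2 := by
  have hp := gk_pos hB hl k hr
  have hp1 := gk_pos hB hl (k + 1) hr
  have h1 := gk_up hB hl k hr
  have h3 : (k + B * r ^ 2 / 2 - r * deriv (gk B lam k) r / gk B lam k r)
      = r * (lc B lam k * gk B lam (k + 1) r) / gk B lam k r := by
    rw [← h1]
    field_simp
  have h4 : 0 < r * (lc B lam k * gk B lam (k + 1) r) / gk B lam k r := by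
    have := lc_pos hB hl0 k
    positivity
  linarith

/-- Riccati equation: `r y' = (Br²/2 - k)² - lam r² - y²` -/
theorem gk_ric {B lam : ℝ} (hB : 0 < B) (hl : lam < B) (k : ℕ) {r : ℝ} (hr : 0 < r) :
    HasDerivAt (fun t => t * deriv (gk B lam k) t / gk B lam k t)
      (((B * r ^ 2 / 2 - k) ^ 2 - lam * r ^ 2 - (r * deriv (gk B lam k) r / gk B lam k r) ^ 2) / r) r := by
  have hp := gk_pos hB hl k hr
  have h := (gk_ode hB hl k hr).fun_div (gk_d1 hB hl k r) hp.ne'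
  refine h.congr_deriv ?_
  field_simp
  ring

/-- spectral data of the disc -/
theorem pr_Sp {B : ℝ} (hB : 0 < B) : ∃ (lam : ℝ) (m : ℕ), Sp B lam m := by
  obtain ⟨lam, m, hl0, hlB, hnn, hz⟩ := Asm.rGround' B hB
  have hrad : ∀ n : ℤ, Rad B lam n (FK B lam n) := fun n => Asm.rRad' B lam n hB hlB
  have hF1 : ∀ n : ℤ, 0 < FK B lam n 1 := fun n => (hrad n).pos 1 zero_le_one
  have hD : Data B lam m (fun n => FK B lam n) := by
    refine ⟨hl0, hlB, hrad, fun n => div_nonneg (hnn n) (hF1 n).le, ?_⟩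
    unfold dtn
    rw [show deriv (radf (m : ℤ) (FK B lam (m : ℤ))) 1 = 0 from hz]
    simp
  have hz' : deriv (gk B lam m) 1 = 0 := hz
  have hp1 := gk_pos hB hlB m one_pos
  -- `p > 0`: otherwise use the ladder relation at `1` and `y_(m+1) ≥ 0`
  have hprod := gk_prod hB hl0 hlB m one_pos
  rw [hz'] at hprod
  have hnn1 : 0 ≤ deriv (gk B lam (m + 1)) 1 := by
    have := hnn ((m + 1 : ℕ) : ℤ)
    exact this
  have hp2 := gk_pos hB hlB (m + 1) one_pos
  have hp : 0 < B / 2 - m := by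
    rcases Nat.eq_zero_or_pos m with h0 | h0
    · rw [h0]; simpa using hB
    · -- `y_(m-1) ≥ 0` gives `p (p+1) ≥ lam > 0` and `y_(m+1) ≥ 0` gives `p (p-1) ≤ lam`
      obtain ⟨j, rfl⟩ : ∃ j, m = j + 1 := ⟨m - 1, by omega⟩
      have hpr := gk_prod hB hl0 hlB j one_pos
      rw [hz'] at hpr
      have hnj : 0 ≤ deriv (gk B lam j) 1 := by
        have := hnn ((j : ℕ) : ℤ)
        exact this
      have hpj := gk_pos hB hlB j one_pos
      have hyj : 0 ≤ 1 * deriv (gk B lam j) 1 / gk B lam j 1 := by positivity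
      have hyp : 0 ≤ 1 * deriv (gk B lam (j + 1 + 1)) 1 / gk B lam (j + 1 + 1) 1 := by positivity
      push_cast at hprod hpr ⊢
      simp only [one_pow, mul_one, mul_zero, zero_div, zero_add, sub_zero] at hprod hpr hyj hyp
      set yj := 1 * deriv (gk B lam j) 1 / gk B lam j 1 with hyjd
      set yp := 1 * deriv (gk B lam (j + 1 + 1)) 1 / gk B lam (j + 1 + 1) 1 with hypd
      have hj : (0 : ℝ) ≤ j := Nat.cast_nonneg j
      by_contra hcon
      push Not at hcon
      -- (j+1+B/2)(j+B/2 - yj) = lam + (2j+1)B, so p(p+1) = ... 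
      have e1 : (j + 1 + B / 2) * (j + B / 2) ≥ lam + (2 * j + 1) * B := by nlinarith
      have e2 : (B / 2 - (j + 1)) * (B / 2 - (j + 1) + 1) ≥ lam := by nlinarith
      have e3 : (j + 1 + 1 + B / 2) * (j + 1 + B / 2) ≤ lam + (2 * (j + 1) + 1) * B := by nlinarith
      have e4 : (B / 2 - (j + 1)) * (B / 2 - (j + 1) - 1) ≤ lam := by nlinarith
      nlinarith
  exact ⟨lam, m, hB, hl0, hlB, hz', hp, Asm.stLB B lam m _ hB hD⟩

end Pool.Agent.MFK.NF
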