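import Pool.Agent.Work.MP_8826fd_mp.NF.Gk

/-!
# MP_8826fd_mp, block NF, item Cov: for every `s` in `(0,1)` some `k ≤ m` has `WW B lam k s < 0`
-/

set_option autoImplicit false

namespace Pool.Agent.MFK.NF

open MeasureTheory Set Filter Topology

namespace ICov

/-- `y_k = r g_k'/g_k` -/
noncomputable def yk (B lam : ℝ) (k : ℕ) (r : ℝ) : ℝ :=
  r * deriv (gk B lam k) r / gk B lam k r

/-- `w_k = y_k - lam (1 - r²)/2` -/
noncomputable def wk (B lam : ℝ) (k : ℕ) (r : ℝ) : ℝ := yk B lam k r - lam * (1 - r ^ 2) / 2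

theorem WW_eq {B lam : ℝ} (hB : 0 < B) (hl : lam < B) (k : ℕ) {r : ℝ} (hr : 0 < r) :
    WW B lam k r = gk B lam k r ^ 2 * wk B lam k r := by
  have hp := gk_pos hB hl k hr
  unfold WW wk yk
  field_simp

theorem wk_der {B lam : ℝ} (hB : 0 < B) (hl : lam < B) (k : ℕ) {r : ℝ} (hr : 0 < r) :
    HasDerivAt (wk B lam k) (((B * r ^ 2 / 2 - k) ^ 2 - yk B lam k r ^ 2) / r) r := by
  have h1 := gk_ric hB hl k hr
  have h2 : HasDerivAt (fun t : ℝ => lam * (1 - t ^ 2) / 2) (lam * (0 - 2 * r) / 2) r := by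
    have a1 : HasDerivAt (fun t : ℝ => t ^ 2) (2 * r) r := by
      simpa using hasDerivAt_pow 2 r
    exact (((hasDerivAt_const r (1 : ℝ)).fun_sub a1).const_mul lam).div_const 2
  have h3 := h1.fun_sub h2
  refine h3.congr_deriv ?_
  unfold yk
  field_simp
  ring

theorem wk_nonneg {B lam : ℝ} (hB : 0 < B) (hl : lam < B) (k : ℕ) {r : ℝ} (hr : 0 < r)
    (h : 0 ≤ WW B lam k r) : 0 ≤ wk B lam k r := by
  rw [WW_eq hB hl k hr] at h
  have hp := gk_pos hB hl k hr
  by_contra hc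
  push Not at hc
  have : gk B lam k r ^ 2 * wk B lam k r < 0 := mul_neg_of_pos_of_neg (by positivity) hc
  linarith

/-- if `f t = 0` and `f' t > 0` then `f > 0` on the right of `t` -/
theorem pos_right {f : ℝ → ℝ} {f' t : ℝ} (h : HasDerivAt f f' t) (h0 : f t = 0) (hf : 0 < f') :
    ∀ᶠ r in 𝓝[>] t, 0 < f r := by
  have h1 : Tendsto (slope f t) (𝓝[≠] t) (𝓝 f') := hasDerivAt_iff_tendsto_slope.1 h
  have h2 : ∀ᶠ r in 𝓝[≠] t, 0 < slope f t r := h1.eventually (lt_mem_nhds hf)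
  have h3 : ∀ᶠ r in 𝓝[>] t, 0 < slope f t r :=
    h2.filter_mono (nhdsWithin_mono t (fun x (hx : t < x) => ne_of_gt hx))
  filter_upwards [h3, self_mem_nhdsWithin] with r hr hr2
  have hr3 : t < r := hr2
  rw [slope_def_field, h0, sub_zero] at hr
  have hr4 : 0 < r - t := by linarith
  exact (div_pos_iff_of_pos_right hr4).1 hr

/-- if `f t = 0` and `f' t > 0` then `f < 0` on the left of `t` -/
theorem neg_left {f : ℝ → ℝ} {f' t : ℝ} (h : HasDerivAt f f' t) (h0 : f t = 0) (hf : 0 < f') :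
    ∀ᶠ r in 𝓝[<] t, f r < 0 := by
  have h1 : Tendsto (slope f t) (𝓝[≠] t) (𝓝 f') := hasDerivAt_iff_tendsto_slope.1 h
  have h2 : ∀ᶠ r in 𝓝[≠] t, 0 < slope f t r := h1.eventually (lt_mem_nhds hf)
  have h3 : ∀ᶠ r in 𝓝[<] t, 0 < slope f t r :=
    h2.filter_mono (nhdsWithin_mono t (fun x (hx : x < t) => ne_of_lt hx))
  filter_upwards [h3, self_mem_nhdsWithin] with r hr hr2
  have hr3 : r < t := hr2
  rw [slope_def_field, h0, sub_zero] at hr
  have hr4 : r - t < 0 := by linarith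
  by_contra hc
  push Not at hc
  have : f r / (r - t) ≤ 0 := div_nonpos_of_nonneg_of_nonpos hc hr4.le
  linarith

end ICov

open ICov in
theorem pr_Cov : StCov := by
  intro B lam m hS s hs
  have hB := hS.hB
  have hl := hS.lam_lt
  have hl0 := hS.lam_pos
  by_contra hcon
  push Not at hcon
  have hs0 : 0 < s := hs.1
  have hcont : ∀ k : ℕ, ∀ r : ℝ, 0 < r → ContinuousAt (wk B lam k) r :=
    fun k r hr => (wk_der hB hl k hr).continuousAt
  -- near `1`
  have hm0 : yk B lam m 1 = 0 := by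
    unfold yk
    rw [hS.zero]
    simp
  have hm1 : wk B lam m 1 = 0 := by
    unfold wk
    rw [hm0]
    ring
  have hm2 := wk_der hB hl m (one_pos (α := ℝ))
  have hp := hS.hp
  have hm3 : 0 < ((B * 1 ^ 2 / 2 - m) ^ 2 - yk B lam m 1 ^ 2) / (1 : ℝ) := by
    rw [hm0]
    have : (0 : ℝ) < (B / 2 - m) ^ 2 := by positivity
    simpa using this
  have hm4 : ∀ᶠ r in 𝓝[<] (1 : ℝ), wk B lam m r < 0 := neg_left hm2 hm1 hm3
  obtain ⟨e, he, he2⟩ := (mem_nhdsLT_iff_exists_Ioo_subset).1 hm4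
  -- the set `U`
  set U : Set ℝ := {r | r ∈ Ioo (0 : ℝ) 1 ∧ ∀ k ≤ m, 0 ≤ wk B lam k r} with hU
  have hsU : s ∈ U := ⟨hs, fun k hk => wk_nonneg hB hl k hs0 (hcon k hk)⟩
  have he1 : e < 1 := he
  have hUe : ∀ r ∈ U, r ≤ e := by
    intro r hr
    by_contra hc
    push Not at hc
    have h1 : wk B lam m r < 0 := he2 ⟨hc, hr.1.2⟩
    have h2 := hr.2 m le_rfl
    linarith
  have hbdd : BddAbove U := ⟨e, hUe⟩
  set t := sSup U with ht
  have hst : s ≤ t := le_csSup hbdd hsU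
  have ht0 : 0 < t := lt_of_lt_of_le hs0 hst
  have ht1 : t < 1 := lt_of_le_of_lt (csSup_le ⟨s, hsU⟩ hUe) he1
  have htcl : t ∈ closure U := csSup_mem_closure ⟨s, hsU⟩ hbdd
  have htU : ∀ k ≤ m, 0 ≤ wk B lam k t := by
    intro k hk
    by_contra hc
    push Not at hc
    have h1 : ∀ᶠ r in 𝓝 t, wk B lam k r < 0 := (hcont k t ht0).eventually (gt_mem_nhds hc)
    have h2 : ∃ᶠ r in 𝓝 t, r ∈ U := mem_closure_iff_frequently.1 htcl
    obtain ⟨r, hr1, hr2⟩ := (h2.and_eventually h1).exists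
    have := hr1.2 k hk
    linarith
  -- on the right of `t` some `w_k` is negative
  have hright : ∀ r ∈ Ioo t 1, ∃ k ≤ m, wk B lam k r < 0 := by
    intro r hr
    by_contra hc
    push Not at hc
    have h1 : r ∈ U := ⟨⟨lt_trans ht0 hr.1, hr.2⟩, hc⟩
    have h2 := le_csSup hbdd h1
    have h3 := hr.1
    linarith
  have hfreq : ∃ k ≤ m, ∃ᶠ r in 𝓝[>] t, wk B lam k r < 0 := by
    by_contra hc
    push Not at hc
    have h1 : ∀ k ∈ Finset.range (m + 1), ∀ᶠ r in 𝓝[>] t, 0 ≤ wk B lam k r := by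
      intro k hk
      exact hc k (by have := Finset.mem_range.1 hk; omega)
    have h2 : ∀ᶠ r in 𝓝[>] t, ∀ k ∈ Finset.range (m + 1), 0 ≤ wk B lam k r :=
      (Finset.eventually_all _).2 h1
    have h3 : ∀ᶠ r in 𝓝[>] t, r ∈ Ioo t 1 := Ioo_mem_nhdsGT ht1
    obtain ⟨r, hr1, hr2⟩ := (h2.and h3).exists
    obtain ⟨k, hk, hk2⟩ := hright r hr2
    have := hr1 k (Finset.mem_range.2 (by omega))
    linarith
  obtain ⟨k, hk, hfk⟩ := hfreq
  have hwk0 : wk B lam k t = 0 := by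
    refine le_antisymm ?_ (htU k hk)
    by_contra hc
    push Not at hc
    have h1 : ∀ᶠ r in 𝓝 t, 0 < wk B lam k r := (hcont k t ht0).eventually (lt_mem_nhds hc)
    have h2 : ∀ᶠ r in 𝓝[>] t, 0 < wk B lam k r := h1.filter_mono nhdsWithin_le_nhds
    obtain ⟨r, hr1, hr2⟩ := (hfk.and_eventually h2).exists
    linarith
  have hder := wk_der hB hl k ht0
  have hD : (B * t ^ 2 / 2 - k) ^ 2 ≤ yk B lam k t ^ 2 := by
    by_contra hc
    push Not at hc
    have h1 : 0 < ((B * t ^ 2 / 2 - k) ^ 2 - yk B lam k t ^ 2) / t := by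
      apply div_pos _ ht0
      linarith
    have h2 := pos_right hder hwk0 h1
    obtain ⟨r, hr1, hr2⟩ := (hfk.and_eventually h2).exists
    linarith
  have hz0 : 0 < lam * (1 - t ^ 2) / 2 := by
    have : 0 < 1 - t ^ 2 := by nlinarith
    positivity
  have hyz : yk B lam k t = lam * (1 - t ^ 2) / 2 := by
    have h := hwk0
    unfold wk at h
    linarith
  rcases Nat.eq_zero_or_pos k with h0 | h0
  · -- `k = 0`
    have h1 := gk_lt hB hl0 hl k ht0
    have h2 : yk B lam k t < k + B * t ^ 2 / 2 := h1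
    rw [h0] at h2 hD hyz
    simp only [Nat.cast_zero, zero_add, sub_zero] at h2 hD
    have h3 : 0 < yk B lam 0 t := by rw [hyz]; exact hz0
    nlinarith
  · obtain ⟨j, rfl⟩ : ∃ j, k = j + 1 := ⟨k - 1, by omega⟩
    have hpr := gk_prod hB hl0 hl j ht0
    have h1 : (yk B lam (j + 1) t + j + 1 + B * t ^ 2 / 2)
        * (j + B * t ^ 2 / 2 - yk B lam j t) = (lam + (2 * j + 1) * B) * t ^ 2 := hpr
    have h2 := htU j (by omega)
    have h3 : lam * (1 - t ^ 2) / 2 ≤ yk B lam j t := by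
      unfold wk at h2
      linarith
    rw [hyz] at h1 hD
    push_cast at hD
    set z := lam * (1 - t ^ 2) / 2 with hzdef
    set y := yk B lam j t with hydef
    have hj : (0 : ℝ) ≤ j := Nat.cast_nonneg j
    have hBt : 0 < B * t ^ 2 := by positivity
    have hDz : B * t ^ 2 / 2 - (j + 1) ≤ z := by
      have := abs_le_of_sq_le_sq' hD hz0.le
      exact this.2
    have hpos : 0 < z + j + 1 + B * t ^ 2 / 2 := by positivity
    have h4 : (z + j + 1 + B * t ^ 2 / 2) * (j + B * t ^ 2 / 2 - y)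
        ≤ (z + j + 1 + B * t ^ 2 / 2) * (j + B * t ^ 2 / 2 - z) := by
      apply mul_le_mul_of_nonneg_left _ hpos.le
      linarith
    have h5 : (z + j + 1 + B * t ^ 2 / 2) * (j + B * t ^ 2 / 2 - z) - (2 * j + 1) * B * t ^ 2
        = ((B * t ^ 2 / 2 - (j + 1)) ^ 2 - z ^ 2) + ((B * t ^ 2 / 2 - (j + 1)) - z) := by
      ring
    have h6 : 0 < lam * t ^ 2 := by positivity
    nlinarith

end Pool.Agent.MFK.NF
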