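import Pool.Agent.Work.MP_8826fd_mp.NF.Defs

/-!
# MP_8826fd_mp, block NF: statements of the items, each with its proof in the docstring.  Captain helper57.

FORMAT.  Item NAME: file `NF/I_NAME.lean`, namespace `Pool.Agent.MFK.NF`, auxiliary lemmas in the namespace `INAME`, main theorem
`theorem pr_NAME (h1 : StA) ... : StNAME`.  The hypotheses are only the statements named in the docstring.
USEFUL (all proved): `NF/Gk.lean` (facts on `gk`: `gk_c2`, `gk_pos`, `gk_ode`, `gk_prod`, `gk_lt`, `gk_ric`, `gk_bdd`), `Asm.lean`; in `Bd/B04.lean`: `lPars`, `lBessel`, `L3.fc_const`, `L3.fc_sub`, `L3.fc_bound`,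
`pIntD`; in `Bd/B02.lean`: `uRay`; `sc` (`Sc.lean`), `F2.edisc_image`.  (Use the bundles `Bd/B0x.lean` of the repository, not old separate files.)
-/

set_option autoImplicit false

namespace Pool.Agent.MFK.NF

open MeasureTheory Set Filter Topology

/-! ### part 1: ordinary differential equations -/

/-- ITEM Cov.  `D_k(r) = B r²/2 - k`, `y_k = r g_k'/g_k`, `z = lam (1 - r²)/2`, `w_k = y_k - z`; `WW < 0` iff `w_k < 0`.  Facts (`NF/Gk.lean`): `g_k > 0` on `(0,∞)`;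
`r y_k' = D_k² - lam r² - y_k²`, so `r w_k' = D_k² - y_k²` (as `r z' = -lam r²`); ladder: `(k + B r²/2 - y_k) g_k/r = C g_{k+1}`, `C > 0`, so `y_k < k + B r²/2`, and
`(y_{k+1} + k + 1 + B r²/2)(k + B r²/2 - y_k) = (lam + (2k+1) B) r²`.
Let `U = {r ∈ (0,1) : ∀ k ≤ m, w_k(r) ≥ 0}` and suppose `U ≠ ∅`.  `w_m(1) = 0` and `w_m'(1) = D_m(1)² > 0`, so `w_m < 0` on some `(1-ε, 1)`; hence `t = sup U < 1`, `t > 0`, and `t ∈ U` by continuity.  On `(t, 1)` some `w_k` is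
negative; as there are finitely many `k ≤ m`, some `k ≤ m` has `w_k < 0` at points arbitrarily close to `t` on the right, so `w_k(t) = 0` and `w_k'(t) ≤ 0`, i.e. `D² ≤ z²` where `D = D_k(t)`, `z = y_k(t) > 0`.
If `k = 0`: `0 < y_0 < B t²/2 = D_0`, contradiction.  If `k ≥ 1`: claim `w_{k-1}(t) < 0`, a contradiction to `t ∈ U`.  By the ladder (with `k - 1`) `(z + k + B t²/2)(k - 1 + B t²/2 - y_{k-1}) = (lam + (2k-1) B) t²`, and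
`(z + k + B t²/2)(k - 1 + B t²/2 - z) - (2k-1) B t² = (D - z)(D + z + 1) = D² - z² + D - z ≤ 0 < lam t²` (put `B t²/2 = D + k`), so `k - 1 + B t²/2 - z < k - 1 + B t²/2 - y_{k-1}`, i.e. `y_{k-1} < z`. -/
def StCov : Prop := ∀ (B lam : ℝ) (m : ℕ), Sp B lam m → ∀ s ∈ Ioo (0 : ℝ) 1, ∃ k ≤ m, WW B lam k s < 0

/-- ITEM Uni (uses StCov).  `WW B lam k` is continuous on `ℝ` (`g_k` is `C²`).  Near `1`: `WW m 1 = 0` and the derivative of `WW m` at `1` is `p² g_m(1)² > 0`, `p = B/2 - m` (`(s g_m')' = s (q² - lam) g_m`, `q = m/s - B s/2`, `g_m'(1) = 0`), so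
`WW m s ≤ -c₁ (1 - s)` on some `[1-ε, 1]`.  On `[0, 1-ε]`: `H(s) = ∑_{k ≤ m} min (WW k s) 0` is continuous and negative (at `s = 0`: `WW 0 0 = -(lam/2) g_0(0)² < 0`, `g_0(0) = FK B lam 0 0 > 0`; at `s > 0`: StCov), so `H ≤ -δ`, and some `k` has `WW k s ≤ -δ/(m+1)`. -/
def StUni : Prop := ∀ (B lam : ℝ) (m : ℕ), Sp B lam m → ∃ c > (0 : ℝ), ∀ s ∈ Ico (0 : ℝ) 1, ∃ k ≤ m,
  WW B lam k s ≤ -c * (1 - s ^ 2)

/-- ITEM Rad (radial energy).  `p(r) = g_k(sr)`, `p'(r) = s g_k'(sr)`; `|g_k|, |g_k'| ≤ K` on `[0,1]` for `k ≤ m`.  `ρ(r) = ∑_{j ≥ 2} c_j r^{2j}`: `A = s² r² + ρ`, `0 ≤ ρ ≤ (1 - s²) r^{2N+2}` on `[0,1]`, `A' = 2 s² r + ρ'`, `ρ' = ∑_{j≥2} c_j 2j r^{2j-1} ≥ 0`.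
(i) `x g_k(x) g_k'(x)` has the derivative `x (g_k'² + ((k/x - B x/2)² - lam) g_k²)` (`x > 0`), so by the substitution `x = sr`
`∫₀¹ 2r (p'² + p² ((k - B s² r²/2)/r)²) dr - lam ∫₀¹ p² 2 s² r dr = 2 s g_k(s) g_k'(s)` (a primitive of the integrand on `(0,1]` is `2 s r g_k(sr) g_k'(sr)`; the integrands are bounded: `(k/r) g_k(sr)` is bounded).
(ii) `((k - B A/2)/r)² · 2r = ((k - B s² r²/2)/r)² · 2r + (2/r)(-Bρ (k - B s² r²/2) + B² ρ²/4)` and the last term is `≤ (2/r) (3/4) B² ρ ≤ (3/2) B² (1 - s²) r^{2N+1}`; its integral against `p² ≤ K²` is `≤ C (1 - s²)/N`.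
(iii) `∫₀¹ p² ρ' dr ≥ g_k(s)² (1 - s²) - 2K² (1 - s²)/N`: `p(r)² ≥ g_k(s)² - 2K² (1 - r)`, and termwise `∫₀¹ 2j r^{2j-1} dr = 1`, `∫₀¹ (1 - r) 2j r^{2j-1} dr = 1/(2j+1) ≤ 1/N` for `j > N` (`hasSum_integral_of_summable_integral_norm`).
Sum: `2 s g_k g_k'(s) - lam (1 - s²) g_k(s)² + C (1 - s²)/N`. -/
def StRad : Prop := ∀ (B lam : ℝ) (m : ℕ), Sp B lam m → ∃ C > (0 : ℝ), ∀ k ≤ m, ∀ (s : ℝ) (N : ℕ) (c : ℕ → ℝ),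
  0 < s → s ≤ 1 → 1 ≤ N → Cf N s c →
  (∀ r ∈ Icc (0 : ℝ) 1, gk B lam k (s * r) ^ 2 ≤ C) ∧
  IntegrableOn (fun r => 2 * r * ((s * deriv (gk B lam k) (s * r)) ^ 2 + gk B lam k (s * r) ^ 2 * ((k - B * Aa c r / 2) / r) ^ 2)) (Ioo 0 1) ∧
  IntegrableOn (fun r => gk B lam k (s * r) ^ 2 * Aad c r) (Ioo 0 1) ∧
  (∫ r in Ioo (0 : ℝ) 1, 2 * r * ((s * deriv (gk B lam k) (s * r)) ^ 2 + gk B lam k (s * r) ^ 2 * ((k - B * Aa c r / 2) / r) ^ 2))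
    - lam * (∫ r in Ioo (0 : ℝ) 1, gk B lam k (s * r) ^ 2 * Aad c r) ≤ 2 * WW B lam k s + C * (1 - s ^ 2) / N

/-! ### part 2: the variance of `b` -/

/-- ITEM Q (quadratic form; sums in `ENNReal`).  `c_j = j x_j²`.  `κ_n(k) κ_n(l) = (√k x_k √l x_{l+n})(√l x_l √k x_{k+n}) ≤ ½ (k x_k² l x_{l+n}² + l x_l² k x_{k+n}²) ≤ ½ (c_k c_{l+n} + c_l c_{k+n})`, and `κ_n(k) = 0` unless `N ∣ n` (`k ≡ k + n ≡ 1 mod N`).
By symmetry in `(k,l)` the left side is `≤ ∑_{n ≥ 1, N ∣ n} ∑_k ∑_l c_k c_{l+n}/(k+l+n) ≤ ∑_k ∑_j c_k c_j #{n ≥ 1 : N ∣ n, n ≤ j}/(k + j)` (`j = l + n`; `∑_l g(l+n) = ∑_j g(j) 1[j ≥ n]`, exchange the sums), the number is `≤ j/N`, and it is `0` for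
`j ≤ 1` (`N ≥ 2`); so it is `≤ (1/N) ∑_k c_k ∑_{j ≥ 2} c_j`.  (`N = 1` excluded.) -/
def StQ : Prop := ∀ (N : ℕ) (x : ℕ → ℝ), 2 ≤ N → (∀ j, 0 ≤ x j) → (∀ j, x j ≠ 0 → j % N = 1) →
  (∑' j : ℕ, ENNReal.ofReal (j * x j ^ 2)) = 1 →
  (∑' n : ℕ, ∑' k : ℕ, ∑' l : ℕ, ENNReal.ofReal (kap x (n + 1) k * kap x (n + 1) l / (k + l + (n + 1))))
    ≤ ENNReal.ofReal (1 / N) * ∑' j : ℕ, ENNReal.ofReal ((j + 2 : ℕ) * x (j + 2) ^ 2)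

/-- ITEM F1 (Fourier coefficients of `|wF'(w)|²` on `|w| = r`).  `w F'(w) = ∑ j a_j w^j` (derivative of the power series) `= ∑_j b_j e^{ijθ} =: G(θ)`, `b_j = j a_j r^j`, `∑ |b_j| < ∞`.  `fc (|G|²) n = (1/2π) ∫ ∑_k conj(b_k) e^{-ikθ} G(θ) e^{-inθ} dθ = ∑_k conj(b_k) (1/2π) ∫ G e^{-i(k+n)θ}
= ∑_k conj(b_k) b_{k+n}` (`b_j = 0` for `j < 0`; termwise integration of absolutely convergent series, `hasSum_integral_of_summable_norm` or `intervalIntegral.hasSum_integral_of_dominated_convergence`; orthogonality of the exponentials).  For `n < 0` substitute `k = k' + |n|`.  Take norms. -/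
def StF1 : Prop := ∀ (F : ℂ → ℂ) (a : ℕ → ℂ), Hol F a → ∀ r ∈ Ioo (0 : ℝ) 1,
  Summable (fun k : ℕ => (k : ℝ) ^ 2 * ‖a k‖ ^ 2 * r ^ (2 * k)) ∧
  fc (fun θ => ((Hr F r θ : ℝ) : ℂ)) 0 = ((∑' k : ℕ, (k : ℝ) ^ 2 * ‖a k‖ ^ 2 * r ^ (2 * k) : ℝ) : ℂ) ∧
  ∀ n : ℤ, Summable (fun k : ℕ => ((k + n.natAbs : ℕ) : ℝ) * kap (fun j => ‖a j‖) n.natAbs k * r ^ (2 * k + n.natAbs)) ∧
    ‖fc (fun θ => ((Hr F r θ : ℝ) : ℂ)) n‖ ≤ ∑' k : ℕ, ((k + n.natAbs : ℕ) : ℝ) * kap (fun j => ‖a j‖) n.natAbs k * r ^ (2 * k + n.natAbs)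

/-- ITEM F2 (Fourier coefficients of `b(r,·)`; uses StF1).  `b(r,θ) = ∫₀¹ σ r² |F'(σre^{iθ})|² dσ = ∫₀¹ (1/σ) H_{σr}(θ) dσ`; the integrand `σ r² |F'(σre^{iθ})|²` is continuous in `(σ, θ) ∈ [0,1] × ℝ`, so `b(r,·)` is continuous and, by Fubini,
`fc (b(r,·)) n = ∫₀¹ (1/σ) fc (H_{σr}) n dσ`.  For `n = 0`: `= ∑_k k² ‖a_k‖² r^{2k}/(2k) = ½ ∑ k ‖a_k‖² r^{2k}`; in general the norm is
`≤ ∫₀¹ ∑_k (k+|n|) κ_{|n|}(k) σ^{2k+|n|-1} r^{2k+|n|} dσ = ∑_k (k+|n|)/(2k+|n|) κ_{|n|}(k) r^{2k+|n|} ≤ ∑_k κ_{|n|}(k) r^{2k+|n|}` (`(k,n) = (0,0)`: `κ = 0`). -/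
def StF2 : Prop := ∀ (F : ℂ → ℂ) (a : ℕ → ℂ), Hol F a → ∀ r ∈ Ioo (0 : ℝ) 1,
  Continuous (fun θ => bb F r θ) ∧ fc (fun θ => ((bb F r θ : ℝ) : ℂ)) 0 = ((Aa (cc a) r / 2 : ℝ) : ℂ) ∧
  ∀ n : ℤ, Summable (fun k : ℕ => kap (fun j => ‖a j‖) n.natAbs k * r ^ (2 * k + n.natAbs)) ∧
    ‖fc (fun θ => ((bb F r θ : ℝ) : ℂ)) n‖ ≤ ∑' k : ℕ, kap (fun j => ‖a j‖) n.natAbs k * r ^ (2 * k + n.natAbs)

/-- ITEM Var (uses StF2, StQ; `lPars` of `L1.lean`).  For `r ∈ (0,1)`: `v = b(r,·) - A/2` is continuous and periodic, `fc v 0 = 0`, `fc v n = fc b n` for `n ≠ 0`, so by Parseval (`lPars`) `∫₀^{2π} v² = ∑_{n ≠ 0} 2π |fc b n|² ≤ 4π ∑_{n ≥ 1} (∑_k κ_n(k) r^{2k+n})²`.  In `ENNReal`: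
`∫⁻_r (1/r) ∫⁻_θ v² ≤ 4π ∑_{n≥1} ∫⁻_r (1/r) ∑_k ∑_l κ_n(k) κ_n(l) r^{2k+2l+2n} = 4π ∑_{n≥1} ∑_k ∑_l κ_n(k) κ_n(l)/(2(k+l+n))` (`lintegral_tsum`), and StQ with `x_j = ‖a_j‖`. -/
def StVar : Prop := ∀ (F : ℂ → ℂ) (a : ℕ → ℂ) (N : ℕ), Hol F a → 2 ≤ N → (∀ j, a j ≠ 0 → j % N = 1) →
  (∑' j : ℕ, ENNReal.ofReal (cc a j)) = 1 →
  (∫⁻ r in Ioo (0 : ℝ) 1, ∫⁻ θ in Ioo (0 : ℝ) (2 * Real.pi), ENNReal.ofReal ((bb F r θ - Aa (cc a) r / 2) ^ 2 / r))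
    ≤ ENNReal.ofReal (2 * Real.pi / N) * ∑' j : ℕ, ENNReal.ofReal (cc a (j + 2))

/-! ### part 3: the test function -/

/-- ITEM Gau (existence of the gauge function).  `ω(w)(h) = AA (F w) (F'(w) h) - g(w) Im(w̄ h)` is a differentiable real one-form on the ball.  `g` is differentiable: `hasFDerivAt_integral_of_dominated_of_fderiv_le` with `G(w) = ‖F'(w)‖²` (`F'` is holomorphic, so `G` is `C^1`;
near `w₀` all `σw` stay in a compact ball, where `‖DG‖` is bounded), `Dg(w) = ∫₀¹ σ² DG(σw) dσ`, and `Dg(w)(w) = ∫₀¹ σ² (d/dσ) G(σw) dσ = G(w) - 2g(w)` (integrate `(σ² G(σw))'`).  `ω` is closed: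
`Dω(w)(h₁)(h₂) = ½ Im(conj(F'h₁) F'h₂ + conj(F) F'' h₁ h₂) - Dg(h₁) Im(w̄h₂) - g Im(h̄₁h₂)`, the antisymmetric part is `(G - 2g - Dg(w)(w)) Im(h̄₁h₂) = 0`, because `L(h₁) Im(w̄h₂) - L(h₂) Im(w̄h₁) = L(w) Im(h̄₁h₂)` for every real linear `L`.
Poincare lemma: `Convex.exists_forall_hasFDerivAt_of_fderiv_symmetric`; `φ` is `C¹` because `ω` is continuous. -/
def StGau : Prop := ∀ F : ℂ → ℂ, DifferentiableOn ℂ F (Metric.ball 0 1) → ∃ φ : ℂ → ℝ, Gau F φ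

/-- ITEM Den (energy density of the test function).  `U = UT B k Ψ φ f`.  `U` is `C¹` on `Ω` (`vt k Ψ` is `C¹`, `f` is holomorphic, `φ` is `C¹` on the ball).  Let `w = pc r θ`, `z = F w`, `L(h) = fderiv U z h - i B AA z h U z` (real linear), `edC = ‖L 1‖² + ‖L I‖²`;
for `c = F'(w) e^{iθ}`: `‖L c‖² + ‖L (ic)‖² = ‖c‖² (‖L 1‖² + ‖L I‖²)` (write `c = a + ib`).  `U ∘ F = v` on the ball, `v = vt k Ψ · e^{iBφ}`, so `fderiv U z (F'(w) h) = fderiv v w h`, and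
`L(F'(w) h) = e^{iBφ(w)} (fderiv (vt k Ψ) w h + i B (fderiv φ w h - AA z (F'(w) h)) vt) = e^{iBφ} (fderiv (vt k Ψ) w h - i B g(w) Im(w̄h) vt k Ψ w)`.  `vt k Ψ (pc r θ) = radf k Ψ r e^{ikθ}`.  `h = e^{iθ}`: `Im(w̄h) = 0`, `fderiv vt w h = (d/dr) vt(pc r θ) = (radf k Ψ)'(r) e^{ikθ}`.
`h = i e^{iθ}`: `Im(w̄h) = r`, `fderiv vt w h = (1/r)(d/dθ) vt(pc r θ) = (ik/r) radf k Ψ r e^{ikθ}`.  So the second norm is `|radf k Ψ r| |k/r - B g r| = |radf| |k - B b|/r`. -/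
def StDen : Prop := ∀ (N : ℕ) (Ω : Set ℂ) (f F : ℂ → ℂ) (a : ℕ → ℂ) (φ : ℂ → ℝ) (B : ℝ) (k : ℕ) (Ψ : ℝ → ℝ),
  CM N Ω f F a → Gau F φ → ContDiff ℝ 2 Ψ →
  ContDiffOn ℝ 1 (UT B k Ψ φ f) Ω ∧ ∀ r ∈ Ioo (0 : ℝ) 1, ∀ θ : ℝ,
    ‖deriv F (pc r θ)‖ ^ 2 * edC B (UT B k Ψ φ f) (F (pc r θ))
      = deriv (radf (k : ℤ) Ψ) r ^ 2 + radf (k : ℤ) Ψ r ^ 2 * (k - B * bb F r θ) ^ 2 / r ^ 2 ∧
    ‖UT B k Ψ φ f (F (pc r θ))‖ ^ 2 = radf (k : ℤ) Ψ r ^ 2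

/-- ITEM PC (change of variables).  `Ω = F '' ball`, `F` injective on the ball: `lintegral_image_eq_lintegral_abs_det_fderiv_mul` (the determinant of the multiplication by `c` on `ℂ` is `‖c‖²`), then polar coordinates on `ℂ` (`Complex.lintegral_comp_polarCoord_symm`, `θ ∈ (-π, π)`; with the
indicator of the ball; Tonelli; replace `(-π, π)` by `(0, 2π)` because `pc r` has period `2π`; note `Complex.polarCoord.symm (r,θ) = r (cos θ + sin θ I) = pc r θ`). -/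
def StPC : Prop := ∀ (N : ℕ) (Ω : Set ℂ) (f F : ℂ → ℂ) (a : ℕ → ℂ) (h : ℂ → ENNReal), CM N Ω f F a →
  AEMeasurable (fun w => h (F w)) (volume.restrict (Metric.ball (0 : ℂ) 1)) →
  (∫⁻ z in Ω, h z) = ∫⁻ r in Ioo (0 : ℝ) 1, ∫⁻ θ in Ioo (0 : ℝ) (2 * Real.pi),
    ENNReal.ofReal (r * ‖deriv F (pc r θ)‖ ^ 2) * h (F (pc r θ))

/-- ITEM Ray (Rayleigh quotient in complex notation; uses `uRay`, i.e. `URay`).  `u(x) = U(x₁ + i x₂)`, `Complex.equivRealProdCLM`, `Complex.volume_preserving_equiv_real_prod`; `eden B u x = edC B U (x₁ + i x₂)` on `toR Ω` (chain rule; `AA z 1 = -y/2`, `AA z I = x/2`); `lintegral` to `integral`: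
`ofReal_integral_eq_lintegral_ofReal`, `integral_toReal`; the functions are continuous on `Ω`. -/
def StRay : Prop := ∀ (B ℓ : ℝ) (Ω : Set ℂ) (U : ℂ → ℂ), IsOpen Ω → ContDiffOn ℝ 1 U Ω →
  (∫⁻ z in Ω, ENNReal.ofReal (edC B U z)) ≠ ⊤ → (∫⁻ z in Ω, ENNReal.ofReal (‖U z‖ ^ 2)) ≠ ⊤ →
  (∫⁻ z in Ω, ENNReal.ofReal (‖U z‖ ^ 2)) ≠ 0 →
  (∫⁻ z in Ω, ENNReal.ofReal (edC B U z)).toReal ≤ ℓ * (∫⁻ z in Ω, ENNReal.ofReal (‖U z‖ ^ 2)).toReal →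
  lamN B (toR Ω) ≤ ℓ

/-- ITEM Area (uses StPC, StF1).  StPC with `h = 1`: `volume Ω = ∫⁻_r ∫⁻_θ r |F'|² = ∫⁻_r (1/r) ∫_θ H_r(θ) = ∫⁻_r (2π/r) ∑ k² ‖a_k‖² r^{2k} = ∑ 2π k² ‖a_k‖²/(2k) = π ∑ k ‖a_k‖²` (`∫₀^{2π} H_r = 2π fc(H_r) 0`).  The second claim is the same with a factor `P(r)`:
`∫⁻_θ r |F'|² = ofReal (π A'(r))` with `A' = Aad (cc a)`, `2 k² ‖a_k‖² r^{2k-1}`. -/
def StArea : Prop := ∀ (N : ℕ) (Ω : Set ℂ) (f F : ℂ → ℂ) (a : ℕ → ℂ), CM N Ω f F a →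
  volume Ω = ENNReal.ofReal Real.pi * (∑' j : ℕ, ENNReal.ofReal (cc a j)) ∧
  ∀ r ∈ Ioo (0 : ℝ) 1, 0 ≤ Aad (cc a) r ∧
    (∫⁻ θ in Ioo (0 : ℝ) (2 * Real.pi), ENNReal.ofReal (r * ‖deriv F (pc r θ)‖ ^ 2)) = ENNReal.ofReal (Real.pi * Aad (cc a) r)

/-- ITEM En (energy and mass of the test function; uses StDen, StPC, StArea, StF2, StVar).  StPC with `h = ofReal (edC ..)` and `h = ofReal (‖U‖²)` (measurability: continuous on the ball) and StDen.  Mass: `∫⁻_r ∫⁻_θ r |F'|² p² = ∫⁻_r ofReal (π p² A')`.  Energy: for `r ∈ (0,1)`, as `b(r,·)` is continuous with mean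
`A/2` (`∫₀^{2π} b = 2π fc 0 = π A`): `∫₀^{2π} (r p'² + p² (k - Bb)²/r) dθ = 2π (r p'² + p² (k - BA/2)²/r) + (B² p²/r) ∫₀^{2π} (b - A/2)² dθ`; then `p² ≤ P` and StVar. -/
def StEn : Prop := ∀ (N : ℕ) (Ω : Set ℂ) (f F : ℂ → ℂ) (a : ℕ → ℂ) (φ : ℂ → ℝ) (B P : ℝ) (k : ℕ) (Ψ : ℝ → ℝ),
  CM N Ω f F a → Gau F φ → ContDiff ℝ 2 Ψ → (∑' j : ℕ, ENNReal.ofReal (cc a j)) = 1 →
  (∀ r ∈ Icc (0 : ℝ) 1, radf (k : ℤ) Ψ r ^ 2 ≤ P) →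
  (∫⁻ z in Ω, ENNReal.ofReal (edC B (UT B k Ψ φ f) z))
    ≤ (∫⁻ r in Ioo (0 : ℝ) 1, ENNReal.ofReal (Real.pi * (2 * r * (deriv (radf (k : ℤ) Ψ) r ^ 2
          + radf (k : ℤ) Ψ r ^ 2 * ((k - B * Aa (cc a) r / 2) / r) ^ 2))))
      + ENNReal.ofReal (B ^ 2 * P) * (ENNReal.ofReal (2 * Real.pi / N) * ∑' j : ℕ, ENNReal.ofReal (cc a (j + 2))) ∧
  (∫⁻ z in Ω, ENNReal.ofReal (‖UT B k Ψ φ f z‖ ^ 2))
    = ∫⁻ r in Ioo (0 : ℝ) 1, ENNReal.ofReal (Real.pi * (radf (k : ℤ) Ψ r ^ 2 * Aad (cc a) r))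

/-! ### part 4: the conformal map -/

/-- ITEM C0 (`0 ∈ Ω`).  Otherwise there is a continuous `g : Ω → ℂ` with `g^N = z` (`Complex.exists_continuousOn_pow_eq` in `Mathlib/Analysis/Complex/BranchLogRoot.lean`), `g ≠ 0`.  `ζ = exp(2πi/N)`; `q(z) = g(ζz)/g(z)` is continuous on the connected `Ω` with `q^N = ζ`, so it takes
values in a finite set and is a constant `ξ`, `ξ^N = ζ`.  `g(ζ^N z) = ξ^N g(z)`, i.e. `g(z) = ζ g(z)`, so `ζ = 1`, contradiction as `N ≥ 2`. -/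
def StC0 : Prop := ∀ (N : ℕ) (Ω : Set ℂ), 2 ≤ N → IsOpen Ω → IsSimplyConnected Ω →
  (∀ z ∈ Ω, Complex.exp (2 * Real.pi * Complex.I / N) * z ∈ Ω) → (0 : ℂ) ∈ Ω

/-- ITEM C1 (Riemann map and its inverse; uses `Pool.Agent.RMT.riemann_mapping'` of `Pool/Agent/Work/MP_a78000_an/RMT.lean`).  `f` from `riemann_mapping'` at `z₀ = 0`, `F` the inverse on the ball.  `F` is holomorphic: `f` is injective and holomorphic, so `f' ≠ 0` on `Ω` (look in Mathlib for the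
nonvanishing of the derivative of an injective holomorphic function, `Complex.deriv_ne_zero_of_injOn` or similar; otherwise: `f` is an open map, `F` is continuous, `F` is holomorphic off the discrete set `f({f' = 0})` and so everywhere by the removable singularity theorem). -/
def StC1 : Prop := ∀ Ω : Set ℂ, IsOpen Ω → IsSimplyConnected Ω → Ω ≠ univ → (0 : ℂ) ∈ Ω → ∃ f F : ℂ → ℂ,
  DifferentiableOn ℂ f Ω ∧ DifferentiableOn ℂ F (Metric.ball 0 1) ∧ MapsTo f Ω (Metric.ball 0 1) ∧ MapsTo F (Metric.ball 0 1) Ω ∧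
  (∀ w ∈ Metric.ball (0 : ℂ) 1, f (F w) = w) ∧ (∀ z ∈ Ω, F (f z) = z) ∧ f 0 = 0

/-- ITEM C2 (symmetric Riemann map; uses StC0, StC1).  `ζ = exp(2πi/N)`; `ζ⁻¹ Ω ⊂ Ω` too (`ζ⁻¹ = ζ^{N-1}`).  `ψ(w) = f(ζ F(w))` and `ψ'(w) = f(ζ⁻¹ F(w))` are inverse holomorphic self-maps of the ball fixing `0`, so by the Schwarz lemma `‖ψ(w)‖ = ‖w‖`, `ψ(w) = η w`
(equality case in `Mathlib/Analysis/Complex/Schwarz.lean`), and the derivative at `0` gives `η = f'(0) ζ F'(0) = ζ`.  So `F(ζw) = ζ F(w)`.  `a_j` the Taylor coefficients of `F` at `0` (`DifferentiableOn.hasFPowerSeriesOnBall` or `Complex.taylorSeries`): `a_j ζ^j = ζ a_j`, so `a_j ≠ 0` implies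
`N ∣ j - 1` (as integers), i.e. `j % N = 1` (`N ≥ 2`). -/
def StC2 : Prop := ∀ (N : ℕ) (Ω : Set ℂ), 2 ≤ N → IsOpen Ω → IsSimplyConnected Ω → Ω ≠ univ →
  (∀ z ∈ Ω, Complex.exp (2 * Real.pi * Complex.I / N) * z ∈ Ω) → ∃ (f F : ℂ → ℂ) (a : ℕ → ℂ), CM N Ω f F a

/-! ### part 5: the theorem -/

/-- ITEM Sp (spectral data): proved in `NF/Gk.lean` (`pr_Sp`). -/
def StSp : Prop := ∀ B : ℝ, 0 < B → ∃ (lam : ℝ) (m : ℕ), Sp B lam m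

/-- ITEM MU (the theorem for area `π` and centre `0`; captain). -/
def StMU : Prop := ∀ B : ℝ, 0 < B → ∃ N₀ : ℕ, ∀ N ≥ N₀, ∀ Ω : Set ℂ, IsOpen Ω → IsSimplyConnected Ω →
  volume Ω = ENNReal.ofReal Real.pi → (∀ z ∈ Ω, Complex.exp (2 * Real.pi * Complex.I / N) * z ∈ Ω) →
  lamN B (toR Ω) ≤ lamN B disc ∧ (lamN B (toR Ω) = lamN B disc → Ω = Metric.ball 0 1)

/-- ITEM Fin (the theorem; uses StMU, `sc`; captain). -/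
def StFin : Prop := ∀ B R : ℝ, 0 < B → 0 < R → ∃ N₀ : ℕ, ∀ N ≥ N₀, ∀ (p : ℝ × ℝ) (Ω : Set (ℝ × ℝ)), IsOpen Ω →
  SimplyConnectedSpace Ω → volume Ω = volume (edisc p R) → (∀ x ∈ Ω, rotN N p x ∈ Ω) →
  lamN B Ω ≤ lamN B (edisc p R) ∧ (lamN B Ω = lamN B (edisc p R) → Ω = edisc p R)

end Pool.Agent.MFK.NF
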